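import Pool.Agent.Lib.SLH.SpecD

/-!
MP_00e23e_nt, project SL, P2, chapter D', module Qcb: gcd(n1, n2) > t0, first full, second averaged (MODEL: Lib/SL/Lcb.lean).
-/

set_option autoImplicit false

namespace Pool.Agent.Lib.SL

open Finset Pool.Agent.Lib.EH3 Pool.Agent.Lib.TB Pool.Agent.Results.MP_00e23e_nt Pool.Agent.Lib.MI

private lemma Qcb_cop {a : ℤ} {q n m : ℕ} (hq : Int.gcd a (q : ℤ) = 1)
    (ht : (q : ℤ) ∣ ((m * n : ℕ) : ℤ) - a) : n.Coprime q := by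
  have h4 : (Nat.gcd n q : ℤ) ∣ ((m * n : ℕ) : ℤ) :=
    Int.natCast_dvd_natCast.2 (dvd_mul_of_dvd_right (Nat.gcd_dvd_left _ _) _)
  have h5 : (Nat.gcd n q : ℤ) ∣ ((m * n : ℕ) : ℤ) - a :=
    (Int.natCast_dvd_natCast.2 (Nat.gcd_dvd_right _ _)).trans ht
  have h6 := dvd_sub h4 h5
  rw [sub_sub_cancel] at h6
  have h7 : Nat.gcd n q ∣ Int.gcd a (q : ℤ) :=
    Int.dvd_gcd h6 (Int.natCast_dvd_natCast.2 (Nat.gcd_dvd_right _ _))
  rw [hq] at h7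
  exact Nat.dvd_one.1 h7

private lemma Qcb_gr {a : ℤ} {r s : ℕ} (h : Int.gcd a ((r * s : ℕ) : ℤ) = 1) :
    Int.gcd a (r : ℤ) = 1 := by
  have : Int.gcd a (r : ℤ) ∣ Int.gcd a ((r * s : ℕ) : ℤ) :=
    Int.gcd_dvd_gcd_of_dvd_right _ (Int.natCast_dvd_natCast.2 (dvd_mul_right _ _))
  rw [h] at this
  exact Nat.dvd_one.1 this

private lemma Qcb_har (S : ℕ) (hS : 1 ≤ S) : ∑ s ∈ Ioc S (2 * S), 1 / (s : ℝ) ≤ 1 := by
  have hS' : (0 : ℝ) < S := by exact_mod_cast hS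
  calc ∑ s ∈ Ioc S (2 * S), 1 / (s : ℝ) ≤ ∑ s ∈ Ioc S (2 * S), 1 / (S : ℝ) := by
        refine Finset.sum_le_sum fun s hs => ?_
        rw [mem_Ioc] at hs
        exact one_div_le_one_div_of_le hS' (by exact_mod_cast hs.1.le)
    _ = 1 := by
        rw [Finset.sum_const, Nat.card_Ioc, nsmul_eq_mul]
        have : 2 * S - S = S := by omega
        rw [this]
        field_simp

open Classical in
theorem tQcb (h1 : LnaStmt) (h2 : QcnStmt) : QcbStmt := by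
  intro X T z a R S M N t0 P hSz hP ht0
  have hna := (h1 X T z a R S M N P hSz hP).1
  obtain ⟨hT, hz, hR, hS, hN, hM, hRN, hX, hRS⟩ := hSz
  have hT1 : 1 ≤ T := hT.1
  have hR' : (1 : ℝ) ≤ R := by exact_mod_cast hR
  have hS' : (1 : ℝ) ≤ S := by exact_mod_cast hS
  have hN' : (1 : ℝ) ≤ N := by exact_mod_cast hN
  have hM' : (8 : ℝ) ≤ M := by exact_mod_cast hM
  have ht0' : (1 : ℝ) ≤ t0 := by exact_mod_cast ht0
  have hX2 : 2 * (N : ℝ) ≤ X := by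
    refine le_trans ?_ hX
    have e1 : (N : ℝ) ≤ (N : ℝ) ^ 2 := le_self_pow₀ hN' (by norm_num)
    have e2 : (1 : ℝ) ≤ (S : ℝ) ^ 4 := one_le_pow₀ hS'
    have e3 : (1 : ℝ) ≤ (M : ℝ) ^ 2 := one_le_pow₀ (by linarith)
    have e4 : (1 : ℝ) ≤ (R : ℝ) ^ 2 := one_le_pow₀ hR'
    calc 2 * (N : ℝ) ≤ 100 * 1 * N * 1 * 1 := by linarith
      _ ≤ 100 * (M : ℝ) ^ 2 * (N : ℝ) ^ 2 * (R : ℝ) ^ 2 * (S : ℝ) ^ 4 := by gcongr
  -- the sums over n2 for fixed m, r, s2, n1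
  have g1 : ∀ m r s2 n1 : ℕ, R < r → 1 ≤ n1 → n1 ≤ 2 * N → n1.Coprime r →
      ∑ n2 ∈ Ioc N (2 * N),
      (if (r, s2) ∈ P ∧ ((r : ℤ) ∣ ((m * n2 : ℕ) : ℤ) - a r s2 ∧ t0 < Nat.gcd n1 n2) then
        1 / (s2 : ℝ) else 0) ≤ (T * ((N : ℝ) / (R * t0) + 1)) * (1 / (s2 : ℝ)) := by
    intro m r s2 n1 hr hn1 hn1' hc
    by_cases hA : (r, s2) ∈ P
    · obtain ⟨_, _, _, _, sq, g, pr⟩ := hP _ hA
      simp only at sq g pr
      have k := h2 X T R N m n1 r t0 (a r s2) hT hR hr ht0 hn1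
        (le_trans (by exact_mod_cast hn1') hX2) hc (Qcb_gr g)
      rw [← Finset.sum_filter, Finset.sum_const, nsmul_eq_mul]
      refine mul_le_mul_of_nonneg_right (le_trans ?_ k) (by positivity)
      refine Nat.cast_le.2 (Finset.card_le_card fun x hx => ?_)
      rw [mem_filter] at hx ⊢
      exact ⟨hx.1, hx.2.2⟩
    · rw [Finset.sum_eq_zero fun n2 _ => if_neg (fun h => hA h.1)]
      positivity
  -- the constant for fixed m, r, s1, n1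
  obtain ⟨K, hK⟩ : ∃ K : ℝ, K = T * ((N : ℝ) / (R * t0) + 1) := ⟨_, rfl⟩
  have hK0 : 0 ≤ K := by rw [hK]; positivity
  -- termwise
  have hterm : ∀ m r s1 s2 n1 n2 : ℕ,
      (if (r, s1) ∈ P ∧ (r, s2) ∈ P ∧ t0 < Nat.gcd n1 n2 then
        D1 (a r s1) r s1 (m * n1) * D2 (a r s2) r s2 (m * n2) else 0) ≤
      if ((r, s1) ∈ P ∧ ((r * s1 : ℕ) : ℤ) ∣ ((m * n1 : ℕ) : ℤ) - a r s1) then
        (if (r, s2) ∈ P ∧ ((r : ℤ) ∣ ((m * n2 : ℕ) : ℤ) - a r s2 ∧ t0 < Nat.gcd n1 n2) then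
          1 / (s2 : ℝ) else 0) else 0 := by
    intro m r s1 s2 n1 n2
    have hnn : (0 : ℝ) ≤ if ((r, s1) ∈ P ∧ ((r * s1 : ℕ) : ℤ) ∣ ((m * n1 : ℕ) : ℤ) - a r s1) then
        (if (r, s2) ∈ P ∧ ((r : ℤ) ∣ ((m * n2 : ℕ) : ℤ) - a r s2 ∧ t0 < Nat.gcd n1 n2) then
          1 / (s2 : ℝ) else 0) else 0 := by
      split_ifs <;> positivity
    by_cases hB : (r, s1) ∈ P ∧ (r, s2) ∈ P ∧ t0 < Nat.gcd n1 n2
    · rw [if_pos hB]
      unfold D1 D2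
      by_cases ha : ((r * s1 : ℕ) : ℤ) ∣ ((m * n1 : ℕ) : ℤ) - a r s1
      · by_cases hb : (r : ℤ) ∣ ((m * n2 : ℕ) : ℤ) - a r s2
        · rw [if_pos ha, if_pos hb, if_pos ⟨hB.1, ha⟩, one_mul, mul_one,
            if_pos (⟨hB.2.1, hb, hB.2.2⟩ : (r, s2) ∈ P ∧ _ ∧ _)]
        · rw [if_neg hb, mul_zero, mul_zero]
          exact hnn
      · rw [if_neg ha, zero_mul]
        exact hnn
    · rw [if_neg hB]
      exact hnn
  -- sum over s2, n2 for fixed m, r, s1, n1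
  have hin : ∀ m r s1 n1 : ℕ, R < r → n1 ∈ Ioc N (2 * N) →
      ∑ s2 ∈ Ioc S (2 * S), ∑ n2 ∈ Ioc N (2 * N),
        (if (r, s1) ∈ P ∧ (r, s2) ∈ P ∧ t0 < Nat.gcd n1 n2 then
          D1 (a r s1) r s1 (m * n1) * D2 (a r s2) r s2 (m * n2) else 0) ≤
      if ((r, s1) ∈ P ∧ ((r * s1 : ℕ) : ℤ) ∣ ((m * n1 : ℕ) : ℤ) - a r s1) then K else 0 := by
    intro m r s1 n1 hr hn1
    rw [mem_Ioc] at hn1
    refine (Finset.sum_le_sum fun s2 _ => Finset.sum_le_sum fun n2 _ =>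
      hterm m r s1 s2 n1 n2).trans ?_
    by_cases hA : ((r, s1) ∈ P ∧ ((r * s1 : ℕ) : ℤ) ∣ ((m * n1 : ℕ) : ℤ) - a r s1)
    · simp only [if_pos hA]
      have hc : n1.Coprime r := by
        obtain ⟨_, _, _, _, _, g, _⟩ := hP _ hA.1
        simp only at g
        exact Qcb_cop (Qcb_gr g) ((Int.natCast_dvd_natCast.2 (dvd_mul_right _ _)).trans hA.2)
      calc ∑ s2 ∈ Ioc S (2 * S), ∑ n2 ∈ Ioc N (2 * N),
            (if (r, s2) ∈ P ∧ ((r : ℤ) ∣ ((m * n2 : ℕ) : ℤ) - a r s2 ∧ t0 < Nat.gcd n1 n2) then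
              1 / (s2 : ℝ) else 0)
            ≤ ∑ s2 ∈ Ioc S (2 * S), (T * ((N : ℝ) / (R * t0) + 1)) * (1 / (s2 : ℝ)) :=
              Finset.sum_le_sum fun s2 _ => g1 m r s2 n1 hr (by omega) hn1.2 hc
          _ = (T * ((N : ℝ) / (R * t0) + 1)) * ∑ s2 ∈ Ioc S (2 * S), 1 / (s2 : ℝ) := by
              rw [Finset.mul_sum]
          _ ≤ (T * ((N : ℝ) / (R * t0) + 1)) * 1 :=
              mul_le_mul_of_nonneg_left (Qcb_har S hS) (by positivity)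
          _ = K := by rw [hK, mul_one]
    · simp only [if_neg hA, Finset.sum_const_zero, le_refl]
  -- sum over r, s1 for fixed m, n1
  have hcnt : ∀ m n1 : ℕ, ∑ r ∈ Ioc R (2 * R), ∑ s1 ∈ Ioc S (2 * S),
      (if ((r, s1) ∈ P ∧ ((r * s1 : ℕ) : ℤ) ∣ ((m * n1 : ℕ) : ℤ) - a r s1) then K else 0) ≤
      ((P.filter (fun w => ((w.1 * w.2 : ℕ) : ℤ) ∣ ((m * n1 : ℕ) : ℤ) - a w.1 w.2)).card : ℝ) *
        K := by
    intro m n1
    rw [← Finset.sum_product' (Ioc R (2 * R)) (Ioc S (2 * S))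
      (fun r s1 => if ((r, s1) ∈ P ∧ ((r * s1 : ℕ) : ℤ) ∣ ((m * n1 : ℕ) : ℤ) - a r s1) then K
        else 0),
      ← Finset.sum_filter, Finset.sum_const, nsmul_eq_mul]
    refine mul_le_mul_of_nonneg_right ?_ hK0
    refine Nat.cast_le.2 (Finset.card_le_card fun w hw => ?_)
    rw [mem_filter] at hw ⊢
    exact hw.2
  -- together
  calc ∑ m ∈ Icc (M / 2) (3 * M), ∑ r ∈ Ioc R (2 * R), ∑ s1 ∈ Ioc S (2 * S), ∑ s2 ∈ Ioc S (2 * S),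
      ∑ n1 ∈ Ioc N (2 * N), ∑ n2 ∈ Ioc N (2 * N),
      (if (r, s1) ∈ P ∧ (r, s2) ∈ P ∧ t0 < Nat.gcd n1 n2 then
        D1 (a r s1) r s1 (m * n1) * D2 (a r s2) r s2 (m * n2) else 0)
      ≤ ∑ m ∈ Icc (M / 2) (3 * M), ∑ n1 ∈ Ioc N (2 * N), ∑ r ∈ Ioc R (2 * R),
        ∑ s1 ∈ Ioc S (2 * S),
        (if ((r, s1) ∈ P ∧ ((r * s1 : ℕ) : ℤ) ∣ ((m * n1 : ℕ) : ℤ) - a r s1) then K else 0) := by
        refine Finset.sum_le_sum fun m _ => ?_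
        calc ∑ r ∈ Ioc R (2 * R), ∑ s1 ∈ Ioc S (2 * S), ∑ s2 ∈ Ioc S (2 * S),
            ∑ n1 ∈ Ioc N (2 * N), ∑ n2 ∈ Ioc N (2 * N),
            (if (r, s1) ∈ P ∧ (r, s2) ∈ P ∧ t0 < Nat.gcd n1 n2 then
              D1 (a r s1) r s1 (m * n1) * D2 (a r s2) r s2 (m * n2) else 0)
            ≤ ∑ r ∈ Ioc R (2 * R), ∑ s1 ∈ Ioc S (2 * S), ∑ n1 ∈ Ioc N (2 * N),
              (if ((r, s1) ∈ P ∧ ((r * s1 : ℕ) : ℤ) ∣ ((m * n1 : ℕ) : ℤ) - a r s1) then K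
                else 0) := by
              refine Finset.sum_le_sum fun r hr => Finset.sum_le_sum fun s1 _ => ?_
              rw [mem_Ioc] at hr
              rw [Finset.sum_comm]
              exact Finset.sum_le_sum fun n1 hn1 => hin m r s1 n1 hr.1 hn1
          _ = ∑ r ∈ Ioc R (2 * R), ∑ n1 ∈ Ioc N (2 * N), ∑ s1 ∈ Ioc S (2 * S),
              (if ((r, s1) ∈ P ∧ ((r * s1 : ℕ) : ℤ) ∣ ((m * n1 : ℕ) : ℤ) - a r s1) then K
                else 0) :=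
              Finset.sum_congr rfl fun r _ => Finset.sum_comm
          _ = _ := Finset.sum_comm
    _ ≤ ∑ m ∈ Icc (M / 2) (3 * M), ∑ n1 ∈ Ioc N (2 * N),
        ((P.filter (fun w => ((w.1 * w.2 : ℕ) : ℤ) ∣ ((m * n1 : ℕ) : ℤ) - a w.1 w.2)).card : ℝ) *
        K := Finset.sum_le_sum fun m _ => Finset.sum_le_sum fun n1 _ => hcnt m n1
    _ = (∑ m ∈ Icc (M / 2) (3 * M), ∑ n1 ∈ Ioc N (2 * N),
        ((P.filter (fun w => ((w.1 * w.2 : ℕ) : ℤ) ∣ ((m * n1 : ℕ) : ℤ) - a w.1 w.2)).card : ℝ)) *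
        K := by
        rw [Finset.sum_mul]
        refine Finset.sum_congr rfl fun m _ => ?_
        rw [Finset.sum_mul]
    _ ≤ 7 * T * ((M : ℝ) * N) * K := mul_le_mul_of_nonneg_right hna hK0
    _ = 7 * T ^ 2 * ((M : ℝ) * N * (1 + N / ((R : ℝ) * t0))) := by
        rw [hK]
        ring

end Pool.Agent.Lib.SL
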