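import Pool.Agent.Lib.SLH.SpecD

/-! Module Qcc (both averaged, gcd(n1, n2) > t0), helper94. -/

set_option autoImplicit false

namespace Pool.Agent.Lib.SL

open Finset Pool.Agent.Lib.EH3 Pool.Agent.Lib.TB Pool.Agent.Results.MP_00e23e_nt Pool.Agent.Lib.MI

private lemma Qcc_inv (S : ℕ) (hS : 1 ≤ S) : ∑ s ∈ Ioc S (2 * S), 1 / (s : ℝ) ≤ 1 := by
  have hS0 : (0 : ℝ) < S := by exact_mod_cast hS
  calc ∑ s ∈ Ioc S (2 * S), 1 / (s : ℝ) ≤ ∑ s ∈ Ioc S (2 * S), 1 / (S : ℝ) := by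
        refine Finset.sum_le_sum fun s hs => ?_
        have : (S : ℝ) ≤ s := by exact_mod_cast (Finset.mem_Ioc.1 hs).1.le
        exact one_div_le_one_div_of_le hS0 this
    _ = 1 := by
        rw [Finset.sum_const, Nat.card_Ioc, nsmul_eq_mul]
        have : 2 * S - S = S := by omega
        rw [this]
        field_simp

open Classical in
/-- the indicator of a pair of `P` with the congruence modulo `r` -/
private noncomputable def Qcc_A (a : ℕ → ℕ → ℤ) (P : Finset (ℕ × ℕ)) (m r s n : ℕ) : ℝ :=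
  if (r, s) ∈ P ∧ (r : ℤ) ∣ ((m * n : ℕ) : ℤ) - a r s then 1 else 0

private lemma Qcc_A_nonneg (a : ℕ → ℕ → ℤ) (P : Finset (ℕ × ℕ)) (m r s n : ℕ) :
    0 ≤ Qcc_A a P m r s n := by
  unfold Qcc_A
  split_ifs <;> norm_num

open Classical in
/-- the indicator with the large common factor -/
private noncomputable def Qcc_B (a : ℕ → ℕ → ℤ) (P : Finset (ℕ × ℕ)) (t0 m r s n1 n2 : ℕ) : ℝ :=
  if (r, s) ∈ P ∧ (r : ℤ) ∣ ((m * n2 : ℕ) : ℤ) - a r s ∧ t0 < Nat.gcd n1 n2 then 1 else 0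

private lemma Qcc_B_nonneg (a : ℕ → ℕ → ℤ) (P : Finset (ℕ × ℕ)) (t0 m r s n1 n2 : ℕ) :
    0 ≤ Qcc_B a P t0 m r s n1 n2 := by
  unfold Qcc_B
  split_ifs <;> norm_num

/-- the pointwise inequality -/
private lemma Qcc_pt {a : ℕ → ℕ → ℤ} {P : Finset (ℕ × ℕ)} (t0 m r s1 s2 n1 n2 : ℕ)
    [Decidable ((r, s1) ∈ P ∧ (r, s2) ∈ P ∧ t0 < Nat.gcd n1 n2)] :
    (if (r, s1) ∈ P ∧ (r, s2) ∈ P ∧ t0 < Nat.gcd n1 n2 then
      D2 (a r s1) r s1 (m * n1) * D2 (a r s2) r s2 (m * n2) else 0) ≤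
      (1 / (s1 : ℝ) * Qcc_A a P m r s1 n1) * (1 / (s2 : ℝ) * Qcc_B a P t0 m r s2 n1 n2) := by
  have hA1 := Qcc_A_nonneg a P m r s1 n1
  have hA2 := Qcc_B_nonneg a P t0 m r s2 n1 n2
  have hnn : 0 ≤ (1 / (s1 : ℝ) * Qcc_A a P m r s1 n1) *
      (1 / (s2 : ℝ) * Qcc_B a P t0 m r s2 n1 n2) := by positivity
  by_cases hB : (r, s1) ∈ P ∧ (r, s2) ∈ P ∧ t0 < Nat.gcd n1 n2
  swap
  · rw [if_neg hB]; exact hnn
  rw [if_pos hB]
  by_cases h1 : (r : ℤ) ∣ ((m * n1 : ℕ) : ℤ) - a r s1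
  swap
  · have : D2 (a r s1) r s1 (m * n1) = 0 := by
      unfold D2
      rw [if_neg h1, mul_zero]
    rw [this, zero_mul]; exact hnn
  by_cases h2 : (r : ℤ) ∣ ((m * n2 : ℕ) : ℤ) - a r s2
  swap
  · have : D2 (a r s2) r s2 (m * n2) = 0 := by
      unfold D2
      rw [if_neg h2, mul_zero]
    rw [this, mul_zero]; exact hnn
  obtain ⟨hP1, hP2, hg⟩ := hB
  have hA1e : Qcc_A a P m r s1 n1 = 1 := by
    unfold Qcc_A
    rw [if_pos ⟨hP1, h1⟩]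
  have hA2e : Qcc_B a P t0 m r s2 n1 n2 = 1 := by
    unfold Qcc_B
    rw [if_pos ⟨hP2, h2, hg⟩]
  have hD1 : D2 (a r s1) r s1 (m * n1) = 1 / (s1 : ℝ) := by
    unfold D2; rw [if_pos h1, mul_one]
  have hD2 : D2 (a r s2) r s2 (m * n2) = 1 / (s2 : ℝ) := by
    unfold D2; rw [if_pos h2, mul_one]
  rw [hD1, hD2, hA1e, hA2e, mul_one, mul_one]

private lemma Qcc_sizes {X : ℝ} {R S M N : ℕ} (hR : 1 ≤ R) (hS : 1 ≤ S) (hN : 1 ≤ N) (hM : 8 ≤ M)
    (hX : 100 * (M : ℝ) ^ 2 * (N : ℝ) ^ 2 * (R : ℝ) ^ 2 * (S : ℝ) ^ 4 ≤ X) :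
    ((2 * N : ℕ) : ℝ) ≤ X := by
  refine le_trans ?_ hX
  push_cast
  have hM0 : (8 : ℝ) ≤ M := by exact_mod_cast hM
  have h2 : (1 : ℝ) ≤ N := by exact_mod_cast hN
  have h3 : (1 : ℝ) ≤ R := by exact_mod_cast hR
  have h4 : (1 : ℝ) ≤ S := by exact_mod_cast hS
  have h5 : (1 : ℝ) ≤ (M : ℝ) ^ 2 := one_le_pow₀ (by linarith)
  have h6 : (1 : ℝ) ≤ (S : ℝ) ^ 4 := one_le_pow₀ h4
  have h7 : (1 : ℝ) ≤ (R : ℝ) ^ 2 := one_le_pow₀ h3
  have h8 : (N : ℝ) ≤ (N : ℝ) ^ 2 := le_self_pow₀ h2 (by norm_num)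
  have h9 : (1 : ℝ) ≤ (M : ℝ) ^ 2 * (R : ℝ) ^ 2 * (S : ℝ) ^ 4 :=
    one_le_mul_of_one_le_of_one_le (one_le_mul_of_one_le_of_one_le h5 h7) h6
  nlinarith [mul_le_mul h9 h8 (by positivity) (by positivity)]

open Classical in
theorem tQcc (hLna : LnaStmt) (hQcn : QcnStmt) : QccStmt := by
  intro X T z a R S M N t0 P hSz hPr ht0
  obtain ⟨hTau, hz, hR, hS, hN, hM, hRN, hX, hRS⟩ := id hSz
  have hT1 : 1 ≤ T := hTau.1
  have hS0 : (0 : ℝ) < S := by exact_mod_cast hS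
  have hR0 : (0 : ℝ) < R := by exact_mod_cast hR
  have hN0 : (0 : ℝ) < N := by exact_mod_cast hN
  have ht00 : (0 : ℝ) < t0 := by exact_mod_cast ht0
  have hM0 : (8 : ℝ) ≤ M := by exact_mod_cast hM
  have hXN := Qcc_sizes hR hS hN hM hX
  obtain ⟨W, hW⟩ : ∃ W : ℝ, W = 1 + (N : ℝ) / ((R : ℝ) * t0) := ⟨_, rfl⟩
  have hW0 : 0 ≤ W := by rw [hW]; positivity
  have hT0 : 0 ≤ T := by linarith
  -- the inner sums
  have hin : ∀ m r s1 n1 : ℕ, R < r → n1 ∈ Ioc N (2 * N) →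
      Qcc_A a P m r s1 n1 * ∑ s2 ∈ Ioc S (2 * S), ∑ n2 ∈ Ioc N (2 * N),
        1 / (s2 : ℝ) * Qcc_B a P t0 m r s2 n1 n2 ≤ Qcc_A a P m r s1 n1 * (T * W) := by
    intro m r s1 n1 hr hn1
    rw [Finset.mem_Ioc] at hn1
    by_cases hA : (r, s1) ∈ P ∧ (r : ℤ) ∣ ((m * n1 : ℕ) : ℤ) - a r s1
    swap
    · have : Qcc_A a P m r s1 n1 = 0 := by
        unfold Qcc_A
        rw [if_neg hA]
      rw [this, zero_mul, zero_mul]
    apply mul_le_mul_of_nonneg_left _ (Qcc_A_nonneg a P m r s1 n1)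
    obtain ⟨hP1, h1⟩ := hA
    obtain ⟨_, _, _, _, hsq1, hg1, _⟩ := hPr _ hP1
    simp only at hsq1 hg1
    have hga1 : IsCoprime (a r s1) (r : ℤ) := by
      have h3 := hg1
      rw [← Int.isCoprime_iff_gcd_eq_one] at h3
      push_cast at h3
      exact h3.of_mul_right_left
    have hc1 : IsCoprime ((m * n1 : ℕ) : ℤ) (r : ℤ) := by
      obtain ⟨k, hk⟩ := h1
      have : ((m * n1 : ℕ) : ℤ) = a r s1 + r * k := by linarith
      rw [this]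
      exact hga1.add_mul_left_left k
    push_cast at hc1
    have hn1r : n1.Coprime r := Nat.isCoprime_iff_coprime.1 hc1.of_mul_left_right
    have hb : ∀ s2 ∈ Ioc S (2 * S), ∑ n2 ∈ Ioc N (2 * N),
        1 / (s2 : ℝ) * Qcc_B a P t0 m r s2 n1 n2 ≤ 1 / (s2 : ℝ) * (T * W) := by
      intro s2 hs2
      rw [← Finset.mul_sum]
      apply mul_le_mul_of_nonneg_left _ (by positivity)
      by_cases hP : (r, s2) ∈ P
      swap
      · refine le_trans (le_of_eq ?_) (by positivity : (0 : ℝ) ≤ T * W)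
        apply Finset.sum_eq_zero
        intro n2 _
        unfold Qcc_B
        rw [if_neg (fun h => hP h.1)]
      obtain ⟨_, _, _, _, hsq, hg, hro⟩ := hPr _ hP
      simp only at hsq hg hro
      have hgr : Int.gcd (a r s2) r = 1 := by
        rw [← Int.isCoprime_iff_gcd_eq_one] at hg ⊢
        push_cast at hg
        exact hg.of_mul_right_left
      have hcn := hQcn X T R N m n1 r t0 (a r s2) hTau hR hr ht0 (by omega)
        (le_trans (by exact_mod_cast hn1.2) hXN) hn1r hgr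
      calc ∑ n2 ∈ Ioc N (2 * N), Qcc_B a P t0 m r s2 n1 n2
          = ∑ n2 ∈ Ioc N (2 * N),
              (if (r : ℤ) ∣ ((m * n2 : ℕ) : ℤ) - a r s2 ∧ t0 < Nat.gcd n1 n2
                then (1 : ℝ) else 0) := by
            refine Finset.sum_congr rfl fun n2 _ => ?_
            unfold Qcc_B
            by_cases h : (r : ℤ) ∣ ((m * n2 : ℕ) : ℤ) - a r s2 ∧ t0 < Nat.gcd n1 n2
            · rw [if_pos h, if_pos ⟨hP, h⟩]
            · rw [if_neg h, if_neg (fun h' => h h'.2)]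
        _ = (((Ioc N (2 * N)).filter
              (fun n : ℕ => (r : ℤ) ∣ ((m * n : ℕ) : ℤ) - a r s2 ∧ t0 < Nat.gcd n1 n)).card : ℝ) := by
            rw [Finset.sum_ite, Finset.sum_const_zero, add_zero,
              Finset.sum_const, nsmul_eq_mul, mul_one]
        _ ≤ T * ((N : ℝ) / (R * t0) + 1) := hcn
        _ = T * W := by rw [hW]; ring
    refine (Finset.sum_le_sum hb).trans ?_
    rw [← Finset.sum_mul]
    calc (∑ s ∈ Ioc S (2 * S), 1 / (s : ℝ)) * (T * W) ≤ 1 * (T * W) :=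
          mul_le_mul_of_nonneg_right (Qcc_inv S hS) (by positivity)
      _ = T * W := one_mul _
  -- the outer sum
  have hout : ∑ m ∈ Icc (M / 2) (3 * M), ∑ r ∈ Ioc R (2 * R), ∑ s ∈ Ioc S (2 * S),
      ∑ n ∈ Ioc N (2 * N), 1 / (s : ℝ) * Qcc_A a P m r s n ≤ 7 * T * ((M : ℝ) * N) := by
    have hna := (hLna X T z a R S M N P hSz hPr).2
    have e1 : ∑ m ∈ Icc (M / 2) (3 * M), ∑ r ∈ Ioc R (2 * R), ∑ s ∈ Ioc S (2 * S),
        ∑ n ∈ Ioc N (2 * N), 1 / (s : ℝ) * Qcc_A a P m r s n =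
        ∑ s ∈ Ioc S (2 * S), 1 / (s : ℝ) * ∑ m ∈ Icc (M / 2) (3 * M), ∑ n ∈ Ioc N (2 * N),
          ∑ r ∈ Ioc R (2 * R), Qcc_A a P m r s n := by
      calc _ = ∑ m ∈ Icc (M / 2) (3 * M), ∑ s ∈ Ioc S (2 * S), ∑ r ∈ Ioc R (2 * R),
            ∑ n ∈ Ioc N (2 * N), 1 / (s : ℝ) * Qcc_A a P m r s n :=
            Finset.sum_congr rfl fun m _ => Finset.sum_comm
        _ = ∑ s ∈ Ioc S (2 * S), ∑ m ∈ Icc (M / 2) (3 * M), ∑ r ∈ Ioc R (2 * R),
            ∑ n ∈ Ioc N (2 * N), 1 / (s : ℝ) * Qcc_A a P m r s n := Finset.sum_comm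
        _ = _ := by
            refine Finset.sum_congr rfl fun s _ => ?_
            rw [Finset.mul_sum]
            refine Finset.sum_congr rfl fun m _ => ?_
            rw [Finset.sum_comm, Finset.mul_sum]
            refine Finset.sum_congr rfl fun n _ => ?_
            rw [Finset.mul_sum]
    rw [e1]
    have hb : ∀ s ∈ Ioc S (2 * S), 1 / (s : ℝ) * ∑ m ∈ Icc (M / 2) (3 * M), ∑ n ∈ Ioc N (2 * N),
        ∑ r ∈ Ioc R (2 * R), Qcc_A a P m r s n ≤ 1 / (s : ℝ) * (7 * T * ((M : ℝ) * N)) := by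
      intro s _
      apply mul_le_mul_of_nonneg_left _ (by positivity)
      refine le_trans (le_of_eq ?_) (hna s)
      refine Finset.sum_congr rfl fun m _ => Finset.sum_congr rfl fun n _ => ?_
      unfold Qcc_A
      rw [Finset.sum_ite, Finset.sum_const_zero, add_zero, Finset.sum_const, nsmul_eq_mul, mul_one]
    refine (Finset.sum_le_sum hb).trans ?_
    rw [← Finset.sum_mul]
    calc (∑ s ∈ Ioc S (2 * S), 1 / (s : ℝ)) * (7 * T * ((M : ℝ) * N)) ≤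
          1 * (7 * T * ((M : ℝ) * N)) :=
          mul_le_mul_of_nonneg_right (Qcc_inv S hS) (by positivity)
      _ = _ := one_mul _
  calc ∑ m ∈ Icc (M / 2) (3 * M), ∑ r ∈ Ioc R (2 * R), ∑ s1 ∈ Ioc S (2 * S), ∑ s2 ∈ Ioc S (2 * S),
        ∑ n1 ∈ Ioc N (2 * N), ∑ n2 ∈ Ioc N (2 * N),
        (if (r, s1) ∈ P ∧ (r, s2) ∈ P ∧ t0 < Nat.gcd n1 n2 then
          D2 (a r s1) r s1 (m * n1) * D2 (a r s2) r s2 (m * n2) else 0)
      ≤ ∑ m ∈ Icc (M / 2) (3 * M), ∑ r ∈ Ioc R (2 * R), ∑ s1 ∈ Ioc S (2 * S),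
          ∑ s2 ∈ Ioc S (2 * S), ∑ n1 ∈ Ioc N (2 * N), ∑ n2 ∈ Ioc N (2 * N),
            (1 / (s1 : ℝ) * Qcc_A a P m r s1 n1) * (1 / (s2 : ℝ) * Qcc_B a P t0 m r s2 n1 n2) :=
        Finset.sum_le_sum fun m _ => Finset.sum_le_sum fun r _ =>
          Finset.sum_le_sum fun s1 _ => Finset.sum_le_sum fun s2 _ =>
          Finset.sum_le_sum fun n1 _ => Finset.sum_le_sum fun n2 _ =>
            Qcc_pt t0 m r s1 s2 n1 n2
    _ ≤ ∑ m ∈ Icc (M / 2) (3 * M), ∑ r ∈ Ioc R (2 * R), ∑ s ∈ Ioc S (2 * S),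
          ∑ n ∈ Ioc N (2 * N), (1 / (s : ℝ) * Qcc_A a P m r s n) * (T * W) := by
        refine Finset.sum_le_sum fun m _ => Finset.sum_le_sum fun r hr =>
          Finset.sum_le_sum fun s1 _ => ?_
        rw [Finset.mem_Ioc] at hr
        rw [Finset.sum_comm]
        refine Finset.sum_le_sum fun n1 hn1 => ?_
        simp_rw [← Finset.mul_sum]
        have h := hin m r s1 n1 hr.1 hn1
        simp_rw [← Finset.mul_sum] at h
        rw [mul_assoc, mul_assoc]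
        exact mul_le_mul_of_nonneg_left h (by positivity)
    _ = (∑ m ∈ Icc (M / 2) (3 * M), ∑ r ∈ Ioc R (2 * R), ∑ s ∈ Ioc S (2 * S),
          ∑ n ∈ Ioc N (2 * N), 1 / (s : ℝ) * Qcc_A a P m r s n) * (T * W) := by
        simp_rw [Finset.sum_mul]
    _ ≤ (7 * T * ((M : ℝ) * N)) * (T * W) := mul_le_mul_of_nonneg_right hout (by positivity)
    _ = 7 * T ^ 2 * ((M : ℝ) * N * (1 + N / ((R : ℝ) * t0))) := by
        rw [hW]; ring

end Pool.Agent.Lib.SL
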