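import Pool.Agent.Lib.SLH.SpecD

/-!
MP_00e23e_nt, project SL P2, module Qcg (helper87, after Lcr of helper28): the averaged terms with a large gcd.
-/

set_option autoImplicit false

namespace Pool.Agent.Lib.SL

open Finset Pool.Agent.Lib.EH3 Pool.Agent.Lib.TB Pool.Agent.Results.MP_00e23e_nt Pool.Agent.Lib.MI

/-- the sum over the tuples -/
private noncomputable def Qcg_S (R S N : ℕ) (F : ℕ → ℕ → ℕ → ℕ → ℕ → ℝ) : ℝ :=
  ∑ r ∈ Ioc R (2 * R), ∑ s1 ∈ Ioc S (2 * S), ∑ s2 ∈ Ioc S (2 * S),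
    ∑ n1 ∈ Ioc N (2 * N), ∑ n2 ∈ Ioc N (2 * N), F r s1 s2 n1 n2

private theorem Qcg_le (R S N : ℕ) {F G : ℕ → ℕ → ℕ → ℕ → ℕ → ℝ}
    (h : ∀ r s1 s2 n1 n2, F r s1 s2 n1 n2 ≤ G r s1 s2 n1 n2) : Qcg_S R S N F ≤ Qcg_S R S N G :=
  Finset.sum_le_sum fun _ _ => Finset.sum_le_sum fun _ _ => Finset.sum_le_sum fun _ _ =>
    Finset.sum_le_sum fun _ _ => Finset.sum_le_sum fun _ _ => h _ _ _ _ _

private theorem Qcg_add (R S N : ℕ) (F G : ℕ → ℕ → ℕ → ℕ → ℕ → ℝ) :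
    Qcg_S R S N (fun r s1 s2 n1 n2 => F r s1 s2 n1 n2 + G r s1 s2 n1 n2) =
      Qcg_S R S N F + Qcg_S R S N G := by
  simp only [Qcg_S, Finset.sum_add_distrib]

private theorem Qcg_mul (R S N : ℕ) (c : ℝ) (F : ℕ → ℕ → ℕ → ℕ → ℕ → ℝ) :
    Qcg_S R S N (fun r s1 s2 n1 n2 => c * F r s1 s2 n1 n2) = c * Qcg_S R S N F := by
  simp only [Qcg_S, Finset.mul_sum]

private theorem Qcg_sum (R S N : ℕ) (A : Finset ℕ) (F : ℕ → ℕ → ℕ → ℕ → ℕ → ℕ → ℝ) :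
    Qcg_S R S N (fun r s1 s2 n1 n2 => ∑ m ∈ A, F m r s1 s2 n1 n2) =
      ∑ m ∈ A, Qcg_S R S N (F m) := by
  unfold Qcg_S
  rw [Finset.sum_comm (s := A)]
  refine Finset.sum_congr rfl fun r _ => ?_
  rw [Finset.sum_comm (s := A)]
  refine Finset.sum_congr rfl fun s1 _ => ?_
  rw [Finset.sum_comm (s := A)]
  refine Finset.sum_congr rfl fun s2 _ => ?_
  rw [Finset.sum_comm (s := A)]
  refine Finset.sum_congr rfl fun n1 _ => ?_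
  rw [Finset.sum_comm (s := A)]

private theorem Qcg_swap (R S N : ℕ) (F : ℕ → ℕ → ℕ → ℕ → ℕ → ℝ) :
    Qcg_S R S N F = Qcg_S R S N (fun r s1 s2 n1 n2 => F r s2 s1 n2 n1) := by
  unfold Qcg_S
  refine Finset.sum_congr rfl fun r _ => ?_
  rw [Finset.sum_comm]
  refine Finset.sum_congr rfl fun s1 _ => Finset.sum_congr rfl fun s2 _ => ?_
  rw [Finset.sum_comm]

private theorem Qcg_D1 (a : ℤ) (r s t : ℕ) : 0 ≤ D1 a r s t := by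
  unfold D1
  split_ifs <;> norm_num

private theorem Qcg_D2 (a : ℤ) (r s t : ℕ) : 0 ≤ D2 a r s t := by
  unfold D2
  split_ifs <;> simp

private theorem Qcg_symB {P : Finset (ℕ × ℕ)} {r s1 s2 n1 n2 t0 : ℕ} :
    ((r, s1) ∈ P ∧ (r, s2) ∈ P ∧ t0 < Nat.gcd n1 n2) ↔
      ((r, s2) ∈ P ∧ (r, s1) ∈ P ∧ t0 < Nat.gcd n2 n1) := by
  rw [Nat.gcd_comm n2 n1]
  constructor
  · rintro ⟨h1, h2, h3⟩
    exact ⟨h2, h1, h3⟩
  · rintro ⟨h1, h2, h3⟩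
    exact ⟨h2, h1, h3⟩

open Classical in
theorem tQcg (h1 : MI.DtrStmt) (h2 : QcbStmt) (h3 : QccStmt) : QcgStmt := by
  intro X T z a R S M N t0 P hSz hPr ht0
  have hB := h2 X T z a R S M N t0 P hSz hPr ht0
  have hC := h3 X T z a R S M N t0 P hSz hPr ht0
  obtain ⟨hT, hz, hR, -, -, hM, -, -, -⟩ := hSz
  set Q : ℝ := (M : ℝ) * N * (1 + N / ((R : ℝ) * t0)) with hQ
  have hsw : ∑ m ∈ Icc (M / 2) (3 * M), Qcg_S R S N (fun r s1 s2 n1 n2 =>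
      if ((r, s1) ∈ P ∧ (r, s2) ∈ P ∧ t0 < Nat.gcd n1 n2) then D2 (a r s1) r s1 (m * n1) * D1 (a r s2) r s2 (m * n2) else 0) ≤
      7 * T ^ 2 * Q := by
    refine le_trans (le_of_eq ?_) hB
    refine Finset.sum_congr rfl fun m _ => ?_
    rw [Qcg_swap]
    unfold Qcg_S
    refine Finset.sum_congr rfl fun r _ => Finset.sum_congr rfl fun s1 _ =>
      Finset.sum_congr rfl fun s2 _ => Finset.sum_congr rfl fun n1 _ =>
      Finset.sum_congr rfl fun n2 _ => ?_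
    show (if ((r, s2) ∈ P ∧ (r, s1) ∈ P ∧ t0 < Nat.gcd n2 n1) then D2 (a r s2) r s2 (m * n2) * D1 (a r s1) r s1 (m * n1)
      else 0) = _
    by_cases h : ((r, s1) ∈ P ∧ (r, s2) ∈ P ∧ t0 < Nat.gcd n1 n2)
    · rw [if_pos h, if_pos (Qcg_symB.1 h), mul_comm]
    · rw [if_neg h, if_neg fun h' => h (Qcg_symB.1 h')]
  have k1 : ∀ r s1 s2 n1 n2 : ℕ, Cr a M r s1 s2 n1 n2 ≤
      4 * ∑ m ∈ Icc (M / 2) (3 * M), (D1 (a r s1) r s1 (m * n1) * D2 (a r s2) r s2 (m * n2) +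
        D2 (a r s1) r s1 (m * n1) * D1 (a r s2) r s2 (m * n2) +
        D2 (a r s1) r s1 (m * n1) * D2 (a r s2) r s2 (m * n2)) := by
    intro r s1 s2 n1 n2
    unfold Cr
    refine (h1 M _ hM fun m => ?_).2
    have a1 := Qcg_D1 (a r s1) r s1 (m * n1)
    have a2 := Qcg_D2 (a r s1) r s1 (m * n1)
    have b1 := Qcg_D1 (a r s2) r s2 (m * n2)
    have b2 := Qcg_D2 (a r s2) r s2 (m * n2)
    positivity
  have k2 : Qcg_S R S N (fun r s1 s2 n1 n2 =>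
      if ((r, s1) ∈ P ∧ (r, s2) ∈ P ∧ t0 < Nat.gcd n1 n2) then Cr a M r s1 s2 n1 n2 else 0) ≤
      Qcg_S R S N (fun r s1 s2 n1 n2 => 4 * ∑ m ∈ Icc (M / 2) (3 * M),
        (((if ((r, s1) ∈ P ∧ (r, s2) ∈ P ∧ t0 < Nat.gcd n1 n2) then D1 (a r s1) r s1 (m * n1) * D2 (a r s2) r s2 (m * n2)
            else 0) +
          (if ((r, s1) ∈ P ∧ (r, s2) ∈ P ∧ t0 < Nat.gcd n1 n2) then D2 (a r s1) r s1 (m * n1) * D1 (a r s2) r s2 (m * n2)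
            else 0)) +
          (if ((r, s1) ∈ P ∧ (r, s2) ∈ P ∧ t0 < Nat.gcd n1 n2) then D2 (a r s1) r s1 (m * n1) * D2 (a r s2) r s2 (m * n2)
            else 0))) := by
    refine Qcg_le R S N fun r s1 s2 n1 n2 => ?_
    by_cases h : ((r, s1) ∈ P ∧ (r, s2) ∈ P ∧ t0 < Nat.gcd n1 n2)
    · simp only [if_pos h]
      exact k1 r s1 s2 n1 n2
    · simp only [if_neg h]
      simp
  have k3 : Qcg_S R S N (fun r s1 s2 n1 n2 => 4 * ∑ m ∈ Icc (M / 2) (3 * M),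
        (((if ((r, s1) ∈ P ∧ (r, s2) ∈ P ∧ t0 < Nat.gcd n1 n2) then D1 (a r s1) r s1 (m * n1) * D2 (a r s2) r s2 (m * n2)
            else 0) +
          (if ((r, s1) ∈ P ∧ (r, s2) ∈ P ∧ t0 < Nat.gcd n1 n2) then D2 (a r s1) r s1 (m * n1) * D1 (a r s2) r s2 (m * n2)
            else 0)) +
          (if ((r, s1) ∈ P ∧ (r, s2) ∈ P ∧ t0 < Nat.gcd n1 n2) then D2 (a r s1) r s1 (m * n1) * D2 (a r s2) r s2 (m * n2)
            else 0))) =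
      4 * ((∑ m ∈ Icc (M / 2) (3 * M), Qcg_S R S N (fun r s1 s2 n1 n2 =>
          if ((r, s1) ∈ P ∧ (r, s2) ∈ P ∧ t0 < Nat.gcd n1 n2) then D1 (a r s1) r s1 (m * n1) * D2 (a r s2) r s2 (m * n2)
            else 0)) +
        (∑ m ∈ Icc (M / 2) (3 * M), Qcg_S R S N (fun r s1 s2 n1 n2 =>
          if ((r, s1) ∈ P ∧ (r, s2) ∈ P ∧ t0 < Nat.gcd n1 n2) then D2 (a r s1) r s1 (m * n1) * D1 (a r s2) r s2 (m * n2)
            else 0)) +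
        (∑ m ∈ Icc (M / 2) (3 * M), Qcg_S R S N (fun r s1 s2 n1 n2 =>
          if ((r, s1) ∈ P ∧ (r, s2) ∈ P ∧ t0 < Nat.gcd n1 n2) then D2 (a r s1) r s1 (m * n1) * D2 (a r s2) r s2 (m * n2)
            else 0))) := by
    rw [Qcg_mul, Qcg_sum]
    simp only [Qcg_add, Finset.sum_add_distrib]
  have hB' : (∑ m ∈ Icc (M / 2) (3 * M), Qcg_S R S N (fun r s1 s2 n1 n2 =>
      if ((r, s1) ∈ P ∧ (r, s2) ∈ P ∧ t0 < Nat.gcd n1 n2) then D1 (a r s1) r s1 (m * n1) * D2 (a r s2) r s2 (m * n2)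
        else 0)) ≤ 7 * T ^ 2 * Q := hB
  have hC' : (∑ m ∈ Icc (M / 2) (3 * M), Qcg_S R S N (fun r s1 s2 n1 n2 =>
      if ((r, s1) ∈ P ∧ (r, s2) ∈ P ∧ t0 < Nat.gcd n1 n2) then D2 (a r s1) r s1 (m * n1) * D2 (a r s2) r s2 (m * n2)
        else 0)) ≤ 7 * T ^ 2 * Q := hC
  show Qcg_S R S N (fun r s1 s2 n1 n2 =>
      if ((r, s1) ∈ P ∧ (r, s2) ∈ P ∧ t0 < Nat.gcd n1 n2) then Cr a M r s1 s2 n1 n2 else 0) ≤ 84 * T ^ 2 * Q
  refine k2.trans ?_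
  rw [k3]
  linarith

end Pool.Agent.Lib.SL
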