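import Pool.Agent.Lib.SLH.SpecD

/-!
MP_00e23e_nt, project SL, directory Lib/SLH, module Qcn (helper6): n in a class with a large common factor with n1.
-/

set_option autoImplicit false

namespace Pool.Agent.Lib.SL

open Finset Pool.Agent.Lib.EH3 Pool.Agent.Lib.TB Pool.Agent.Results.MP_00e23e_nt Pool.Agent.Lib.MI

private lemma Qcn_cnt (r N n1 : ℕ) (hr0 : 0 < r) :
    (((Ioc N (2 * N)).filter (fun n2 : ℕ => (r : ℤ) ∣ (n2 : ℤ) - n1)).card : ℝ) ≤ (N : ℝ) / r + 1 := by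
  have h1 : (Ioc N (2 * N)).filter (fun n2 : ℕ => (r : ℤ) ∣ (n2 : ℤ) - n1) =
      (Ioc N (2 * N)).filter (fun n2 : ℕ => n2 ≡ n1 [MOD r]) := by
    refine Finset.filter_congr fun x _ => ?_
    rw [Nat.modEq_iff_dvd, ← dvd_neg]
    rw [neg_sub]
  have h2 := Nat.Ioc_filter_modEq_card N (2 * N) hr0 n1
  rw [h1]
  have h3 : ((((Ioc N (2 * N)).filter (fun n2 : ℕ => n2 ≡ n1 [MOD r])).card : ℤ) : ℚ) ≤
      (N : ℚ) / r + 1 := by
    rw [h2]
    have h4 : (0 : ℚ) ≤ (N : ℚ) / r + 1 := by positivity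
    have h5 := Int.floor_le ((((2 * N : ℕ) : ℚ) - n1) / (r : ℚ))
    have h6 := Int.lt_floor_add_one (((N : ℚ) - n1) / (r : ℚ))
    have h7 : (((2 * N : ℕ) : ℚ) - n1) / (r : ℚ) - ((N : ℚ) - n1) / (r : ℚ) = (N : ℚ) / r := by
      push_cast
      ring
    rw [Int.cast_max]
    refine max_le ?_ (by simpa using h4)
    push_cast at h5 h6 h7 ⊢
    linarith
  have h9 : ((((Ioc N (2 * N)).filter (fun n2 : ℕ => n2 ≡ n1 [MOD r])).card : ℚ) : ℝ) ≤
      (((N : ℚ) / r + 1 : ℚ) : ℝ) := by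
    exact_mod_cast h3
  push_cast at h9
  exact h9

private lemma Qcn_cls (q N : ℕ) (hq : 0 < q) (A : Finset ℕ) (hA : A ⊆ Ioc N (2 * N))
    (h : ∀ x ∈ A, ∀ y ∈ A, (q : ℤ) ∣ (x : ℤ) - y) : (A.card : ℝ) ≤ (N : ℝ) / q + 1 := by
  rcases A.eq_empty_or_nonempty with rfl | ⟨y, hy⟩
  · rw [Finset.card_empty, Nat.cast_zero]
    positivity
  · refine le_trans ?_ (Qcn_cnt q N y hq)
    refine Nat.cast_le.2 (Finset.card_le_card fun x hx => ?_)
    rw [mem_filter]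
    exact ⟨hA hx, h x hx y hy⟩

private lemma Qcn_dif {r m n n' : ℕ} {b : ℤ} (hb : Int.gcd b (r : ℤ) = 1)
    (h : (r : ℤ) ∣ ((m * n : ℕ) : ℤ) - b) (h' : (r : ℤ) ∣ ((m * n' : ℕ) : ℤ) - b) :
    (r : ℤ) ∣ (n : ℤ) - n' := by
  have cm : m.Coprime r := by
    have h4 : (Nat.gcd m r : ℤ) ∣ ((m * n : ℕ) : ℤ) :=
      Int.natCast_dvd_natCast.2 (dvd_mul_of_dvd_left (Nat.gcd_dvd_left _ _) _)
    have h5 : (Nat.gcd m r : ℤ) ∣ ((m * n : ℕ) : ℤ) - b :=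
      (Int.natCast_dvd_natCast.2 (Nat.gcd_dvd_right _ _)).trans h
    have h6 := dvd_sub h4 h5
    rw [sub_sub_cancel] at h6
    have h7 : Nat.gcd m r ∣ Int.gcd b (r : ℤ) :=
      Int.dvd_gcd h6 (Int.natCast_dvd_natCast.2 (Nat.gcd_dvd_right _ _))
    rw [hb] at h7
    exact Nat.dvd_one.1 h7
  have h3 := dvd_sub h h'
  have h4 : ((m * n : ℕ) : ℤ) - b - (((m * n' : ℕ) : ℤ) - b) = (m : ℤ) * ((n : ℤ) - n') := by
    push_cast
    ring
  rw [h4] at h3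
  exact (Nat.isCoprime_iff_coprime.2 cm).symm.dvd_of_dvd_mul_left h3

theorem tQcn : QcnStmt := by
  classical
  intro X T R N m n1 r t0 b hT hR hr ht0 hn1 hn1X hcop hb
  have hr0 : 0 < r := by omega
  have hR0 : (0 : ℝ) < R := by exact_mod_cast hR
  have ht00 : (0 : ℝ) < t0 := by exact_mod_cast ht0
  have hRr : (R : ℝ) ≤ r := by exact_mod_cast hr.le
  have hT0 : 0 ≤ T := by linarith [hT.1]
  have hsub : (Ioc N (2 * N)).filter (fun n : ℕ => (r : ℤ) ∣ ((m * n : ℕ) : ℤ) - b ∧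
      t0 < Nat.gcd n1 n) ⊆ (n1.divisors.filter (fun d => t0 < d)).biUnion (fun d => (Ioc N (2 * N)).filter
        (fun n : ℕ => (r : ℤ) ∣ ((m * n : ℕ) : ℤ) - b ∧ d ∣ n)) := by
    intro n hn
    rw [mem_filter] at hn
    obtain ⟨hn0, hn2, hn3⟩ := hn
    rw [mem_biUnion]
    refine ⟨Nat.gcd n1 n, ?_, ?_⟩
    · rw [mem_filter, Nat.mem_divisors]
      exact ⟨⟨Nat.gcd_dvd_left _ _, by omega⟩, hn3⟩
    · rw [mem_filter]
      exact ⟨hn0, hn2, Nat.gcd_dvd_right _ _⟩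
  have hone : ∀ d ∈ n1.divisors.filter (fun d => t0 < d), (((Ioc N (2 * N)).filter
      (fun n : ℕ => (r : ℤ) ∣ ((m * n : ℕ) : ℤ) - b ∧ d ∣ n)).card : ℝ) ≤
        (N : ℝ) / (R * t0) + 1 := by
    intro d hd
    rw [mem_filter, Nat.mem_divisors] at hd
    have hdr : r.Coprime d := (hcop.coprime_dvd_left hd.1.1).symm
    refine (Qcn_cls (r * d) N (Nat.mul_pos hr0 (by omega)) _ (Finset.filter_subset _ _) ?_).trans ?_
    · intro x hx y hy
      rw [mem_filter] at hx hy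
      have d1 := Qcn_dif hb hx.2.1 hy.2.1
      have d2 : (d : ℤ) ∣ (x : ℤ) - y :=
        dvd_sub (Int.natCast_dvd_natCast.2 hx.2.2) (Int.natCast_dvd_natCast.2 hy.2.2)
      push_cast
      exact (Nat.isCoprime_iff_coprime.2 hdr).mul_dvd d1 d2
    · have h1 : (R : ℝ) * t0 ≤ ((r * d : ℕ) : ℝ) := by
        push_cast
        exact mul_le_mul hRr (by exact_mod_cast hd.2.le) ht00.le (Nat.cast_nonneg _)
      have h2 : (N : ℝ) / ((r * d : ℕ) : ℝ) ≤ (N : ℝ) / (R * t0) :=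
        div_le_div_of_nonneg_left (Nat.cast_nonneg _) (by positivity) h1
      linarith
  have hcard : ((n1.divisors.filter (fun d => t0 < d)).card : ℝ) ≤ T := by
    refine le_trans ?_ (hT.2.2 n1 hn1 hn1X)
    exact_mod_cast Finset.card_le_card (Finset.filter_subset _ _)
  calc (((Ioc N (2 * N)).filter (fun n : ℕ => (r : ℤ) ∣ ((m * n : ℕ) : ℤ) - b ∧
      t0 < Nat.gcd n1 n)).card : ℝ)
      ≤ (((n1.divisors.filter (fun d => t0 < d)).biUnion (fun d => (Ioc N (2 * N)).filter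
        (fun n : ℕ => (r : ℤ) ∣ ((m * n : ℕ) : ℤ) - b ∧ d ∣ n))).card : ℝ) := by
        exact_mod_cast Finset.card_le_card hsub
    _ ≤ ∑ d ∈ n1.divisors.filter (fun d => t0 < d), (((Ioc N (2 * N)).filter
        (fun n : ℕ => (r : ℤ) ∣ ((m * n : ℕ) : ℤ) - b ∧ d ∣ n)).card : ℝ) := by
        exact_mod_cast Finset.card_biUnion_le
    _ ≤ ∑ d ∈ n1.divisors.filter (fun d => t0 < d), ((N : ℝ) / (R * t0) + 1) := Finset.sum_le_sum hone
    _ = ((n1.divisors.filter (fun d => t0 < d)).card : ℝ) * ((N : ℝ) / (R * t0) + 1) := by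
        rw [Finset.sum_const, nsmul_eq_mul]
    _ ≤ T * ((N : ℝ) / (R * t0) + 1) := mul_le_mul_of_nonneg_right hcard (by positivity)

end Pool.Agent.Lib.SL
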