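import Pool.Agent.Lib.SLH.SpecD

/-!
MP_00e23e_nt, project SL, P2, module Qex: opening the square.
-/

set_option autoImplicit false

namespace Pool.Agent.Lib.SL

open Finset Pool.Agent.Lib.EH3 Pool.Agent.Lib.TB Pool.Agent.Results.MP_00e23e_nt Pool.Agent.Lib.MI

private lemma Qex_ten_sum {ι : Type} (s : Finset ι) (M : ℕ) (g : ι → ℕ → ℂ) :
    Ten M (fun m => ∑ i ∈ s, g i m) = ∑ i ∈ s, Ten M (g i) := by
  unfold Ten
  rw [← Finset.mul_sum]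
  refine congrArg _ ?_
  calc ∑ i ∈ range M, ∑ j ∈ range M, ∑ k ∈ s, g k (i + j + M / 2)
      = ∑ i ∈ range M, ∑ k ∈ s, ∑ j ∈ range M, g k (i + j + M / 2) :=
        Finset.sum_congr rfl fun i _ => Finset.sum_comm
    _ = ∑ k ∈ s, ∑ i ∈ range M, ∑ j ∈ range M, g k (i + j + M / 2) := Finset.sum_comm

private lemma Qex_ten_mul (M : ℕ) (x : ℂ) (g : ℕ → ℂ) :
    Ten M (fun m => x * g m) = x * Ten M g := by
  unfold Ten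
  simp only [← Finset.mul_sum]
  ring

private lemma Qex_tr_cast (M : ℕ) (F : ℕ → ℝ) : ((TR M F : ℝ) : ℂ) = Ten M (fun m => (F m : ℂ)) := by
  unfold TR Ten
  push_cast
  rfl

private lemma Qex_conj_dl (a : ℤ) (q t : ℕ) : (starRingEnd ℂ) (dl a q t) = dl a q t := by
  unfold dl
  split_ifs <;> simp

private lemma Qex_conj_Dl (a : ℤ) (r s t : ℕ) : (starRingEnd ℂ) (Dl a r s t) = Dl a r s t := by
  unfold Dl
  simp only [map_sub, map_mul, map_div₀, map_one, map_natCast, Qex_conj_dl]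

private lemma Qex_sq (a : ℕ → ℕ → ℤ) (r S N m : ℕ) (β : ℕ → ℂ) (c : ℕ × ℕ → ℂ) :
    ((‖∑ s ∈ Ioc S (2 * S), c (r, s) *
        ∑ n ∈ Ioc N (2 * N), β n * Dl (a r s) r s (m * n)‖ ^ 2 : ℝ) : ℂ) =
      ∑ s1 ∈ Ioc S (2 * S), ∑ s2 ∈ Ioc S (2 * S), ∑ n1 ∈ Ioc N (2 * N), ∑ n2 ∈ Ioc N (2 * N),
        c (r, s1) * (starRingEnd ℂ) (c (r, s2)) * (β n1 * (starRingEnd ℂ) (β n2)) *
          (Dl (a r s1) r s1 (m * n1) * Dl (a r s2) r s2 (m * n2)) := by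
  push_cast
  rw [← Complex.mul_conj', map_sum, Finset.sum_mul_sum]
  refine Finset.sum_congr rfl fun s1 _ => Finset.sum_congr rfl fun s2 _ => ?_
  rw [map_mul, map_sum]
  have h1 : c (r, s1) * (∑ n ∈ Ioc N (2 * N), β n * Dl (a r s1) r s1 (m * n)) *
      ((starRingEnd ℂ) (c (r, s2)) *
        ∑ n ∈ Ioc N (2 * N), (starRingEnd ℂ) (β n * Dl (a r s2) r s2 (m * n))) =
      c (r, s1) * (starRingEnd ℂ) (c (r, s2)) *
        ((∑ n ∈ Ioc N (2 * N), β n * Dl (a r s1) r s1 (m * n)) *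
        ∑ n ∈ Ioc N (2 * N), (starRingEnd ℂ) (β n * Dl (a r s2) r s2 (m * n))) := by ring
  rw [h1, Finset.sum_mul_sum, Finset.mul_sum]
  refine Finset.sum_congr rfl fun n1 _ => ?_
  rw [Finset.mul_sum]
  refine Finset.sum_congr rfl fun n2 _ => ?_
  rw [map_mul, Qex_conj_Dl]
  ring

private lemma Qex_tr (a : ℕ → ℕ → ℤ) (r S M N : ℕ) (β : ℕ → ℂ) (c : ℕ × ℕ → ℂ) :
    ((TR M (fun m => ‖∑ s ∈ Ioc S (2 * S), c (r, s) *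
      ∑ n ∈ Ioc N (2 * N), β n * Dl (a r s) r s (m * n)‖ ^ 2) : ℝ) : ℂ) =
      ∑ s1 ∈ Ioc S (2 * S), ∑ s2 ∈ Ioc S (2 * S), ∑ n1 ∈ Ioc N (2 * N), ∑ n2 ∈ Ioc N (2 * N),
        c (r, s1) * (starRingEnd ℂ) (c (r, s2)) * (β n1 * (starRingEnd ℂ) (β n2)) *
          Ph a M r s1 s2 n1 n2 := by
  rw [Qex_tr_cast]
  have h1 : (fun m : ℕ => ((‖∑ s ∈ Ioc S (2 * S), c (r, s) *
      ∑ n ∈ Ioc N (2 * N), β n * Dl (a r s) r s (m * n)‖ ^ 2 : ℝ) : ℂ)) = fun m =>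
      ∑ s1 ∈ Ioc S (2 * S), ∑ s2 ∈ Ioc S (2 * S), ∑ n1 ∈ Ioc N (2 * N), ∑ n2 ∈ Ioc N (2 * N),
        c (r, s1) * (starRingEnd ℂ) (c (r, s2)) * (β n1 * (starRingEnd ℂ) (β n2)) *
          (Dl (a r s1) r s1 (m * n1) * Dl (a r s2) r s2 (m * n2)) :=
    funext fun m => Qex_sq a r S N m β c
  rw [h1, Qex_ten_sum]
  refine Finset.sum_congr rfl fun s1 _ => ?_
  rw [Qex_ten_sum]
  refine Finset.sum_congr rfl fun s2 _ => ?_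
  rw [Qex_ten_sum]
  refine Finset.sum_congr rfl fun n1 _ => ?_
  rw [Qex_ten_sum]
  refine Finset.sum_congr rfl fun n2 _ => ?_
  rw [Qex_ten_mul]
  rfl

private lemma Qex_norm_ten (M : ℕ) (F : ℕ → ℂ) (G : ℕ → ℝ) (h : ∀ m, ‖F m‖ ≤ G m) :
    ‖Ten M F‖ ≤ TR M G := by
  unfold Ten TR
  rw [norm_mul]
  have h1 : ‖(4 / (M : ℂ))‖ = 4 / (M : ℝ) := by
    rw [norm_div, Complex.norm_natCast]
    norm_num
  rw [h1]
  refine mul_le_mul_of_nonneg_left ?_ (by positivity)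
  exact norm_sum_le_of_le _ fun i _ => norm_sum_le_of_le _ fun j _ => h _

private lemma Qex_D2 (a : ℤ) (r s t : ℕ) : ‖(1 / (s : ℂ)) * dl a r t‖ = D2 a r s t := by
  rw [norm_mul, dl_nonneg_norm, norm_div, norm_one, Complex.norm_natCast]
  rfl

private lemma Qex_diff (a1 a2 : ℤ) (r s1 s2 t1 t2 : ℕ) :
    ‖Dl a1 r s1 t1 * Dl a2 r s2 t2 - dl a1 (r * s1) t1 * dl a2 (r * s2) t2‖ ≤
      D1 a1 r s1 t1 * D2 a2 r s2 t2 + D2 a1 r s1 t1 * D1 a2 r s2 t2 +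
        D2 a1 r s1 t1 * D2 a2 r s2 t2 := by
  obtain ⟨x, hx⟩ : ∃ x, x = dl a1 (r * s1) t1 := ⟨_, rfl⟩
  obtain ⟨y, hy⟩ : ∃ y, y = dl a2 (r * s2) t2 := ⟨_, rfl⟩
  obtain ⟨u, hu⟩ : ∃ u, u = (1 / (s1 : ℂ)) * dl a1 r t1 := ⟨_, rfl⟩
  obtain ⟨w, hw⟩ : ∃ w, w = (1 / (s2 : ℂ)) * dl a2 r t2 := ⟨_, rfl⟩
  have nx : ‖x‖ = D1 a1 r s1 t1 := by rw [hx]; exact dl_nonneg_norm _ _ _
  have ny : ‖y‖ = D1 a2 r s2 t2 := by rw [hy]; exact dl_nonneg_norm _ _ _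
  have nu : ‖u‖ = D2 a1 r s1 t1 := by rw [hu]; exact Qex_D2 _ _ _ _
  have nw : ‖w‖ = D2 a2 r s2 t2 := by rw [hw]; exact Qex_D2 _ _ _ _
  unfold Dl
  rw [← hx, ← hy, ← hu, ← hw, ← nx, ← ny, ← nu, ← nw]
  have e : (x - u) * (y - w) - x * y = -(x * w) + -(u * y) + u * w := by ring
  rw [e]
  refine (norm_add₃_le).trans (le_of_eq ?_)
  rw [norm_neg, norm_neg, norm_mul, norm_mul, norm_mul]

private lemma Qex_cop {a : ℤ} {q n m : ℕ} (hq : Int.gcd a (q : ℤ) = 1)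
    (ht : (q : ℤ) ∣ ((m * n : ℕ) : ℤ) - a) : n.Coprime q := by
  have h4 : (Nat.gcd n q : ℤ) ∣ ((m * n : ℕ) : ℤ) :=
    Int.natCast_dvd_natCast.2 (dvd_mul_of_dvd_right (Nat.gcd_dvd_left _ _) _)
  have h5 : (Nat.gcd n q : ℤ) ∣ ((m * n : ℕ) : ℤ) - a :=
    (Int.natCast_dvd_natCast.2 (Nat.gcd_dvd_right _ _)).trans ht
  have h6 := dvd_sub h4 h5
  rw [sub_sub_cancel] at h6
  have h7 : Nat.gcd n q ∣ Int.gcd a (q : ℤ) :=
    Int.dvd_gcd h6 (Int.natCast_dvd_natCast.2 (Nat.gcd_dvd_right _ _))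
  rw [hq] at h7
  exact Nat.dvd_one.1 h7

/-- a nonzero term with two full congruences -/
private lemma Qex_full {a : ℕ → ℕ → ℤ} {R S : ℕ} {z : ℝ} {P : Finset (ℕ × ℕ)}
    (hP : Pr a R S z P) {r s1 s2 n1 n2 m : ℕ} (h1 : (r, s1) ∈ P) (h2 : (r, s2) ∈ P)
    (d1 : ((r * s1 : ℕ) : ℤ) ∣ ((m * n1 : ℕ) : ℤ) - a r s1)
    (d2 : ((r * s2 : ℕ) : ℤ) ∣ ((m * n2 : ℕ) : ℤ) - a r s2) :
    1 ≤ Nat.gcd s1 s2 ∧ Gg a (Nat.gcd s1 s2) r s1 s2 n1 n2 := by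
  obtain ⟨_, _, _, _, sq1, g1, _⟩ := hP _ h1
  obtain ⟨_, _, _, _, sq2, g2, _⟩ := hP _ h2
  simp only at sq1 sq2 g1 g2
  have hg : Gg a (Nat.gcd s1 s2) r s1 s2 n1 n2 := by
    refine ⟨sq1, sq2, rfl, Qex_cop g1 d1, Qex_cop g2 d2, g1, g2, ?_⟩
    have e1 : ((r * Nat.gcd s1 s2 : ℕ) : ℤ) ∣ ((m * n1 : ℕ) : ℤ) - a r s1 :=
      (Int.natCast_dvd_natCast.2 (Nat.mul_dvd_mul_left r (Nat.gcd_dvd_left s1 s2))).trans d1
    have e2 : ((r * Nat.gcd s1 s2 : ℕ) : ℤ) ∣ ((m * n2 : ℕ) : ℤ) - a r s2 :=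
      (Int.natCast_dvd_natCast.2 (Nat.mul_dvd_mul_left r (Nat.gcd_dvd_right s1 s2))).trans d2
    have e3 : (n1 : ℤ) * a r s2 - (n2 : ℤ) * a r s1 =
        (n2 : ℤ) * (((m * n1 : ℕ) : ℤ) - a r s1) - (n1 : ℤ) * (((m * n2 : ℕ) : ℤ) - a r s2) := by
      push_cast
      ring
    rw [e3]
    exact dvd_sub (dvd_mul_of_dvd_right e1 _) (dvd_mul_of_dvd_right e2 _)
  refine ⟨?_, hg⟩
  have hs1 : s1 ≠ 0 := by
    rintro rfl
    rw [mul_zero] at sq1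
    exact not_squarefree_zero sq1
  exact Nat.gcd_pos_of_pos_left _ (Nat.pos_of_ne_zero hs1)

private lemma Qex_ps {a : ℕ → ℕ → ℤ} {R S : ℕ} {z : ℝ} {P : Finset (ℕ × ℕ)}
    (hP : Pr a R S z P) {r s1 s2 n1 n2 M : ℕ} (h1 : (r, s1) ∈ P) (h2 : (r, s2) ∈ P)
    (hg : ¬ (1 ≤ Nat.gcd s1 s2 ∧ Gg a (Nat.gcd s1 s2) r s1 s2 n1 n2)) : Ps a M r s1 s2 n1 n2 = 0 := by
  unfold Ps Ten
  rw [Finset.sum_eq_zero, mul_zero]
  intro i _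
  refine Finset.sum_eq_zero fun j _ => ?_
  unfold dl
  beta_reduce
  by_cases d1 : ((r * s1 : ℕ) : ℤ) ∣ (((i + j + M / 2) * n1 : ℕ) : ℤ) - a r s1
  · by_cases d2 : ((r * s2 : ℕ) : ℤ) ∣ (((i + j + M / 2) * n2 : ℕ) : ℤ) - a r s2
    · exact absurd (Qex_full hP h1 h2 d1 d2) hg
    · rw [if_neg d2, mul_zero]
  · rw [if_neg d1, zero_mul]

private lemma Qex_cr (a : ℕ → ℕ → ℤ) (M r s1 s2 n1 n2 : ℕ) :
    ‖Ph a M r s1 s2 n1 n2 - Ps a M r s1 s2 n1 n2‖ ≤ Cr a M r s1 s2 n1 n2 := by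
  have h8 : Ph a M r s1 s2 n1 n2 - Ps a M r s1 s2 n1 n2 =
      Ten M (fun m => Dl (a r s1) r s1 (m * n1) * Dl (a r s2) r s2 (m * n2) -
        dl (a r s1) (r * s1) (m * n1) * dl (a r s2) (r * s2) (m * n2)) := by
    unfold Ph Ps Ten
    rw [← mul_sub]
    simp only [← Finset.sum_sub_distrib]
  rw [h8]
  exact Qex_norm_ten M _ _ fun m => Qex_diff _ _ _ _ _ _ _

theorem tQex : QexStmt := by
  classical
  intro z a R S M N t0 P β c _ hP hβ hc hcP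
  obtain ⟨K, hK⟩ : ∃ K : ℕ → ℕ → ℕ → ℕ → ℕ → ℂ, K = fun r s1 s2 n1 n2 =>
    c (r, s1) * (starRingEnd ℂ) (c (r, s2)) * (β n1 * (starRingEnd ℂ) (β n2)) := ⟨_, rfl⟩
  obtain ⟨W, hW⟩ : ∃ W : ℕ → ℕ → ℕ → ℕ → ℕ → ℂ, W = fun r s1 s2 n1 n2 =>
    c (r, s1) * (starRingEnd ℂ) (c (r, s2)) * om β t0 n1 n2 := ⟨_, rfl⟩
  have h1 : ((∑ r ∈ Ioc R (2 * R), TR M (fun m => ‖∑ s ∈ Ioc S (2 * S), c (r, s) *
      ∑ n ∈ Ioc N (2 * N), β n * Dl (a r s) r s (m * n)‖ ^ 2) : ℝ) : ℂ) =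
      ∑ r ∈ Ioc R (2 * R), ∑ s1 ∈ Ioc S (2 * S), ∑ s2 ∈ Ioc S (2 * S), ∑ n1 ∈ Ioc N (2 * N),
        ∑ n2 ∈ Ioc N (2 * N), c (r, s1) * (starRingEnd ℂ) (c (r, s2)) *
          (β n1 * (starRingEnd ℂ) (β n2)) * Ph a M r s1 s2 n1 n2 := by
    rw [Complex.ofReal_sum]
    exact Finset.sum_congr rfl fun r _ => Qex_tr a r S M N β c
  have h2 : ∑ r ∈ Ioc R (2 * R), ∑ s1 ∈ Ioc S (2 * S), ∑ s2 ∈ Ioc S (2 * S), ∑ n1 ∈ Ioc N (2 * N),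
        ∑ n2 ∈ Ioc N (2 * N), c (r, s1) * (starRingEnd ℂ) (c (r, s2)) *
          (β n1 * (starRingEnd ℂ) (β n2)) * Ph a M r s1 s2 n1 n2 =
      ∑ r ∈ Ioc R (2 * R), ∑ s1 ∈ Ioc S (2 * S), ∑ s2 ∈ Ioc S (2 * S), ∑ n1 ∈ Ioc N (2 * N),
        ∑ n2 ∈ Ioc N (2 * N), (if Gg a 1 r s1 s2 n1 n2 then c (r, s1) * (starRingEnd ℂ) (c (r, s2)) *
          om β t0 n1 n2 * Ph a M r s1 s2 n1 n2 else 0) +
      ∑ r ∈ Ioc R (2 * R), ∑ s1 ∈ Ioc S (2 * S), ∑ s2 ∈ Ioc S (2 * S), ∑ n1 ∈ Ioc N (2 * N),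
        ∑ n2 ∈ Ioc N (2 * N), (if 2 ≤ Nat.gcd s1 s2 ∧ Gg a (Nat.gcd s1 s2) r s1 s2 n1 n2 then
          c (r, s1) * (starRingEnd ℂ) (c (r, s2)) *
          om β t0 n1 n2 * Ps a M r s1 s2 n1 n2 else 0) +
      ∑ r ∈ Ioc R (2 * R), ∑ s1 ∈ Ioc S (2 * S), ∑ s2 ∈ Ioc S (2 * S), ∑ n1 ∈ Ioc N (2 * N),
        ∑ n2 ∈ Ioc N (2 * N), (K r s1 s2 n1 n2 * Ph a M r s1 s2 n1 n2 -
          (if Gg a 1 r s1 s2 n1 n2 then W r s1 s2 n1 n2 * Ph a M r s1 s2 n1 n2 else 0) -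
          (if 2 ≤ Nat.gcd s1 s2 ∧ Gg a (Nat.gcd s1 s2) r s1 s2 n1 n2 then
            W r s1 s2 n1 n2 * Ps a M r s1 s2 n1 n2 else 0)) := by
    simp only [← Finset.sum_add_distrib]
    refine Finset.sum_congr rfl fun r _ => Finset.sum_congr rfl fun s1 _ =>
      Finset.sum_congr rfl fun s2 _ => Finset.sum_congr rfl fun n1 _ =>
      Finset.sum_congr rfl fun n2 _ => ?_
    rw [hK, hW]
    ring
  have h3 : ∑ r ∈ Ioc R (2 * R), TR M (fun m => ‖∑ s ∈ Ioc S (2 * S), c (r, s) *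
      ∑ n ∈ Ioc N (2 * N), β n * Dl (a r s) r s (m * n)‖ ^ 2) ≤
      ‖((∑ r ∈ Ioc R (2 * R), TR M (fun m => ‖∑ s ∈ Ioc S (2 * S), c (r, s) *
      ∑ n ∈ Ioc N (2 * N), β n * Dl (a r s) r s (m * n)‖ ^ 2) : ℝ) : ℂ)‖ := by
    rw [Complex.norm_real, Real.norm_eq_abs]
    exact le_abs_self _
  refine h3.trans ?_
  rw [h1, h2]
  refine (norm_add₃_le).trans ?_
  rw [add_assoc (‖_‖ + ‖_‖ + _), add_assoc (‖_‖ + ‖_‖)]
  refine add_le_add le_rfl ?_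
  simp only [← Finset.sum_add_distrib]
  refine norm_sum_le_of_le _ fun r _ => norm_sum_le_of_le _ fun s1 _ =>
    norm_sum_le_of_le _ fun s2 _ => norm_sum_le_of_le _ fun n1 _ =>
    norm_sum_le_of_le _ fun n2 _ => ?_
  have hCr := Qex_cr a M r s1 s2 n1 n2
  have hC0 : 0 ≤ Cr a M r s1 s2 n1 n2 := (norm_nonneg _).trans hCr
  have hB0 : 0 ≤ (if Bd a P r s1 s2 n1 n2 then Cr a M r s1 s2 n1 n2 else 0) := by
    split_ifs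
    · exact hC0
    · exact le_rfl
  have hF0 : 0 ≤ (if (r, s1) ∈ P ∧ (r, s2) ∈ P ∧ t0 < Nat.gcd n1 n2 then
      Cr a M r s1 s2 n1 n2 else 0) := by
    split_ifs
    · exact hC0
    · exact le_rfl
  have hE0 : 0 ≤ (if (r, s1) ∈ P ∧ (r, s2) ∈ P ∧ Gg a (Nat.gcd s1 s2) r s1 s2 n1 n2 ∧
      t0 < Nat.gcd n1 n2 then ‖Ps a M r s1 s2 n1 n2‖ else 0) := by
    split_ifs
    · exact norm_nonneg _
    · exact le_rfl
  by_cases hPP : (r, s1) ∈ P ∧ (r, s2) ∈ P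
  · obtain ⟨hP1, hP2⟩ := hPP
    have h4 : ‖K r s1 s2 n1 n2‖ ≤ 1 := by
      rw [hK]
      simp only
      rw [norm_mul, norm_mul, norm_mul, Complex.norm_conj, Complex.norm_conj]
      have e1 := mul_le_one₀ (hc (r, s1)) (norm_nonneg _) (hc (r, s2))
      have e2 := mul_le_one₀ (hβ n1) (norm_nonneg _) (hβ n2)
      exact mul_le_one₀ e1 (by positivity) e2
    by_cases ht : Nat.gcd n1 n2 ≤ t0
    · have hWK : W r s1 s2 n1 n2 = K r s1 s2 n1 n2 := by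
        rw [hW, hK]
        simp only [om, if_pos ht]
      rw [hWK]
      by_cases hG : Gg a 1 r s1 s2 n1 n2
      · have hg : ¬ (2 ≤ Nat.gcd s1 s2 ∧ Gg a (Nat.gcd s1 s2) r s1 s2 n1 n2) := by
          rintro ⟨hg, _⟩
          have := hG.2.2.1
          omega
        rw [if_pos hG, if_neg hg, sub_self, sub_zero, norm_zero]
        positivity
      · have hB : Bd a P r s1 s2 n1 n2 := ⟨hP1, hP2, hG⟩
        have h5 : (if 2 ≤ Nat.gcd s1 s2 ∧ Gg a (Nat.gcd s1 s2) r s1 s2 n1 n2 then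
            K r s1 s2 n1 n2 * Ps a M r s1 s2 n1 n2 else 0) =
            K r s1 s2 n1 n2 * Ps a M r s1 s2 n1 n2 := by
          by_cases hg : 2 ≤ Nat.gcd s1 s2 ∧ Gg a (Nat.gcd s1 s2) r s1 s2 n1 n2
          · rw [if_pos hg]
          · rw [if_neg hg, Qex_ps hP hP1 hP2, mul_zero]
            rintro ⟨g1, g2⟩
            have h3 : Nat.gcd s1 s2 ≠ 1 := by
              intro h
              rw [h] at g2
              exact hG g2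
            exact hg ⟨by omega, g2⟩
        rw [if_neg hG, sub_zero, h5, ← mul_sub, norm_mul, if_pos hB]
        have h6 : ‖K r s1 s2 n1 n2‖ * ‖Ph a M r s1 s2 n1 n2 - Ps a M r s1 s2 n1 n2‖ ≤
            Cr a M r s1 s2 n1 n2 := by
          calc ‖K r s1 s2 n1 n2‖ * ‖Ph a M r s1 s2 n1 n2 - Ps a M r s1 s2 n1 n2‖
              ≤ 1 * ‖Ph a M r s1 s2 n1 n2 - Ps a M r s1 s2 n1 n2‖ :=
                mul_le_mul_of_nonneg_right h4 (norm_nonneg _)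
            _ ≤ Cr a M r s1 s2 n1 n2 := by rw [one_mul]; exact hCr
        linarith
    · have hW0 : W r s1 s2 n1 n2 = 0 := by
        rw [hW]
        simp only [om, if_neg ht, mul_zero]
      have ht' : t0 < Nat.gcd n1 n2 := not_le.1 ht
      have h5 : K r s1 s2 n1 n2 * Ph a M r s1 s2 n1 n2 -
          (if Gg a 1 r s1 s2 n1 n2 then W r s1 s2 n1 n2 * Ph a M r s1 s2 n1 n2 else 0) -
          (if 2 ≤ Nat.gcd s1 s2 ∧ Gg a (Nat.gcd s1 s2) r s1 s2 n1 n2 then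
            W r s1 s2 n1 n2 * Ps a M r s1 s2 n1 n2 else 0) =
          K r s1 s2 n1 n2 * Ph a M r s1 s2 n1 n2 := by
        rw [hW0]
        simp
      rw [h5, norm_mul, if_pos (show (r, s1) ∈ P ∧ (r, s2) ∈ P ∧ t0 < Nat.gcd n1 n2 from
        ⟨hP1, hP2, ht'⟩)]
      have h6 : ‖Ph a M r s1 s2 n1 n2‖ ≤ Cr a M r s1 s2 n1 n2 + ‖Ps a M r s1 s2 n1 n2‖ := by
        have e := norm_add_le (Ph a M r s1 s2 n1 n2 - Ps a M r s1 s2 n1 n2) (Ps a M r s1 s2 n1 n2)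
        rw [sub_add_cancel] at e
        linarith
      have h7 : ‖Ps a M r s1 s2 n1 n2‖ ≤ (if (r, s1) ∈ P ∧ (r, s2) ∈ P ∧
          Gg a (Nat.gcd s1 s2) r s1 s2 n1 n2 ∧ t0 < Nat.gcd n1 n2 then
          ‖Ps a M r s1 s2 n1 n2‖ else 0) := by
        by_cases hg : Gg a (Nat.gcd s1 s2) r s1 s2 n1 n2
        · rw [if_pos ⟨hP1, hP2, hg, ht'⟩]
        · rw [Qex_ps hP hP1 hP2 (fun h => hg h.2), norm_zero]
          split_ifs <;> exact le_rfl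
      have h8 : ‖K r s1 s2 n1 n2‖ * ‖Ph a M r s1 s2 n1 n2‖ ≤ ‖Ph a M r s1 s2 n1 n2‖ := by
        calc ‖K r s1 s2 n1 n2‖ * ‖Ph a M r s1 s2 n1 n2‖ ≤ 1 * ‖Ph a M r s1 s2 n1 n2‖ :=
              mul_le_mul_of_nonneg_right h4 (norm_nonneg _)
          _ = ‖Ph a M r s1 s2 n1 n2‖ := one_mul _
      linarith
  · have hcc : c (r, s1) * (starRingEnd ℂ) (c (r, s2)) = 0 := by
      by_cases hP1 : (r, s1) ∈ P
      · have hP2 : (r, s2) ∉ P := fun h => hPP ⟨hP1, h⟩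
        rw [hcP _ hP2, map_zero, mul_zero]
      · rw [hcP _ hP1, zero_mul]
    have hK0 : K r s1 s2 n1 n2 = 0 := by
      rw [hK]
      simp only
      rw [hcc, zero_mul]
    have hW0 : W r s1 s2 n1 n2 = 0 := by
      rw [hW]
      simp only
      rw [hcc, zero_mul]
    have h5 : K r s1 s2 n1 n2 * Ph a M r s1 s2 n1 n2 -
        (if Gg a 1 r s1 s2 n1 n2 then W r s1 s2 n1 n2 * Ph a M r s1 s2 n1 n2 else 0) -
        (if 2 ≤ Nat.gcd s1 s2 ∧ Gg a (Nat.gcd s1 s2) r s1 s2 n1 n2 then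
          W r s1 s2 n1 n2 * Ps a M r s1 s2 n1 n2 else 0) = 0 := by
      rw [hW0, hK0]
      simp
    rw [h5, norm_zero]
    linarith

end Pool.Agent.Lib.SL
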