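import Pool.Agent.Lib.SLH.DefD

/-!
MP_00e23e_nt, project SL, P2 and NL (architect helper3): the final statement of chapter D' with a free parameter t0 ≥ G: the
sums TG are needed only for weights ω supported on gcd(n1, n2) ≤ t0. SLH.DspGStmt (SLH/DefD.lean) is the case t0 = H.
(The tuples with gcd(n1, n2) > t0 are removed before Poisson summation; their number is
≤ T^A (M N^2/(R t0) + S^2 N^2/t0^2 + M N), which is absorbed as t0 ≥ G.)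
-/

namespace Pool.Agent.Lib.SLH

open Finset Pool.Agent.Lib.EH3 Pool.Agent.Lib.TB Pool.Agent.Results.MP_00e23e_nt Pool.Agent.Lib.MI

/-- Chapter D'. The dispersion method with free classes, weights supported on gcd(n1, n2) ≤ t0, G ≤ t0. -/
def DspTStmt : Prop := ∃ C : ℝ, 0 < C ∧ ∃ A : ℕ, ∀ (X T z : ℝ) (a : ℕ → ℕ → ℤ) (R S M N H G t0 : ℕ)
    (P : Finset (ℕ × ℕ)) (α β : ℕ → ℂ) (B : ℕ → ℝ), Tau X T → 1 ≤ z → (∀ g, 0 ≤ B g) → 1 ≤ S → 1 ≤ N → 8 ≤ M →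
  1 ≤ G → G ≤ t0 → 1 ≤ H → R ≤ N → 2 * H < R →
  100 * (M : ℝ) ^ 2 * (N : ℝ) ^ 2 * (R : ℝ) ^ 2 * (S : ℝ) ^ 4 ≤ X → R * S ^ 2 ≤ M * N →
  SL.Pr a R S z P → (∀ m, ‖α m‖ ≤ 1) → (∀ n, ‖β n‖ ≤ 1) →
  (∀ g : ℕ, 1 ≤ g → g ≤ G → ∀ (γ : ℤ → ℕ → ℕ → ℕ → ℂ) (ω : ℕ → ℕ → ℂ), SL.Cg a P g R S M N γ →
    (∀ n1 n2, ‖ω n1 n2‖ ≤ 1) → (∀ n1 n2, ω n1 n2 ≠ 0 → Nat.gcd n1 n2 ≤ t0) →
    ‖∑ h ∈ Icc (-(H : ℤ)) H, SL.TG a g h R S N (γ h) ω‖ ≤ B g) →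
  (∑ w ∈ P, ‖∑ m ∈ Ioc M (2 * M), ∑ n ∈ Ioc N (2 * N), α m * β n * Dl (a w.1 w.2) w.1 w.2 (m * n)‖) ^ 2 ≤
    C * T ^ A * ((R : ℝ) * (M : ℝ) ^ 2 * N + (M : ℝ) ^ 2 * (N : ℝ) ^ 2 / z + (M : ℝ) ^ 2 * (N : ℝ) ^ 2 / G +
      (R : ℝ) * M * (N : ℝ) ^ 2 * (S : ℝ) ^ 2 / (G : ℝ) ^ 2 + (R : ℝ) ^ 2 * (S : ℝ) ^ 4 * (N : ℝ) ^ 2 / H +
      (R : ℝ) * M * ∑ g ∈ Icc 1 G, B g)

end Pool.Agent.Lib.SLH
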