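import Pool.Agent.Lib.SLH.SpecD

/-!
MP_00e23e_nt, project SL P2, module Qgt: all terms with two full congruences and a large gcd.
-/

set_option autoImplicit false

namespace Pool.Agent.Lib.SL

open Finset Pool.Agent.Lib.EH3 Pool.Agent.Lib.TB Pool.Agent.Results.MP_00e23e_nt Pool.Agent.Lib.MI

open Classical in
private theorem Qgt_dl (a : ℤ) (q t : ℕ) :
    ‖dl a q t‖ = if (q : ℤ) ∣ (t : ℤ) - a then (1 : ℝ) else 0 := by
  unfold dl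
  by_cases h : (q : ℤ) ∣ (t : ℤ) - a
  · simp [h]
  · simp [h]

private theorem Qgt_ten (M : ℕ) (F : ℕ → ℂ) : ‖Ten M F‖ ≤ TR M (fun m => ‖F m‖) := by
  unfold Ten TR
  rw [norm_mul]
  have h1 : ‖(4 / (M : ℂ))‖ = 4 / (M : ℝ) := by
    rw [norm_div]
    simp
  rw [h1]
  refine mul_le_mul_of_nonneg_left ?_ (by positivity)
  exact (norm_sum_le _ _).trans (Finset.sum_le_sum fun i _ => norm_sum_le _ _)

open Classical in
private theorem Qgt_ps (h1 : MI.DtrStmt) (a : ℕ → ℕ → ℤ) (M r s1 s2 n1 n2 : ℕ) (hM : 8 ≤ M) :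
    ‖Ps a M r s1 s2 n1 n2‖ ≤ 4 * ∑ m ∈ Icc (M / 2) (3 * M),
      (if ((r * s1 : ℕ) : ℤ) ∣ ((m * n1 : ℕ) : ℤ) - a r s1 ∧
        ((r * s2 : ℕ) : ℤ) ∣ ((m * n2 : ℕ) : ℤ) - a r s2 then (1 : ℝ) else 0) := by
  have h2 := (h1 M (fun m => (if ((r * s1 : ℕ) : ℤ) ∣ ((m * n1 : ℕ) : ℤ) - a r s1 ∧
        ((r * s2 : ℕ) : ℤ) ∣ ((m * n2 : ℕ) : ℤ) - a r s2 then (1 : ℝ) else 0)) hM
        (fun m => by split_ifs <;> norm_num)).2
  refine le_trans ?_ h2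
  unfold Ps
  refine (Qgt_ten M _).trans (le_of_eq ?_)
  congr 1
  funext m
  rw [norm_mul, Qgt_dl, Qgt_dl]
  by_cases hA : ((r * s1 : ℕ) : ℤ) ∣ ((m * n1 : ℕ) : ℤ) - a r s1
  · by_cases hB : ((r * s2 : ℕ) : ℤ) ∣ ((m * n2 : ℕ) : ℤ) - a r s2
    · rw [if_pos hA, if_pos hB, if_pos ⟨hA, hB⟩, mul_one]
    · rw [if_pos hA, if_neg hB, if_neg (fun h => hB h.2), mul_zero]
  · rw [if_neg hA, zero_mul]
    exact (if_neg fun h => hA h.1).symm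

open Classical in
private theorem Qgt_in (h1 : MI.DtrStmt) (h2 : QgyStmt) (X T z : ℝ)
    (a : ℕ → ℕ → ℤ) (R S M N t0 : ℕ) (P : Finset (ℕ × ℕ)) (hS : Sz X T z R S M N)
    (hP : Pr a R S z P) (ht : 1 ≤ t0) (hX : 6 * (M : ℝ) * N ≤ X) (r s1 s2 : ℕ)
    (hr : r ∈ Ioc R (2 * R)) (hs1 : s1 ∈ Ioc S (2 * S)) (hs2 : s2 ∈ Ioc S (2 * S)) :
    ∑ n1 ∈ Ioc N (2 * N), ∑ n2 ∈ Ioc N (2 * N),
      (if (r, s1) ∈ P ∧ (r, s2) ∈ P ∧ Gg a (Nat.gcd s1 s2) r s1 s2 n1 n2 ∧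
          t0 < Nat.gcd n1 n2 then ‖Ps a M r s1 s2 n1 n2‖ else 0) ≤
    4 * (5000 * T ^ 2 * ((M : ℝ) * (N : ℝ) ^ 2 / (t0 * (R : ℝ) ^ 2) * (1 / (s1 : ℝ) * (1 / (s2 : ℝ))) +
      (M : ℝ) * N / R * (1 / ((Nat.lcm s1 s2 : ℕ) : ℝ)) +
      (N : ℝ) ^ 2 / ((t0 : ℝ) ^ 2 * R) + 1)) := by
  obtain ⟨hT, hz, hR, hS1, hN, hM, hRN, hX2, hRS⟩ := hS
  rw [mem_Ioc] at hr hs1 hs2
  have hT0 : (0 : ℝ) ≤ T := zero_le_one.trans hT.1
  have hR0 : (0 : ℝ) < R := by exact_mod_cast hR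
  have ht0 : (0 : ℝ) < t0 := by exact_mod_cast ht
  have hs10 : (0 : ℝ) < s1 := by exact_mod_cast (by omega : 0 < s1)
  have hs20 : (0 : ℝ) < s2 := by exact_mod_cast (by omega : 0 < s2)
  have hl0 : 0 < Nat.lcm s1 s2 := Nat.lcm_pos (by omega) (by omega)
  have hl0' : (0 : ℝ) < (Nat.lcm s1 s2 : ℕ) := by exact_mod_cast hl0
  by_cases hc : (r, s1) ∈ P ∧ (r, s2) ∈ P
  · obtain ⟨hc1, hc2⟩ := hc
    have hp1 := hP _ hc1
    have hp2 := hP _ hc2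
    have hg1 : Int.gcd (a r s1) ((r * s1 : ℕ) : ℤ) = 1 := hp1.2.2.2.2.2.1
    have hg2 : Int.gcd (a r s2) ((r * s2 : ℕ) : ℤ) = 1 := hp2.2.2.2.2.2.1
    have hgpos : 0 < Nat.gcd s1 s2 := Nat.gcd_pos_of_pos_left _ (by omega)
    have hcard := h2 X T M N (r * s1) (r * s2) (r * Nat.gcd s1 s2) t0 (a r s1) (a r s2)
      hT hM hN ht (Nat.mul_pos (by omega) hgpos)
      (Nat.mul_pos (by omega) (by omega)) (Nat.mul_pos (by omega) (by omega))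
      (Nat.mul_dvd_mul_left r (Nat.gcd_dvd_left s1 s2))
      (Nat.mul_dvd_mul_left r (Nat.gcd_dvd_right s1 s2)) hX hg1 hg2
    have e1 : ∑ n1 ∈ Ioc N (2 * N), ∑ n2 ∈ Ioc N (2 * N),
        (if (r, s1) ∈ P ∧ (r, s2) ∈ P ∧ Gg a (Nat.gcd s1 s2) r s1 s2 n1 n2 ∧
          t0 < Nat.gcd n1 n2 then ‖Ps a M r s1 s2 n1 n2‖ else 0) ≤
        ∑ n ∈ (Ioc N (2 * N)) ×ˢ (Ioc N (2 * N)), 4 * ∑ m ∈ Icc (M / 2) (3 * M),
          (if ((r * s1 : ℕ) : ℤ) ∣ ((m * n.1 : ℕ) : ℤ) - a r s1 ∧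
            ((r * s2 : ℕ) : ℤ) ∣ ((m * n.2 : ℕ) : ℤ) - a r s2 ∧ t0 < Nat.gcd n.1 n.2
            then (1 : ℝ) else 0) := by
      rw [← Finset.sum_product']
      refine Finset.sum_le_sum fun n _ => ?_
      by_cases hn : (r, s1) ∈ P ∧ (r, s2) ∈ P ∧ Gg a (Nat.gcd s1 s2) r s1 s2 n.1 n.2 ∧
          t0 < Nat.gcd n.1 n.2
      · rw [if_pos hn]
        refine (Qgt_ps h1 a M r s1 s2 n.1 n.2 hM).trans (le_of_eq ?_)
        congr 1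
        refine Finset.sum_congr rfl fun m _ => ?_
        have hgt := hn.2.2.2
        by_cases hA : ((r * s1 : ℕ) : ℤ) ∣ ((m * n.1 : ℕ) : ℤ) - a r s1 ∧
            ((r * s2 : ℕ) : ℤ) ∣ ((m * n.2 : ℕ) : ℤ) - a r s2
        · rw [if_pos hA, if_pos ⟨hA.1, hA.2, hgt⟩]
        · rw [if_neg hA, if_neg fun h => hA ⟨h.1, h.2.1⟩]
      · rw [if_neg hn]
        refine mul_nonneg (by norm_num) (Finset.sum_nonneg fun m _ => ?_)
        split_ifs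
        · exact zero_le_one
        · exact le_refl _
    have e2 : ∑ n ∈ (Ioc N (2 * N)) ×ˢ (Ioc N (2 * N)), 4 * ∑ m ∈ Icc (M / 2) (3 * M),
          (if ((r * s1 : ℕ) : ℤ) ∣ ((m * n.1 : ℕ) : ℤ) - a r s1 ∧
            ((r * s2 : ℕ) : ℤ) ∣ ((m * n.2 : ℕ) : ℤ) - a r s2 ∧ t0 < Nat.gcd n.1 n.2
            then (1 : ℝ) else 0) =
        4 * (((Icc (M / 2) (3 * M) ×ˢ ((Ioc N (2 * N)) ×ˢ (Ioc N (2 * N)))).filter (fun w =>
          ((r * s1 : ℕ) : ℤ) ∣ ((w.1 * w.2.1 : ℕ) : ℤ) - a r s1 ∧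
          ((r * s2 : ℕ) : ℤ) ∣ ((w.1 * w.2.2 : ℕ) : ℤ) - a r s2 ∧
          t0 < Nat.gcd w.2.1 w.2.2)).card : ℝ) := by
      rw [← Finset.mul_sum, ← Finset.sum_boole]
      rw [Finset.sum_product_right (s := Icc (M / 2) (3 * M))]
    have hlcm : Nat.lcm (r * s1) (r * s2) = r * Nat.lcm s1 s2 :=
      Nat.lcm_mul_left _ _ _
    rw [hlcm] at hcard
    have hRr : (R : ℝ) ≤ r := by exact_mod_cast hr.1.le
    have hr0 : (0 : ℝ) < r := hR0.trans_le hRr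
    have hg1' : (1 : ℝ) ≤ (Nat.gcd s1 s2 : ℕ) := by exact_mod_cast hgpos
    have hgl : ((Nat.gcd s1 s2 : ℕ) : ℝ) * ((Nat.lcm s1 s2 : ℕ) : ℝ) = (s1 : ℝ) * s2 := by
      exact_mod_cast Nat.gcd_mul_lcm s1 s2
    have e3 : (M : ℝ) * N / ((r * Nat.lcm s1 s2 : ℕ) : ℝ) ≤
        (M : ℝ) * N / R * (1 / ((Nat.lcm s1 s2 : ℕ) : ℝ)) := by
      rw [div_mul_div_comm, mul_one]
      refine div_le_div_of_nonneg_left (by positivity) (by positivity) ?_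
      push_cast
      exact mul_le_mul_of_nonneg_right hRr (by positivity)
    have e4 : (M : ℝ) * (N : ℝ) ^ 2 /
        (t0 * ((r * Nat.gcd s1 s2 : ℕ) : ℝ) * ((r * Nat.lcm s1 s2 : ℕ) : ℝ)) ≤
        (M : ℝ) * (N : ℝ) ^ 2 / (t0 * (R : ℝ) ^ 2) * (1 / (s1 : ℝ) * (1 / (s2 : ℝ))) := by
      rw [one_div_mul_one_div, div_mul_div_comm, mul_one]
      refine div_le_div_of_nonneg_left (by positivity) (by positivity) ?_
      push_cast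
      have hsq : (R : ℝ) ^ 2 ≤ (r : ℝ) ^ 2 := pow_le_pow_left₀ hR0.le hRr 2
      calc (t0 : ℝ) * (R : ℝ) ^ 2 * ((s1 : ℝ) * s2)
          ≤ (t0 : ℝ) * (r : ℝ) ^ 2 * ((s1 : ℝ) * s2) :=
            mul_le_mul_of_nonneg_right (mul_le_mul_of_nonneg_left hsq ht0.le) (by positivity)
        _ = (t0 : ℝ) * (r : ℝ) ^ 2 *
            (((Nat.gcd s1 s2 : ℕ) : ℝ) * ((Nat.lcm s1 s2 : ℕ) : ℝ)) := by rw [hgl]
        _ = (t0 : ℝ) * ((r : ℝ) * ((Nat.gcd s1 s2 : ℕ) : ℝ)) *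
            ((r : ℝ) * ((Nat.lcm s1 s2 : ℕ) : ℝ)) := by ring
    have e5 : (N : ℝ) ^ 2 / ((t0 : ℝ) ^ 2 * ((r * Nat.gcd s1 s2 : ℕ) : ℝ)) ≤
        (N : ℝ) ^ 2 / ((t0 : ℝ) ^ 2 * R) := by
      refine div_le_div_of_nonneg_left (by positivity) (by positivity) ?_
      refine mul_le_mul_of_nonneg_left ?_ (by positivity)
      push_cast
      nlinarith
    rw [e2] at e1
    refine e1.trans ?_
    refine mul_le_mul_of_nonneg_left ?_ (by norm_num)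
    refine hcard.trans (mul_le_mul_of_nonneg_left ?_ (by positivity))
    linarith
  · rw [Finset.sum_eq_zero fun n1 _ => Finset.sum_eq_zero fun n2 _ =>
      if_neg fun h => hc ⟨h.1, h.2.1⟩]
    positivity

private theorem Qgt_inv (S : ℕ) (hS : 1 ≤ S) : ∑ s ∈ Ioc S (2 * S), 1 / (s : ℝ) ≤ 1 := by
  have hS0 : (0 : ℝ) < S := by exact_mod_cast hS
  calc ∑ s ∈ Ioc S (2 * S), 1 / (s : ℝ) ≤ ∑ s ∈ Ioc S (2 * S), 1 / (S : ℝ) := by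
        refine Finset.sum_le_sum fun s hs => ?_
        refine one_div_le_one_div_of_le hS0 ?_
        exact_mod_cast (mem_Ioc.1 hs).1.le
    _ = 1 := by
        rw [Finset.sum_const, Nat.card_Ioc, nsmul_eq_mul, show 2 * S - S = S by omega]
        field_simp

/-- Module Qgt. -/
theorem tQgt (h1 : MI.DtrStmt) (h2 : QgyStmt) (h3 : MJ.EgcStmt) : QgtStmt := by
  classical
  intro X T z a R S M N t0 P hS hP ht
  have hS' := hS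
  obtain ⟨hT, hz, hR, hS1, hN, hM, hRN, hX2, hRS⟩ := hS'
  have hT1 : (1 : ℝ) ≤ T := hT.1
  have hT0 : (0 : ℝ) ≤ T := zero_le_one.trans hT1
  have hR1 : (1 : ℝ) ≤ R := by exact_mod_cast hR
  have hR0 : (0 : ℝ) < R := by linarith
  have ht0 : (0 : ℝ) < t0 := by exact_mod_cast ht
  have hS1' : (1 : ℝ) ≤ S := by exact_mod_cast hS1
  have hN1 : (1 : ℝ) ≤ N := by exact_mod_cast hN
  have hM1 : (8 : ℝ) ≤ M := by exact_mod_cast hM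
  have hRS' : (R : ℝ) * (S : ℝ) ^ 2 ≤ (M : ℝ) * N := by exact_mod_cast hRS
  have hMN : (1 : ℝ) ≤ (M : ℝ) * N := one_le_mul_of_one_le_of_one_le (by linarith) hN1
  have hbig : 100 * ((M : ℝ) * N) ≤ X := by
    refine le_trans ?_ hX2
    have q1 : (M : ℝ) * N ≤ ((M : ℝ) * N) ^ 2 := by nlinarith
    have q2 : (1 : ℝ) ≤ (R : ℝ) ^ 2 * (S : ℝ) ^ 4 :=
      one_le_mul_of_one_le_of_one_le (one_le_pow₀ hR1) (one_le_pow₀ hS1')
    calc 100 * ((M : ℝ) * N) ≤ 100 * ((M : ℝ) * N) ^ 2 := by linarith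
      _ = 100 * ((M : ℝ) * N) ^ 2 * 1 := by ring
      _ ≤ 100 * ((M : ℝ) * N) ^ 2 * ((R : ℝ) ^ 2 * (S : ℝ) ^ 4) :=
        mul_le_mul_of_nonneg_left q2 (by positivity)
      _ = 100 * (M : ℝ) ^ 2 * (N : ℝ) ^ 2 * (R : ℝ) ^ 2 * (S : ℝ) ^ 4 := by ring
  have hX : 6 * (M : ℝ) * N ≤ X := by nlinarith
  have hSX : 2 * (S : ℝ) ≤ X := by
    have q3 : (S : ℝ) ≤ (R : ℝ) * (S : ℝ) ^ 2 := by nlinarith
    linarith
  have hE : ∑ s1 ∈ Ioc S (2 * S), ∑ s2 ∈ Ioc S (2 * S), 1 / ((Nat.lcm s1 s2 : ℕ) : ℝ) ≤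
      4 * T := by
    have q4 := h3 X T S 1 hT le_rfl hSX
    rw [Finset.filter_true_of_mem fun s _ => one_dvd s] at q4
    simpa using q4
  have hI : ∑ s1 ∈ Ioc S (2 * S), ∑ s2 ∈ Ioc S (2 * S), (1 / (s1 : ℝ) * (1 / (s2 : ℝ))) ≤ 1 := by
    rw [← Finset.sum_mul_sum]
    exact mul_le_one₀ (Qgt_inv S hS1) (Finset.sum_nonneg fun _ _ => by positivity) (Qgt_inv S hS1)
  have hcS : ((Ioc S (2 * S)).card : ℝ) = S := by
    rw [Nat.card_Ioc]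
    congr 1
    omega
  have hcR : ((Ioc R (2 * R)).card : ℝ) = R := by
    rw [Nat.card_Ioc]
    congr 1
    omega
  set A : ℝ := (M : ℝ) * (N : ℝ) ^ 2 / (t0 * (R : ℝ) ^ 2) with hA
  set B : ℝ := (M : ℝ) * N / R with hB
  set D : ℝ := (N : ℝ) ^ 2 / ((t0 : ℝ) ^ 2 * R) with hD
  have hA0 : 0 ≤ A := by positivity
  have hB0 : 0 ≤ B := by positivity
  have hD0 : 0 ≤ D := by positivity
  have hRA : (R : ℝ) * A = (M : ℝ) * (N : ℝ) ^ 2 / ((R : ℝ) * t0) := by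
    rw [hA]
    field_simp
  have hRB : (R : ℝ) * B = (M : ℝ) * N := by
    rw [hB]
    field_simp
  have hRD : (R : ℝ) * D = (N : ℝ) ^ 2 / (t0 : ℝ) ^ 2 := by
    rw [hD]
    field_simp
  calc ∑ r ∈ Ioc R (2 * R), ∑ s1 ∈ Ioc S (2 * S), ∑ s2 ∈ Ioc S (2 * S),
        ∑ n1 ∈ Ioc N (2 * N), ∑ n2 ∈ Ioc N (2 * N),
        (if (r, s1) ∈ P ∧ (r, s2) ∈ P ∧ Gg a (Nat.gcd s1 s2) r s1 s2 n1 n2 ∧
          t0 < Nat.gcd n1 n2 then ‖Ps a M r s1 s2 n1 n2‖ else 0)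
      ≤ ∑ r ∈ Ioc R (2 * R), ∑ s1 ∈ Ioc S (2 * S), ∑ s2 ∈ Ioc S (2 * S),
          4 * (5000 * T ^ 2 * (A * (1 / (s1 : ℝ) * (1 / (s2 : ℝ))) +
            B * (1 / ((Nat.lcm s1 s2 : ℕ) : ℝ)) + D + 1)) :=
        Finset.sum_le_sum fun r hr => Finset.sum_le_sum fun s1 hs1 => Finset.sum_le_sum
          fun s2 hs2 => Qgt_in h1 h2 X T z a R S M N t0 P hS hP ht hX r s1 s2 hr hs1 hs2
    _ = 4 * (5000 * T ^ 2 * (R * A * (∑ s1 ∈ Ioc S (2 * S), ∑ s2 ∈ Ioc S (2 * S),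
          (1 / (s1 : ℝ) * (1 / (s2 : ℝ)))) + R * B * (∑ s1 ∈ Ioc S (2 * S),
          ∑ s2 ∈ Ioc S (2 * S), 1 / ((Nat.lcm s1 s2 : ℕ) : ℝ)) + R * D * (S * S) +
          R * (S * S))) := by
        rw [Finset.sum_const, nsmul_eq_mul, hcR]
        simp only [← Finset.mul_sum, Finset.sum_add_distrib, Finset.sum_const, nsmul_eq_mul, hcS]
        ring
    _ ≤ 4 * (5000 * T ^ 2 * (R * A * 1 + R * B * (4 * T) + R * D * (S * S) + (M : ℝ) * N)) := by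
        refine mul_le_mul_of_nonneg_left (mul_le_mul_of_nonneg_left ?_ (by positivity))
          (by norm_num)
        refine add_le_add (add_le_add (add_le_add (mul_le_mul_of_nonneg_left hI (by positivity))
          (mul_le_mul_of_nonneg_left hE (by positivity))) le_rfl) ?_
        rw [← pow_two]
        exact hRS'
    _ = 4 * (5000 * T ^ 2 * ((M : ℝ) * (N : ℝ) ^ 2 / ((R : ℝ) * t0) + (M : ℝ) * N * (4 * T) +
          (S : ℝ) ^ 2 * (N : ℝ) ^ 2 / (t0 : ℝ) ^ 2 + (M : ℝ) * N)) := by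
        rw [hRA, hRB, hRD]
        ring
    _ ≤ 100000 * T ^ 3 * ((M : ℝ) * (N : ℝ) ^ 2 / ((R : ℝ) * t0) +
          (S : ℝ) ^ 2 * (N : ℝ) ^ 2 / (t0 : ℝ) ^ 2 + (M : ℝ) * N) := by
        obtain ⟨U, hU⟩ : ∃ U, U = (M : ℝ) * (N : ℝ) ^ 2 / ((R : ℝ) * t0) := ⟨_, rfl⟩
        obtain ⟨V, hV⟩ : ∃ V, V = (S : ℝ) ^ 2 * (N : ℝ) ^ 2 / (t0 : ℝ) ^ 2 := ⟨_, rfl⟩
        obtain ⟨W, hW⟩ : ∃ W, W = (M : ℝ) * N := ⟨_, rfl⟩
        have hU0 : 0 ≤ U := by rw [hU]; positivity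
        have hV0 : 0 ≤ V := by rw [hV]; positivity
        have hW0 : 0 ≤ W := by rw [hW]; positivity
        rw [← hU, ← hV, ← hW]
        have k1 : U ≤ T * U := le_mul_of_one_le_left hU0 hT1
        have k2 : V ≤ T * V := le_mul_of_one_le_left hV0 hT1
        have k3 : W ≤ T * W := le_mul_of_one_le_left hW0 hT1
        have k4 : U + W * (4 * T) + V + W ≤ 5 * (T * (U + V + W)) := by
          have : 0 ≤ T * U := by positivity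
          have : 0 ≤ T * V := by positivity
          nlinarith
        calc 4 * (5000 * T ^ 2 * (U + W * (4 * T) + V + W))
            ≤ 4 * (5000 * T ^ 2 * (5 * (T * (U + V + W)))) :=
              mul_le_mul_of_nonneg_left (mul_le_mul_of_nonneg_left k4 (by positivity))
                (by norm_num)
          _ = 100000 * T ^ 3 * (U + V + W) := by ring

end Pool.Agent.Lib.SL
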