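import Pool.Agent.Lib.SLH.SpecD

/-!
MP_00e23e_nt, project SL, P2, chapter D', module Qgy: the number of solutions with a large gcd (helper3).
-/

set_option autoImplicit false

namespace Pool.Agent.Lib.SL

open Finset Pool.Agent.Lib.EH3 Pool.Agent.Lib.TB Pool.Agent.Results.MP_00e23e_nt Pool.Agent.Lib.MI

/-- pairwise congruent natural numbers in Icc 1 B -/
private lemma Qgy_cnt (s : Finset ℕ) (m B y0 : ℕ) (hm : 1 ≤ m)
    (h : ∀ x ∈ s, (m : ℤ) ∣ (x : ℤ) - y0 ∧ 1 ≤ x ∧ x ≤ B) : s.card ≤ B / m + 1 := by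
  rcases s.eq_empty_or_nonempty with h0 | h0
  · simp [h0]
  · have hm' : (0 : ℤ) < m := by exact_mod_cast hm
    have key : ∀ x ∈ s, ∃ k : ℕ, x = s.min' h0 + m * k ∧ k < B / m + 1 := by
      intro x hx
      have h1 := h x hx
      have h1' := h _ (s.min'_mem h0)
      have h2 : s.min' h0 ≤ x := s.min'_le x hx
      have h3 : (m : ℤ) ∣ (x : ℤ) - (s.min' h0 : ℤ) := by
        have := dvd_sub h1.1 h1'.1
        have h4 : ((x : ℤ) - y0) - ((s.min' h0 : ℤ) - y0) = (x : ℤ) - (s.min' h0 : ℤ) := by ring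
        rwa [h4] at this
      have h5 : m ∣ x - s.min' h0 := by
        rw [← Nat.cast_sub h2] at h3
        exact_mod_cast h3
      obtain ⟨k, hk⟩ := h5
      refine ⟨k, by omega, ?_⟩
      have h6 : m * k ≤ B := by omega
      have h7 : k ≤ B / m := by
        rw [Nat.le_div_iff_mul_le (by omega), mul_comm]
        exact h6
      omega
    have h6 : s.card ≤ (range (B / m + 1)).card := by
      apply Finset.card_le_card_of_injOn (fun x => (x - s.min' h0) / m)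
      · intro x hx
        obtain ⟨k, hk, hk'⟩ := key x hx
        simp only [coe_range, Set.mem_Iio]
        have : x - s.min' h0 = m * k := by omega
        rw [this, Nat.mul_div_cancel_left _ (by omega)]
        exact hk'
      · intro x hx y hy hxy
        obtain ⟨k, hk, _⟩ := key x hx
        obtain ⟨j, hj, _⟩ := key y hy
        have e1 : x - s.min' h0 = m * k := by omega
        have e2 : y - s.min' h0 = m * j := by omega
        simp only [e1, e2] at hxy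
        rw [Nat.mul_div_cancel_left _ (by omega), Nat.mul_div_cancel_left _ (by omega)] at hxy
        rw [hk, hj, hxy]
    simpa using h6

/-- y is determined modulo q -/
private lemma Qgy_cls {q p y y0 : ℕ} {a : ℤ} (ha : Int.gcd a q = 1) (h : (q : ℤ) ∣ ((y * p : ℕ) : ℤ) - a)
    (h0 : (q : ℤ) ∣ ((y0 * p : ℕ) : ℤ) - a) : (q : ℤ) ∣ (y : ℤ) - y0 := by
  have hc : IsCoprime (q : ℤ) (p : ℤ) := by
    obtain ⟨u, v, huv⟩ := Int.isCoprime_iff_gcd_eq_one.2 ha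
    obtain ⟨k, hk⟩ := h0
    push_cast at hk
    exact ⟨v - u * k, u * y0, by linear_combination huv + u * hk⟩
  have h2 : (q : ℤ) ∣ ((y : ℤ) - y0) * p := by
    have := dvd_sub h h0
    push_cast at this
    have e : ((y : ℤ) * p - a) - ((y0 : ℤ) * p - a) = ((y : ℤ) - y0) * p := by ring
    rwa [e] at this
  exact hc.dvd_of_dvd_mul_right h2

/-- the solutions with given (n1/d, n2/d) = p -/
private lemma Qgy_fix (X T : ℝ) (M N q1 q2 p1 p2 : ℕ) (a1 a2 : ℤ) (hT : Tau X T) (hq1 : 1 ≤ q1) (hq2 : 1 ≤ q2)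
    (hX : 6 * (M : ℝ) * N ≤ X) (ha1 : Int.gcd a1 q1 = 1) (ha2 : Int.gcd a2 q2 = 1) (hp1 : 1 ≤ p1)
    (S : Finset (ℕ × ℕ × ℕ)) (hS : ∀ w ∈ S, 1 ≤ w.1 ∧ w.1 ≤ 3 * M ∧ 1 ≤ w.2.1 ∧ w.2.1 ≤ 2 * N ∧
      (q1 : ℤ) ∣ ((w.1 * w.2.1 : ℕ) : ℤ) - a1 ∧ (q2 : ℤ) ∣ ((w.1 * w.2.2 : ℕ) : ℤ) - a2 ∧
      w.2.1 = Nat.gcd w.2.1 w.2.2 * p1 ∧ w.2.2 = Nat.gcd w.2.1 w.2.2 * p2) :
    (S.card : ℝ) ≤ T * (6 * ((M : ℝ) * N) / (p1 * (Nat.lcm q1 q2 : ℕ)) + 1) := by
  classical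
  obtain ⟨hT1, hT2, hT3⟩ := hT
  have hK : 0 < Nat.lcm q1 q2 := Nat.lcm_pos (by omega) (by omega)
  have hT0 : 0 ≤ T := by linarith
  rcases S.eq_empty_or_nonempty with h0 | ⟨w0, hw0⟩
  · rw [h0, card_empty, Nat.cast_zero]
    positivity
  · set y : ℕ × ℕ × ℕ → ℕ := fun w => w.1 * Nat.gcd w.2.1 w.2.2 with hy
    have hy1 : ∀ w ∈ S, y w * p1 = w.1 * w.2.1 := by
      intro w hw
      have h3 := (hS w hw).2.2.2.2.2.2.1
      calc y w * p1 = w.1 * (Nat.gcd w.2.1 w.2.2 * p1) := by rw [hy]; ring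
        _ = w.1 * w.2.1 := by rw [← h3]
    have hy2 : ∀ w ∈ S, y w * p2 = w.1 * w.2.2 := by
      intro w hw
      have h3 := (hS w hw).2.2.2.2.2.2.2
      calc y w * p2 = w.1 * (Nat.gcd w.2.1 w.2.2 * p2) := by rw [hy]; ring
        _ = w.1 * w.2.2 := by rw [← h3]
    have hypos : ∀ w ∈ S, 1 ≤ y w ∧ y w ≤ 6 * (M * N) / p1 := by
      intro w hw
      have h3 := hS w hw
      have h4 : 0 < Nat.gcd w.2.1 w.2.2 := Nat.gcd_pos_of_pos_left _ (by omega)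
      refine ⟨Nat.one_le_iff_ne_zero.2 (Nat.mul_ne_zero (by omega) (by omega)), ?_⟩
      rw [Nat.le_div_iff_mul_le (by omega), hy1 w hw]
      calc w.1 * w.2.1 ≤ (3 * M) * (2 * N) := Nat.mul_le_mul h3.2.1 h3.2.2.2.1
        _ = 6 * (M * N) := by ring
    have hycl : ∀ w ∈ S, ((Nat.lcm q1 q2 : ℕ) : ℤ) ∣ (y w : ℤ) - (y w0 : ℤ) := by
      intro w hw
      have h3 := hS w hw
      have h0' := hS w0 hw0
      have h4 : (q1 : ℤ) ∣ (y w : ℤ) - (y w0 : ℤ) := by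
        apply Qgy_cls ha1 (p := p1)
        · rw [hy1 w hw]; exact h3.2.2.2.2.1
        · rw [hy1 w0 hw0]; exact h0'.2.2.2.2.1
      have h5 : (q2 : ℤ) ∣ (y w : ℤ) - (y w0 : ℤ) := by
        apply Qgy_cls ha2 (p := p2)
        · rw [hy2 w hw]; exact h3.2.2.2.2.2.1
        · rw [hy2 w0 hw0]; exact h0'.2.2.2.2.2.1
      rw [Int.natCast_dvd] at h4 h5 ⊢
      exact Nat.lcm_dvd h4 h5
    set Y := (Icc 1 (6 * (M * N) / p1)).filter
      (fun x : ℕ => ((Nat.lcm q1 q2 : ℕ) : ℤ) ∣ (x : ℤ) - (y w0 : ℤ)) with hY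
    have hYc : Y.card ≤ 6 * (M * N) / p1 / Nat.lcm q1 q2 + 1 := by
      apply Qgy_cnt Y _ _ (y w0) hK
      intro x hx
      rw [hY, mem_filter, mem_Icc] at hx
      exact ⟨hx.2, hx.1.1, hx.1.2⟩
    have hmap : ∀ w ∈ S, y w ∈ Y := by
      intro w hw
      rw [hY, mem_filter, mem_Icc]
      exact ⟨hypos w hw, hycl w hw⟩
    have hcard : S.card = ∑ b ∈ Y, (S.filter (fun w => y w = b)).card :=
      Finset.card_eq_sum_card_fiberwise hmap
    have hfib : ∀ b ∈ Y, ((S.filter (fun w => y w = b)).card : ℝ) ≤ T := by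
      intro b hb
      have hb' : 1 ≤ b ∧ b ≤ 6 * (M * N) / p1 := by
        rw [hY, mem_filter, mem_Icc] at hb
        exact hb.1
      have h3 : (S.filter (fun w => y w = b)).card ≤ b.divisors.card := by
        apply Finset.card_le_card_of_injOn (fun w => w.1)
        · intro w hw
          have hw' := mem_filter.1 (mem_coe.1 hw)
          show w.1 ∈ (b.divisors : Set ℕ)
          rw [mem_coe, Nat.mem_divisors]
          refine ⟨?_, by omega⟩
          rw [← hw'.2]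
          exact dvd_mul_right _ _
        · intro w hw w' hw' hww
          have hw1 := mem_filter.1 (mem_coe.1 hw)
          have hw2 := mem_filter.1 (mem_coe.1 hw')
          have e1 : w.1 = w'.1 := hww
          have hpos : 0 < w.1 := by
            have := (hS w hw1.1).1
            omega
          have e2 : Nat.gcd w.2.1 w.2.2 = Nat.gcd w'.2.1 w'.2.2 := by
            have e3 : w.1 * Nat.gcd w.2.1 w.2.2 = w'.1 * Nat.gcd w'.2.1 w'.2.2 := by
              have := hw1.2.trans hw2.2.symm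
              exact this
            rw [← e1] at e3
            exact Nat.eq_of_mul_eq_mul_left hpos e3
          have e4 := (hS w hw1.1).2.2.2.2.2.2
          have e5 := (hS w' hw2.1).2.2.2.2.2.2
          have e6 : w.2.1 = w'.2.1 := by rw [e4.1, e5.1, e2]
          have e7 : w.2.2 = w'.2.2 := by rw [e4.2, e5.2, e2]
          exact Prod.ext e1 (Prod.ext e6 e7)
      have h4 : (b.divisors.card : ℝ) ≤ T := by
        apply hT3 b hb'.1
        have h5 : b ≤ 6 * (M * N) := hb'.2.trans (Nat.div_le_self _ _)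
        have : (b : ℝ) ≤ ((6 * (M * N) : ℕ) : ℝ) := by exact_mod_cast h5
        push_cast at this
        linarith
      have h5 : ((S.filter (fun w => y w = b)).card : ℝ) ≤ (b.divisors.card : ℝ) := by exact_mod_cast h3
      linarith
    have h6 : (S.card : ℝ) ≤ T * Y.card := by
      rw [hcard]
      push_cast
      calc ∑ b ∈ Y, ((S.filter (fun w => y w = b)).card : ℝ) ≤ ∑ b ∈ Y, T := Finset.sum_le_sum hfib
        _ = T * Y.card := by rw [sum_const, nsmul_eq_mul]; ring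
    have h7 : (Y.card : ℝ) ≤ 6 * ((M : ℝ) * N) / (p1 * (Nat.lcm q1 q2 : ℕ)) + 1 := by
      have h8 : (Y.card : ℝ) ≤ ((6 * (M * N) / p1 / Nat.lcm q1 q2 + 1 : ℕ) : ℝ) := by exact_mod_cast hYc
      rw [Nat.div_div_eq_div_mul] at h8
      have h9 : ((6 * (M * N) / (p1 * Nat.lcm q1 q2) : ℕ) : ℝ) ≤
          ((6 * (M * N) : ℕ) : ℝ) / ((p1 * Nat.lcm q1 q2 : ℕ) : ℝ) := Nat.cast_div_le
      push_cast at h8 h9
      linarith
    calc (S.card : ℝ) ≤ T * Y.card := h6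
      _ ≤ T * (6 * ((M : ℝ) * N) / (p1 * (Nat.lcm q1 q2 : ℕ)) + 1) := mul_le_mul_of_nonneg_left h7 hT0

/-- the geometric sums over the i ≤ L with 2^i ≤ P -/
private lemma Qgy_geo (L : ℕ) (P : ℝ) (hP : 0 ≤ P) :
    ∑ i ∈ (range L).filter (fun i => (2 : ℝ) ^ i ≤ P), (2 : ℝ) ^ i ≤ 2 * P ∧
    ∑ i ∈ (range L).filter (fun i => (2 : ℝ) ^ i ≤ P), (4 : ℝ) ^ i ≤ 2 * P ^ 2 ∧
    ∑ i ∈ (range L).filter (fun i => (2 : ℝ) ^ i ≤ P), 1 / (2 : ℝ) ^ i ≤ 2 := by
  have g2 : ∀ n : ℕ, ∑ i ∈ range n, (2 : ℝ) ^ i = 2 ^ n - 1 := by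
    intro n
    induction n with
    | zero => simp
    | succ n ih => rw [sum_range_succ, ih, pow_succ]; ring
  have g4 : ∀ n : ℕ, ∑ i ∈ range n, (4 : ℝ) ^ i = (4 ^ n - 1) / 3 := by
    intro n
    induction n with
    | zero => simp
    | succ n ih => rw [sum_range_succ, ih, pow_succ]; ring
  have gi : ∀ n : ℕ, ∑ i ∈ range n, 1 / (2 : ℝ) ^ i = 2 - 2 / 2 ^ n := by
    intro n
    induction n with
    | zero => norm_num
    | succ n ih =>
      rw [sum_range_succ, ih, pow_succ]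
      field_simp
      ring
  refine ⟨?_, ?_, ?_⟩
  · induction L with
    | zero => simp; linarith
    | succ n ih =>
      rw [range_add_one, filter_insert]
      split_ifs with h
      · have hall : (range n).filter (fun i => (2 : ℝ) ^ i ≤ P) ⊆ range n := filter_subset _ _
        rw [sum_insert (by simp)]
        have h1 : ∑ i ∈ (range n).filter (fun i => (2 : ℝ) ^ i ≤ P), (2 : ℝ) ^ i ≤ ∑ i ∈ range n, (2 : ℝ) ^ i :=
          sum_le_sum_of_subset_of_nonneg hall (fun i _ _ => by positivity)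
        rw [g2] at h1
        linarith
      · exact ih
  · induction L with
    | zero => simp; positivity
    | succ n ih =>
      rw [range_add_one, filter_insert]
      split_ifs with h
      · have hall : (range n).filter (fun i => (2 : ℝ) ^ i ≤ P) ⊆ range n := filter_subset _ _
        rw [sum_insert (by simp)]
        have h1 : ∑ i ∈ (range n).filter (fun i => (2 : ℝ) ^ i ≤ P), (4 : ℝ) ^ i ≤ ∑ i ∈ range n, (4 : ℝ) ^ i :=
          sum_le_sum_of_subset_of_nonneg hall (fun i _ _ => by positivity)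
        rw [g4] at h1
        have h2 : (4 : ℝ) ^ n ≤ P ^ 2 := by
          have h3 : (4 : ℝ) ^ n = ((2 : ℝ) ^ n) ^ 2 := by
            rw [← pow_mul, mul_comm, pow_mul]; norm_num
          rw [h3]
          exact pow_le_pow_left₀ (by positivity) h 2
        linarith
      · exact ih
  · have h1 : ∑ i ∈ (range L).filter (fun i => (2 : ℝ) ^ i ≤ P), 1 / (2 : ℝ) ^ i ≤ ∑ i ∈ range L, 1 / (2 : ℝ) ^ i :=
      sum_le_sum_of_subset_of_nonneg (filter_subset _ _) (fun i _ _ => by positivity)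
    rw [gi] at h1
    have h2 : (0 : ℝ) < 2 / 2 ^ L := by positivity
    linarith

private lemma Qgy_num (m q T P K L c2 c4 ci M2 : ℝ) (hm : 0 ≤ m) (hq : 0 < q) (hT : 1 ≤ T) (_hP : 0 ≤ P) (hK : 0 < K)
    (hL : L ≤ 2 * T) (hc2 : c2 ≤ 2 * P) (hc4 : c4 ≤ 2 * P ^ 2) (hci : ci ≤ 2) (hM2 : 0 ≤ M2) (hPm : m * P = 2 * M2) :
    T * (192 * 6 * m / (q * K) * c2 + 192 / q * c4 + 6 * m / K * ci + L) ≤
      5000 * T ^ 2 * (M2 / (q * K) + m / K + P ^ 2 / (4 * q) + 1) := by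
  have h1 : 192 * 6 * m / (q * K) * c2 ≤ 192 * 6 * m / (q * K) * (2 * P) :=
    mul_le_mul_of_nonneg_left hc2 (by positivity)
  have h2 : 192 / q * c4 ≤ 192 / q * (2 * P ^ 2) := mul_le_mul_of_nonneg_left hc4 (by positivity)
  have h3 : 6 * m / K * ci ≤ 6 * m / K * 2 := mul_le_mul_of_nonneg_left hci (by positivity)
  have e1 : 192 * 6 * m / (q * K) * (2 * P) = 4608 * (M2 / (q * K)) := by
    have : 192 * 6 * m / (q * K) * (2 * P) = 2304 * (m * P) / (q * K) := by ring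
    rw [this, hPm]
    ring
  have e2 : 192 / q * (2 * P ^ 2) = 1536 * (P ^ 2 / (4 * q)) := by ring
  have e3 : 6 * m / K * 2 = 12 * (m / K) := by ring
  have p1 : 0 ≤ M2 / (q * K) := by positivity
  have p2 : 0 ≤ P ^ 2 / (4 * q) := by positivity
  have p3 : 0 ≤ m / K := by positivity
  rw [e1] at h1
  rw [e2] at h2
  rw [e3] at h3
  generalize M2 / (q * K) = x1 at *
  generalize P ^ 2 / (4 * q) = x2 at *
  generalize m / K = x3 at *
  have hT0 : 0 ≤ T := by linarith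
  have hsum : 192 * 6 * m / (q * K) * c2 + 192 / q * c4 + 6 * m / K * ci + L ≤
      5000 * T * (x1 + x3 + x2 + 1) := by
    have k1 : x1 ≤ T * x1 := le_mul_of_one_le_left p1 hT
    have k2 : x2 ≤ T * x2 := le_mul_of_one_le_left p2 hT
    have k3 : x3 ≤ T * x3 := le_mul_of_one_le_left p3 hT
    nlinarith
  calc T * (192 * 6 * m / (q * K) * c2 + 192 / q * c4 + 6 * m / K * ci + L)
      ≤ T * (5000 * T * (x1 + x3 + x2 + 1)) := mul_le_mul_of_nonneg_left hsum hT0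
    _ = _ := by ring

theorem tQgy (h1 : QprStmt) : QgyStmt := by
  classical
  intro X T M N q1 q2 q0 t0 a1 a2 hT hM hN ht hq0 hq1 hq2 hd1 hd2 hX ha1 ha2
  have hT1 := hT.1
  have hT0 : 0 ≤ T := by linarith
  have hK : 0 < Nat.lcm q1 q2 := Nat.lcm_pos (by omega) (by omega)
  have hKR : (0 : ℝ) < (Nat.lcm q1 q2 : ℕ) := by exact_mod_cast hK
  have hq0R : (0 : ℝ) < q0 := by exact_mod_cast hq0
  have htR : (0 : ℝ) < t0 := by exact_mod_cast ht
  set S := (Icc (M / 2) (3 * M) ×ˢ ((Ioc N (2 * N)) ×ˢ (Ioc N (2 * N)))).filter (fun w => (q1 : ℤ) ∣ ((w.1 * w.2.1 : ℕ) : ℤ) - a1 ∧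
    (q2 : ℤ) ∣ ((w.1 * w.2.2 : ℕ) : ℤ) - a2 ∧ t0 < Nat.gcd w.2.1 w.2.2) with hS
  have hSm : ∀ w ∈ S, (M / 2 ≤ w.1 ∧ w.1 ≤ 3 * M) ∧ (N < w.2.1 ∧ w.2.1 ≤ 2 * N) ∧
      (N < w.2.2 ∧ w.2.2 ≤ 2 * N) ∧ (q1 : ℤ) ∣ ((w.1 * w.2.1 : ℕ) : ℤ) - a1 ∧
      (q2 : ℤ) ∣ ((w.1 * w.2.2 : ℕ) : ℤ) - a2 ∧ t0 < Nat.gcd w.2.1 w.2.2 := by
    intro w hw
    rw [hS, mem_filter, mem_product, mem_product, mem_Icc, mem_Ioc, mem_Ioc] at hw
    exact ⟨hw.1.1, hw.1.2.1, hw.1.2.2, hw.2.1, hw.2.2.1, hw.2.2.2⟩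
  -- the direction
  set pp : ℕ × ℕ × ℕ → ℕ × ℕ := fun w => (w.2.1 / Nat.gcd w.2.1 w.2.2, w.2.2 / Nat.gcd w.2.1 w.2.2) with hpp
  set L := Nat.log 2 (2 * N) + 1 with hL
  set P0 : ℝ := 2 * N / t0 with hP0
  set I := (range L).filter (fun i => (2 : ℝ) ^ i ≤ P0) with hI
  set D : ℕ → Finset (ℕ × ℕ) := fun i => ((Icc 1 (2 ^ (i + 2))) ×ˢ (Icc 1 (2 ^ (i + 2)))).filter
    (fun w : ℕ × ℕ => Nat.Coprime w.1 w.2 ∧ (q0 : ℤ) ∣ (w.1 : ℤ) * a2 - (w.2 : ℤ) * a1) with hD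
  have hga1 : Int.gcd a1 q0 = 1 := by
    have h2 : Int.gcd a1 (q0 : ℤ) ∣ Int.gcd a1 (q1 : ℤ) := Int.gcd_dvd_gcd_of_dvd_right _ (Int.natCast_dvd_natCast.2 hd1)
    rw [ha1] at h2
    exact Nat.dvd_one.1 h2
  have hga2 : Int.gcd a2 q0 = 1 := by
    have h2 : Int.gcd a2 (q0 : ℤ) ∣ Int.gcd a2 (q2 : ℤ) := Int.gcd_dvd_gcd_of_dvd_right _ (Int.natCast_dvd_natCast.2 hd2)
    rw [ha2] at h2
    exact Nat.dvd_one.1 h2
  -- properties of the direction
  have hw : ∀ w ∈ S, w.2.1 = Nat.gcd w.2.1 w.2.2 * (pp w).1 ∧ w.2.2 = Nat.gcd w.2.1 w.2.2 * (pp w).2 ∧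
      1 ≤ (pp w).1 ∧ 1 ≤ (pp w).2 ∧ (pp w).1 * t0 ≤ 2 * N ∧ (pp w).2 ≤ 2 * (pp w).1 ∧ Nat.Coprime (pp w).1 (pp w).2 ∧
      (q0 : ℤ) ∣ ((pp w).1 : ℤ) * a2 - ((pp w).2 : ℤ) * a1 := by
    intro w hw
    have h2 := hSm w hw
    have hg : 0 < Nat.gcd w.2.1 w.2.2 := Nat.gcd_pos_of_pos_left _ (by omega)
    have e1 : w.2.1 = Nat.gcd w.2.1 w.2.2 * (pp w).1 := (Nat.mul_div_cancel' (Nat.gcd_dvd_left _ _)).symm
    have e2 : w.2.2 = Nat.gcd w.2.1 w.2.2 * (pp w).2 := (Nat.mul_div_cancel' (Nat.gcd_dvd_right _ _)).symm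
    have hp1 : 1 ≤ (pp w).1 := by
      rcases Nat.eq_zero_or_pos (pp w).1 with h | h
      · rw [h, mul_zero] at e1; omega
      · exact h
    have hp2 : 1 ≤ (pp w).2 := by
      rcases Nat.eq_zero_or_pos (pp w).2 with h | h
      · rw [h, mul_zero] at e2; omega
      · exact h
    have hcop : Nat.Coprime (pp w).1 (pp w).2 := Nat.coprime_div_gcd_div_gcd hg
    refine ⟨e1, e2, hp1, hp2, ?_, ?_, hcop, ?_⟩
    · calc (pp w).1 * t0 ≤ (pp w).1 * Nat.gcd w.2.1 w.2.2 := Nat.mul_le_mul_left _ h2.2.2.2.2.2.le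
        _ = w.2.1 := by rw [mul_comm]; exact e1.symm
        _ ≤ 2 * N := h2.2.1.2
    · have h3 : Nat.gcd w.2.1 w.2.2 * (pp w).2 ≤ Nat.gcd w.2.1 w.2.2 * (2 * (pp w).1) := by
        calc Nat.gcd w.2.1 w.2.2 * (pp w).2 = w.2.2 := e2.symm
          _ ≤ 2 * w.2.1 := by omega
          _ = Nat.gcd w.2.1 w.2.2 * (2 * (pp w).1) := by
            calc 2 * w.2.1 = 2 * (Nat.gcd w.2.1 w.2.2 * (pp w).1) := by rw [← e1]
              _ = _ := by ring
      exact Nat.le_of_mul_le_mul_left h3 hg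
    · have k1 : (q0 : ℤ) ∣ ((w.1 * w.2.1 : ℕ) : ℤ) - a1 := (Int.natCast_dvd_natCast.2 hd1).trans h2.2.2.2.1
      have k2 : (q0 : ℤ) ∣ ((w.1 * w.2.2 : ℕ) : ℤ) - a2 := (Int.natCast_dvd_natCast.2 hd2).trans h2.2.2.2.2.1
      have hc : IsCoprime (q0 : ℤ) (((w.1 * Nat.gcd w.2.1 w.2.2 : ℕ) : ℤ)) := by
        obtain ⟨u, v, huv⟩ := Int.isCoprime_iff_gcd_eq_one.2 hga1
        obtain ⟨k, hk⟩ := k1
        have e3 : ((w.1 * w.2.1 : ℕ) : ℤ) = ((w.1 * Nat.gcd w.2.1 w.2.2 : ℕ) : ℤ) * ((pp w).1 : ℤ) := by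
          have : w.1 * w.2.1 = w.1 * Nat.gcd w.2.1 w.2.2 * (pp w).1 := by
            calc w.1 * w.2.1 = w.1 * (Nat.gcd w.2.1 w.2.2 * (pp w).1) := by rw [← e1]
              _ = _ := by ring
          exact_mod_cast this
        rw [e3] at hk
        exact ⟨v - u * k, u * ((pp w).1 : ℤ), by linear_combination huv + u * hk⟩
      refine hc.dvd_of_dvd_mul_left ?_
      have e3 : ((w.1 * w.2.1 : ℕ) : ℤ) = ((w.1 * Nat.gcd w.2.1 w.2.2 : ℕ) : ℤ) * ((pp w).1 : ℤ) := by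
        have : w.1 * w.2.1 = w.1 * Nat.gcd w.2.1 w.2.2 * (pp w).1 := by
          calc w.1 * w.2.1 = w.1 * (Nat.gcd w.2.1 w.2.2 * (pp w).1) := by rw [← e1]
            _ = _ := by ring
        exact_mod_cast this
      have e4 : ((w.1 * w.2.2 : ℕ) : ℤ) = ((w.1 * Nat.gcd w.2.1 w.2.2 : ℕ) : ℤ) * ((pp w).2 : ℤ) := by
        have : w.1 * w.2.2 = w.1 * Nat.gcd w.2.1 w.2.2 * (pp w).2 := by
          calc w.1 * w.2.2 = w.1 * (Nat.gcd w.2.1 w.2.2 * (pp w).2) := by rw [← e2]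
            _ = _ := by ring
        exact_mod_cast this
      obtain ⟨k, hk⟩ := k1
      obtain ⟨j, hj⟩ := k2
      rw [e3] at hk
      rw [e4] at hj
      refine ⟨a2 * k - a1 * j, ?_⟩
      linear_combination a2 * hk - a1 * hj
  -- the sum over the directions
  have hcov : (S.card : ℝ) ≤ ∑ i ∈ I, ∑ p ∈ (D i).filter (fun p => 2 ^ i ≤ p.1), ((S.filter (fun w => pp w = p)).card : ℝ) := by
    have h2 : S ⊆ I.biUnion (fun i => ((D i).filter (fun p => 2 ^ i ≤ p.1)).biUnion (fun p => S.filter (fun w => pp w = p))) := by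
      intro w hwS
      obtain ⟨e1, e2, hp1, hp2, hpt, hp21, hcop, hdv⟩ := hw w hwS
      have hl1 : 2 ^ Nat.log 2 (pp w).1 ≤ (pp w).1 := Nat.pow_log_le_self 2 (by omega)
      have hl2 : (pp w).1 < 2 ^ (Nat.log 2 (pp w).1 + 1) := Nat.lt_pow_succ_log_self (by norm_num) _
      have hle : (pp w).1 ≤ 2 * N := by
        calc (pp w).1 = (pp w).1 * 1 := (mul_one _).symm
          _ ≤ (pp w).1 * t0 := Nat.mul_le_mul_left _ ht
          _ ≤ 2 * N := hpt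
      rw [mem_biUnion]
      refine ⟨Nat.log 2 (pp w).1, ?_, ?_⟩
      · rw [hI, mem_filter, mem_range]
        refine ⟨?_, ?_⟩
        · have := Nat.log_mono_right (b := 2) hle
          omega
        · rw [hP0, le_div_iff₀ htR]
          have h3 : 2 ^ Nat.log 2 (pp w).1 * t0 ≤ 2 * N := (Nat.mul_le_mul_right _ hl1).trans hpt
          exact_mod_cast h3
      · rw [mem_biUnion]
        refine ⟨pp w, ?_, ?_⟩
        · have e5 : 2 ^ (Nat.log 2 (pp w).1 + 2) = 2 * 2 ^ (Nat.log 2 (pp w).1 + 1) := by ring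
          rw [mem_filter, hD, mem_filter, mem_product, mem_Icc, mem_Icc]
          refine ⟨⟨⟨⟨hp1, by omega⟩, ⟨hp2, by omega⟩⟩, hcop, hdv⟩, hl1⟩
        · rw [mem_filter]
          exact ⟨hwS, rfl⟩
    have h3 := card_le_card h2
    have h4 : (I.biUnion (fun i => ((D i).filter (fun p => 2 ^ i ≤ p.1)).biUnion (fun p => S.filter (fun w => pp w = p)))).card ≤
        ∑ i ∈ I, ∑ p ∈ (D i).filter (fun p => 2 ^ i ≤ p.1), (S.filter (fun w => pp w = p)).card :=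
      card_biUnion_le.trans (sum_le_sum fun i _ => card_biUnion_le)
    exact_mod_cast h3.trans h4
  have hfib : ∀ i ∈ I, ∑ p ∈ (D i).filter (fun p => 2 ^ i ≤ p.1), ((S.filter (fun w => pp w = p)).card : ℝ) ≤
      T * (192 * 6 * ((M : ℝ) * N) / (q0 * (Nat.lcm q1 q2 : ℕ)) * 2 ^ i + 192 / q0 * 4 ^ i +
        6 * ((M : ℝ) * N) / (Nat.lcm q1 q2 : ℕ) * (1 / 2 ^ i) + 1) := by
    intro i _
    have h2 : ∀ p ∈ (D i).filter (fun p => 2 ^ i ≤ p.1), ((S.filter (fun w => pp w = p)).card : ℝ) ≤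
        T * (6 * ((M : ℝ) * N) / (2 ^ i * (Nat.lcm q1 q2 : ℕ)) + 1) := by
      intro p hp
      rw [mem_filter] at hp
      have hp1 : 1 ≤ p.1 := le_trans (Nat.one_le_two_pow) hp.2
      refine (Qgy_fix X T M N q1 q2 p.1 p.2 a1 a2 hT hq1 hq2 hX ha1 ha2 hp1 _ ?_).trans ?_
      · intro w hw'
        rw [mem_filter] at hw'
        have h3 := hSm w hw'.1
        have h4 := hw w hw'.1
        rw [hw'.2] at h4
        exact ⟨by omega, h3.1.2, by omega, h3.2.1.2, h3.2.2.2.1, h3.2.2.2.2.1, h4.1, h4.2.1⟩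
      · refine mul_le_mul_of_nonneg_left (add_le_add ?_ le_rfl) hT0
        have h5 : ((2 : ℝ) ^ i) ≤ p.1 := by exact_mod_cast hp.2
        exact div_le_div_of_nonneg_left (by positivity) (by positivity) (mul_le_mul_of_nonneg_right h5 hKR.le)
    have h3 : (((D i).filter (fun p => 2 ^ i ≤ p.1)).card : ℝ) ≤ 192 * 4 ^ i / q0 + 1 := by
      have h4 : (((D i).filter (fun p => 2 ^ i ≤ p.1)).card : ℝ) ≤ ((D i).card : ℝ) := by
        exact_mod_cast card_le_card (filter_subset _ _)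
      have h5 := h1 q0 (2 ^ (i + 2)) a1 a2 hq0 Nat.one_le_two_pow hga1 hga2
      have e5 : 12 * (((2 ^ (i + 2) : ℕ) : ℝ)) ^ 2 / q0 = 192 * 4 ^ i / q0 := by
        have e6 : (((2 ^ (i + 2) : ℕ) : ℝ)) ^ 2 = 16 * 4 ^ i := by
          push_cast
          rw [← pow_mul, show (4 : ℝ) = 2 ^ 2 by norm_num, ← pow_mul, show (16 : ℝ) = 2 ^ 4 by norm_num, ← pow_add]
          congr 1
          ring
        rw [e6]
        ring
      rw [e5] at h5
      exact h4.trans h5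
    have h6 : (0 : ℝ) ≤ T * (6 * ((M : ℝ) * N) / (2 ^ i * (Nat.lcm q1 q2 : ℕ)) + 1) := by positivity
    calc ∑ p ∈ (D i).filter (fun p => 2 ^ i ≤ p.1), ((S.filter (fun w => pp w = p)).card : ℝ)
        ≤ ∑ p ∈ (D i).filter (fun p => 2 ^ i ≤ p.1), T * (6 * ((M : ℝ) * N) / (2 ^ i * (Nat.lcm q1 q2 : ℕ)) + 1) :=
          sum_le_sum h2
      _ = (((D i).filter (fun p => 2 ^ i ≤ p.1)).card : ℝ) * (T * (6 * ((M : ℝ) * N) / (2 ^ i * (Nat.lcm q1 q2 : ℕ)) + 1)) := by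
          rw [sum_const, nsmul_eq_mul]
      _ ≤ (192 * 4 ^ i / q0 + 1) * (T * (6 * ((M : ℝ) * N) / (2 ^ i * (Nat.lcm q1 q2 : ℕ)) + 1)) :=
          mul_le_mul_of_nonneg_right h3 h6
      _ = _ := by
          have e7 : (4 : ℝ) ^ i = 2 ^ i * 2 ^ i := by
            rw [← mul_pow]; norm_num
          rw [e7]
          have h2i : (2 : ℝ) ^ i ≠ 0 := by positivity
          field_simp
          ring
  have hgeo := Qgy_geo L P0 (by rw [hP0]; positivity)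
  have hI' : (I.card : ℝ) ≤ 2 * T := by
    have h2 : I.card ≤ L := by
      have := card_le_card (filter_subset (fun i => (2 : ℝ) ^ i ≤ P0) (range L))
      rwa [card_range] at this
    have h3 : ((Nat.log 2 (2 * N) : ℕ) : ℝ) * Real.log 2 ≤ Real.log (2 * N) := by
      have h4 : 2 ^ Nat.log 2 (2 * N) ≤ 2 * N := Nat.pow_log_le_self 2 (by omega)
      have h5 : ((2 : ℝ) ^ Nat.log 2 (2 * N)) ≤ 2 * N := by exact_mod_cast h4
      have h6 := Real.log_le_log (by positivity) h5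
      rwa [Real.log_pow] at h6
    have h7 : Real.log (2 * N) ≤ T - 1 := by
      have h8 : (2 * N : ℝ) ≤ X := by
        have hN' : (1 : ℝ) ≤ N := by exact_mod_cast hN
        have hM' : (8 : ℝ) ≤ M := by exact_mod_cast hM
        nlinarith
      have h9 := Real.log_le_log (by positivity) h8
      have := hT.2.1
      linarith
    have h10 : (1 / 2 : ℝ) ≤ Real.log 2 := by
      have := Real.log_two_gt_d9
      linarith
    have h11 : ((Nat.log 2 (2 * N) : ℕ) : ℝ) ≤ 2 * (T - 1) := by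
      have h12 : (0 : ℝ) ≤ ((Nat.log 2 (2 * N) : ℕ) : ℝ) := by positivity
      nlinarith
    have h13 : (I.card : ℝ) ≤ (L : ℝ) := by exact_mod_cast h2
    rw [hL] at h13
    push_cast at h13
    linarith
  have hnum := Qgy_num ((M : ℝ) * N) q0 T P0 (Nat.lcm q1 q2 : ℕ) I.card (∑ i ∈ I, (2 : ℝ) ^ i) (∑ i ∈ I, (4 : ℝ) ^ i)
    (∑ i ∈ I, 1 / (2 : ℝ) ^ i) ((M : ℝ) * N ^ 2 / t0) (by positivity) hq0R hT1 (by rw [hP0]; positivity) hKR hI'
    hgeo.1 hgeo.2.1 hgeo.2.2 (by positivity) (by rw [hP0]; ring)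
  calc (S.card : ℝ) ≤ ∑ i ∈ I, ∑ p ∈ (D i).filter (fun p => 2 ^ i ≤ p.1), ((S.filter (fun w => pp w = p)).card : ℝ) := hcov
    _ ≤ ∑ i ∈ I, T * (192 * 6 * ((M : ℝ) * N) / (q0 * (Nat.lcm q1 q2 : ℕ)) * 2 ^ i + 192 / q0 * 4 ^ i +
        6 * ((M : ℝ) * N) / (Nat.lcm q1 q2 : ℕ) * (1 / 2 ^ i) + 1) := sum_le_sum hfib
    _ = T * (192 * 6 * ((M : ℝ) * N) / (q0 * (Nat.lcm q1 q2 : ℕ)) * (∑ i ∈ I, (2 : ℝ) ^ i) + 192 / q0 * (∑ i ∈ I, (4 : ℝ) ^ i) +
        6 * ((M : ℝ) * N) / (Nat.lcm q1 q2 : ℕ) * (∑ i ∈ I, 1 / (2 : ℝ) ^ i) + I.card) := by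
        rw [← mul_sum, sum_add_distrib, sum_add_distrib, sum_add_distrib, ← mul_sum, ← mul_sum, ← mul_sum, sum_const,
          nsmul_eq_mul, mul_one]
    _ ≤ _ := hnum
    _ = _ := by
        rw [hP0]
        have : ((M : ℝ) * N ^ 2 / t0) / (q0 * (Nat.lcm q1 q2 : ℕ)) = (M : ℝ) * (N : ℝ) ^ 2 / (t0 * q0 * (Nat.lcm q1 q2 : ℕ)) := by
          rw [div_div]
          congr 1
          ring
        rw [this]
        have h2 : (2 * (N : ℝ) / t0) ^ 2 / (4 * q0) = (N : ℝ) ^ 2 / ((t0 : ℝ) ^ 2 * q0) := by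
          field_simp
          ring
        rw [h2]

end Pool.Agent.Lib.SL
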