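import Pool.Agent.Lib.SLH.SpecD

/-!
MP_00e23e_nt, project SL, P2, chapter D', module Qpr: primitive lattice points (copy of Lib/SL/Lnd.lean, changed by helper3).
-/

set_option autoImplicit false

namespace Pool.Agent.Lib.SL

open Finset Pool.Agent.Lib.EH3 Pool.Agent.Lib.TB Pool.Agent.Results.MP_00e23e_nt Pool.Agent.Lib.MI

/-- two vectors of the lattice have determinant divisible by q -/
private lemma Qpr_det {q : ℕ} {a1 a2 : ℤ} (h1 : Int.gcd a1 q = 1) {x y u v : ℤ} (hw : (q : ℤ) ∣ x * a2 - y * a1)
    (hw' : (q : ℤ) ∣ u * a2 - v * a1) : (q : ℤ) ∣ x * v - y * u := by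
  have h2 : (q : ℤ) ∣ a1 * (x * v - y * u) := by
    have h3 : a1 * (x * v - y * u) = u * (x * a2 - y * a1) - x * (u * a2 - v * a1) := by ring
    rw [h3]
    exact dvd_sub (hw.mul_left _) (hw'.mul_left _)
  have h3 : IsCoprime (q : ℤ) a1 := (Int.isCoprime_iff_gcd_eq_one.2 h1).symm
  exact h3.dvd_of_dvd_mul_left h2

/-- pairwise congruent integers in a short interval -/
private lemma Qpr_cnt (s : Finset ℤ) (m L : ℕ) (hm : 1 ≤ m)
    (h : ∀ x ∈ s, ∀ y ∈ s, (m : ℤ) ∣ x - y ∧ x - y ≤ (L : ℤ)) : s.card ≤ L / m + 1 := by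
  rcases s.eq_empty_or_nonempty with h0 | h0
  · simp [h0]
  · have hm' : (0 : ℤ) < m := by exact_mod_cast hm
    have key : ∀ x ∈ s, ∃ k : ℕ, x - s.min' h0 = (m : ℤ) * k ∧ k < L / m + 1 := by
      intro x hx
      have h1 := h x hx _ (s.min'_mem h0)
      have h2 : s.min' h0 ≤ x := s.min'_le x hx
      obtain ⟨k, hk⟩ := h1.1
      have hk0 : 0 ≤ k := by
        by_contra hneg
        push Not at hneg
        have : (m : ℤ) * k < 0 := mul_neg_of_pos_of_neg hm' hneg
        omega
      obtain ⟨j, rfl⟩ := Int.eq_ofNat_of_zero_le hk0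
      refine ⟨j, hk, ?_⟩
      have h3 : (m : ℤ) * j ≤ L := by rw [← hk]; exact h1.2
      have h4 : m * j ≤ L := by exact_mod_cast h3
      have h5 : j ≤ L / m := by
        rw [Nat.le_div_iff_mul_le (by omega)]
        rw [mul_comm]; exact h4
      omega
    have h6 : s.card ≤ (range (L / m + 1)).card := by
      apply Finset.card_le_card_of_injOn (fun x => ((x - s.min' h0) / m).toNat)
      · intro x hx
        obtain ⟨k, hk, hk'⟩ := key x hx
        simp only [hk, coe_range, Set.mem_Iio]
        rw [Int.mul_ediv_cancel_left _ (ne_of_gt hm')]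
        simpa using hk'
      · intro x hx y hy hxy
        obtain ⟨k, hk, _⟩ := key x hx
        obtain ⟨j, hj, _⟩ := key y hy
        simp only [hk, hj] at hxy
        rw [Int.mul_ediv_cancel_left _ (ne_of_gt hm'), Int.mul_ediv_cancel_left _ (ne_of_gt hm')] at hxy
        have hkj : k = j := by simpa using hxy
        subst hkj
        linarith
    simpa using h6

private lemma Qpr_fib (s : Finset (ℕ × ℕ)) (f : ℕ × ℕ → ℕ) (N m : ℕ) (hm : 1 ≤ m)
    (hinj : ∀ w ∈ s, ∀ w' ∈ s, f w = f w' → w = w') (hc : ∀ w ∈ s, ∀ w' ∈ s, (m : ℤ) ∣ (f w : ℤ) - f w')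
    (hb : ∀ w ∈ s, 1 ≤ f w ∧ f w ≤ N) : s.card ≤ N / m + 1 := by
  have h1 : (s.image (fun w => (f w : ℤ))).card = s.card := by
    apply Finset.card_image_of_injOn
    intro w hw w' hw' hww
    have h2 : (f w : ℤ) = f w' := hww
    exact hinj w hw w' hw' (by exact_mod_cast h2)
  rw [← h1]
  apply Qpr_cnt _ m N hm
  intro x hx y hy
  simp only [mem_image] at hx hy
  obtain ⟨w, hw, rfl⟩ := hx
  obtain ⟨w', hw', rfl⟩ := hy
  refine ⟨hc w hw w' hw', ?_⟩
  have := hb w hw
  have := hb w' hw'
  omega

open Classical in
theorem tQpr (h1 : LmvStmt) : QprStmt := by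
  intro q N a1 a2 hq hN ha1 ha2
  set La : Finset (ℕ × ℕ) := ((Icc 1 N) ×ˢ (Icc 1 N)).filter (fun w : ℕ × ℕ => Nat.Coprime w.1 w.2 ∧
    (q : ℤ) ∣ (w.1 : ℤ) * a2 - (w.2 : ℤ) * a1) with hLadef
  have hLa : ∀ w ∈ La, (1 ≤ w.1 ∧ w.1 ≤ N) ∧ (1 ≤ w.2 ∧ w.2 ≤ N) ∧ Nat.Coprime w.1 w.2 ∧
      (q : ℤ) ∣ (w.1 : ℤ) * a2 - (w.2 : ℤ) * a1 := by
    intro w hw
    rw [hLadef, mem_filter, mem_product, mem_Icc, mem_Icc] at hw
    exact ⟨hw.1.1, hw.1.2, hw.2.1, hw.2.2⟩
  have hq0 : (0 : ℝ) < q := by exact_mod_cast hq
  by_cases hpar : ∀ u ∈ La, ∀ v ∈ La, u.1 * v.2 = u.2 * v.1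
  · have hc1 : La.card ≤ 1 := by
      rw [Finset.card_le_one]
      intro u hu v hv
      have hu' := hLa u hu
      have hv' := hLa v hv
      have h := hpar u hu v hv
      have d1 : u.1 ∣ v.1 := by
        have h2 : u.1 ∣ u.2 * v.1 := ⟨v.2, h.symm⟩
        exact hu'.2.2.1.dvd_of_dvd_mul_left h2
      have d2 : v.1 ∣ u.1 := by
        have h2 : v.1 ∣ u.1 * v.2 := ⟨u.2, by rw [h]; ring⟩
        exact hv'.2.2.1.dvd_of_dvd_mul_right h2
      have e1 : u.1 = v.1 := Nat.dvd_antisymm d1 d2
      have e2 : u.2 = v.2 := by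
        rw [e1, mul_comm u.2] at h
        exact (Nat.eq_of_mul_eq_mul_left (by omega) h).symm
      exact Prod.ext e1 e2
    have h2 : (La.card : ℝ) ≤ 1 := by exact_mod_cast hc1
    have h3 : (0 : ℝ) ≤ 12 * (N : ℝ) ^ 2 / q := by positivity
    linarith
  · push Not at hpar
    obtain ⟨u, hu, v, hv, huv⟩ := hpar
    have hmain : q * La.card ≤ 12 * N ^ 2 := by
      have hu' := hLa u hu
      obtain ⟨e, he1, he2, he3, he4⟩ := h1 q a1 a2 N ((u.1 : ℤ), (u.2 : ℤ))
        (by
          intro h0
          have h00 := congrArg Prod.fst h0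
          simp only [Prod.fst_zero] at h00
          have : u.1 = 0 := by exact_mod_cast h00
          omega)
        (by
          simp only [Nat.abs_cast]
          exact_mod_cast hu'.1.2)
        (by
          simp only [Nat.abs_cast]
          exact_mod_cast hu'.2.1.2)
        hu'.2.2.2
      obtain ⟨m, hm⟩ : ∃ m : ℕ, (m : ℤ) = max |e.1| |e.2| := by
        refine ⟨(max |e.1| |e.2|).toNat, ?_⟩
        rw [Int.toNat_of_nonneg]
        exact le_trans (abs_nonneg _) (le_max_left _ _)
      have hm1 : 1 ≤ m := by
        rw [← hm] at he1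
        exact_mod_cast he1
      have hm2 : m ≤ N := by
        rw [← hm] at he2
        exact_mod_cast he2
      have hea : |e.1| ≤ m := by rw [hm]; exact le_max_left _ _
      have heb : |e.2| ≤ m := by rw [hm]; exact le_max_right _ _
      set D : ℕ × ℕ → ℤ := fun w => e.1 * w.2 - e.2 * w.1 with hD
      have hDq : ∀ w ∈ La, (q : ℤ) ∣ D w := by
        intro w hw
        exact Qpr_det ha1 he3 (hLa w hw).2.2.2
      have hDb : ∀ w ∈ La, |D w| ≤ 2 * m * N := by
        intro w hw
        have h2 := hLa w hw
        have h3 : |e.1 * (w.2 : ℤ)| ≤ m * N := by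
          rw [abs_mul]
          apply mul_le_mul hea _ (abs_nonneg _) (by positivity)
          rw [Nat.abs_cast]
          exact_mod_cast h2.2.1.2
        have h4 : |e.2 * (w.1 : ℤ)| ≤ m * N := by
          rw [abs_mul]
          apply mul_le_mul heb _ (abs_nonneg _) (by positivity)
          rw [Nat.abs_cast]
          exact_mod_cast h2.1.2
        have h5 : |D w| ≤ |e.1 * (w.2 : ℤ)| + |e.2 * (w.1 : ℤ)| := abs_sub _ _
        calc |D w| ≤ _ := h5
          _ ≤ m * N + m * N := add_le_add h3 h4
          _ = 2 * m * N := by ring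
      -- the number of values
      have hcI : (La.image D).card ≤ (4 * m * N) / q + 1 := by
        apply Qpr_cnt _ q _ hq
        intro x hx y hy
        simp only [mem_image] at hx hy
        obtain ⟨w, hw, rfl⟩ := hx
        obtain ⟨w', hw', rfl⟩ := hy
        refine ⟨dvd_sub (hDq w hw) (hDq w' hw'), ?_⟩
        have h2 := abs_le.1 (hDb w hw)
        have h3 := abs_le.1 (hDb w' hw')
        push_cast
        linarith
      have hq4 : q ≤ 2 * m * N := by
        have hne : D u ≠ 0 ∨ D v ≠ 0 := by
          by_contra hc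
          push Not at hc
          obtain ⟨t, ht1, ht2⟩ := he4 ((u.1 : ℤ), (u.2 : ℤ)) hu'.2.2.2 (by
            have := hc.1
            simp only [hD] at this
            simp only
            linarith)
          obtain ⟨t', ht1', ht2'⟩ := he4 ((v.1 : ℤ), (v.2 : ℤ)) (hLa v hv).2.2.2 (by
            have := hc.2
            simp only [hD] at this
            simp only
            linarith)
          simp only at ht1 ht2 ht1' ht2'
          apply huv
          have : ((u.1 * v.2 : ℕ) : ℤ) = ((u.2 * v.1 : ℕ) : ℤ) := by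
            push_cast
            rw [ht1, ht2, ht1', ht2']
            ring
          exact_mod_cast this
        have hgen : ∀ w ∈ La, D w ≠ 0 → q ≤ 2 * m * N := by
          intro w hw hw0
          have h2 : (q : ℤ) ∣ |D w| := (dvd_abs _ _).2 (hDq w hw)
          have h3 : (q : ℤ) ≤ |D w| := Int.le_of_dvd (abs_pos.2 hw0) h2
          have h4 := hDb w hw
          have h5 : (q : ℤ) ≤ 2 * m * N := le_trans h3 h4
          exact_mod_cast h5
        rcases hne with h | h
        · exact hgen u hu h
        · exact hgen v hv h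
      -- the fibres
      have hfib : ∀ d ∈ La.image D, (La.filter (fun w => D w = d)).card ≤ N / m + 1 := by
        intro d hd
        have hdiff : ∀ w ∈ La.filter (fun w => D w = d), ∀ w' ∈ La.filter (fun w => D w = d),
            ∃ t : ℤ, (w.1 : ℤ) - w'.1 = t * e.1 ∧ (w.2 : ℤ) - w'.2 = t * e.2 := by
          intro w hw w' hw'
          rw [mem_filter] at hw hw'
          apply he4 ((w.1 : ℤ) - w'.1, (w.2 : ℤ) - w'.2)
          · have h2 := (hLa w hw.1).2.2.2
            have h3 := (hLa w' hw'.1).2.2.2
            have h4 : ((w.1 : ℤ) - w'.1) * a2 - ((w.2 : ℤ) - w'.2) * a1 =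
                ((w.1 : ℤ) * a2 - (w.2 : ℤ) * a1) - ((w'.1 : ℤ) * a2 - (w'.2 : ℤ) * a1) := by ring
            simp only
            rw [h4]
            exact dvd_sub h2 h3
          · have h2 := hw.2
            have h3 := hw'.2
            simp only [hD] at h2 h3
            simp only
            linarith
        have hcase : (m : ℤ) = |e.1| ∨ (m : ℤ) = |e.2| := by
          rw [hm]
          exact max_choice |e.1| |e.2|
        rcases hcase with hc | hc
        · apply Qpr_fib _ (fun w => w.1) N m hm1
          · intro w hw w' hw' hww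
            obtain ⟨t, ht1, ht2⟩ := hdiff w hw w' hw'
            have hww' : w.1 = w'.1 := hww
            have he : e.1 ≠ 0 := by
              intro h0
              rw [h0, abs_zero] at hc
              have : m = 0 := by exact_mod_cast hc
              omega
            have ht : t = 0 := by
              rw [hww', sub_self] at ht1
              rcases mul_eq_zero.1 ht1.symm with h | h
              · exact h
              · exact absurd h he
            rw [ht, zero_mul] at ht2
            have h2 : w.2 = w'.2 := by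
              have : (w.2 : ℤ) = w'.2 := by linarith
              exact_mod_cast this
            exact Prod.ext hww' h2
          · intro w hw w' hw'
            obtain ⟨t, ht1, ht2⟩ := hdiff w hw w' hw'
            show (m : ℤ) ∣ (w.1 : ℤ) - w'.1
            rw [ht1, hc]
            exact Dvd.dvd.mul_left ((abs_dvd _ _).2 dvd_rfl) t
          · intro w hw
            exact (hLa w (mem_filter.1 hw).1).1
        · apply Qpr_fib _ (fun w => w.2) N m hm1
          · intro w hw w' hw' hww
            obtain ⟨t, ht1, ht2⟩ := hdiff w hw w' hw'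
            have hww' : w.2 = w'.2 := hww
            have he : e.2 ≠ 0 := by
              intro h0
              rw [h0, abs_zero] at hc
              have : m = 0 := by exact_mod_cast hc
              omega
            have ht : t = 0 := by
              rw [hww', sub_self] at ht2
              rcases mul_eq_zero.1 ht2.symm with h | h
              · exact h
              · exact absurd h he
            rw [ht, zero_mul] at ht1
            have h2 : w.1 = w'.1 := by
              have : (w.1 : ℤ) = w'.1 := by linarith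
              exact_mod_cast this
            exact Prod.ext h2 hww'
          · intro w hw w' hw'
            obtain ⟨t, ht1, ht2⟩ := hdiff w hw w' hw'
            show (m : ℤ) ∣ (w.2 : ℤ) - w'.2
            rw [ht2, hc]
            exact Dvd.dvd.mul_left ((abs_dvd _ _).2 dvd_rfl) t
          · intro w hw
            exact (hLa w (mem_filter.1 hw).1).2.1
      have hcard : La.card ≤ (N / m + 1) * (La.image D).card :=
        Finset.card_le_mul_card_image _ _ hfib
      -- arithmetic
      have h5 : m * (N / m + 1) ≤ 2 * N := by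
        have : m * (N / m) ≤ N := Nat.mul_div_le N m
        calc m * (N / m + 1) = m * (N / m) + m := by ring
          _ ≤ N + N := by omega
          _ = 2 * N := by ring
      have h6 : q * (La.image D).card ≤ 6 * m * N := by
        have h7 : q * (4 * m * N / q) ≤ 4 * m * N := Nat.mul_div_le _ _
        calc q * (La.image D).card ≤ q * ((4 * m * N) / q + 1) := Nat.mul_le_mul_left _ hcI
          _ = q * (4 * m * N / q) + q := by ring
          _ ≤ 4 * m * N + 2 * m * N := Nat.add_le_add h7 hq4
          _ = 6 * m * N := by ring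
      have h7 : m * (q * La.card) ≤ m * (12 * N ^ 2) := by
        calc m * (q * La.card) ≤ m * (q * ((N / m + 1) * (La.image D).card)) :=
              Nat.mul_le_mul_left _ (Nat.mul_le_mul_left _ hcard)
          _ = (m * (N / m + 1)) * (q * (La.image D).card) := by ring
          _ ≤ (2 * N) * (6 * m * N) := Nat.mul_le_mul h5 h6
          _ = m * (12 * N ^ 2) := by ring
      exact Nat.le_of_mul_le_mul_left h7 (by omega)
    have h2 : (q : ℝ) * (La.card : ℝ) ≤ 12 * (N : ℝ) ^ 2 := by exact_mod_cast hmain
    have h3 : (La.card : ℝ) ≤ 12 * (N : ℝ) ^ 2 / q := by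
      rw [le_div_iff₀ hq0]
      linarith
    linarith

end Pool.Agent.Lib.SL
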