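import Pool.Agent.Lib.SL.AllD
import Pool.Agent.Lib.SLH.Qex
import Pool.Agent.Lib.SLH.Qcn
import Pool.Agent.Lib.SLH.Qcb
import Pool.Agent.Lib.SLH.Qcc
import Pool.Agent.Lib.SLH.Qcg
import Pool.Agent.Lib.SLH.Qpr
import Pool.Agent.Lib.SLH.Qgy
import Pool.Agent.Lib.SLH.Qgt
import Pool.Agent.Lib.SLH.Qgo
import Pool.Agent.Lib.SLH.Qgm
import Pool.Agent.Lib.SLH.Qfu
import Pool.Agent.Lib.SLH.Qft

/-!
MP_00e23e_nt, project SL, P2 and NL (helper3): DspTStmt and DspGStmt without hypotheses.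
-/

namespace Pool.Agent.Lib.SLH

open Pool.Agent.Lib.SL in
/-- the dispersion inequality with free classes (weights supported on gcd(n1, n2) ≤ t0), with all its modules -/
theorem tDspT : DspTStmt := by
  have hid : LidStmt := tLid MI.tDfo tLph
  have hta : LtaStmt := tLta hid MI.tDgg
  have htb : LtbStmt := tLtb (tLff tLph) MI.tDgg
  have hna : LnaStmt := tLna MJ.tEcn
  have hcr : LcrStmt := tLcr MI.tDtr (tLcb hna tLcn MI.tDpr) (tLcc hna tLcn MI.tDpr)
  have hdd : LddStmt := tLdd MI.tDtr (tLnd tLmv) tLdc MJ.tEgc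
  have hgl : LglStmt := tLgl MI.tDtr tLph tLgs
  have hco : LcoStmt := tLco MI.tDgg
  have hgm : QgmStmt := tQgm MI.tDgg htb tLgs hco
  have hcg : QcgStmt := tQcg MI.tDtr (tQcb hna tQcn) (tQcc hna tQcn)
  have hgt : QgtStmt := tQgt MI.tDtr (tQgy (tQpr tLmv)) MJ.tEgc
  exact tQft (tLca MI.tDtr) tQex hcr hcg hgt (tQfu hdd hgl hgm) (tQgo hta hco)

open Pool.Agent.Lib.SL in
/-- the dispersion inequality of P2 (weights supported on gcd(n1, n2) ≤ H) -/
theorem tDspG : DspGStmt := tDspGT tDspT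

end Pool.Agent.Lib.SLH
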