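import Pool.Agent.Lib.SL.DefK
import Pool.Agent.Lib.SL.SpecE
import Pool.Agent.Lib.SLB.StmK
import Pool.Agent.Lib.SLH.DefD

/-!
MP_00e23e_nt, project SL, P2 (a lock of arbitrarily small size; architect helper3): the interfaces. SecHStmt (second Cauchy
inequality), PhHStmt (phase identity with the good part of the modulus), LatStmt, LatTStmt (lattice chapter, helper28), THStmt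
(the T-statement of both cases).
-/

namespace Pool.Agent.Lib.SLH

open Finset Pool.Agent.Lib.EH3 Pool.Agent.Lib.TB Pool.Agent.Results.MP_00e23e_nt Pool.Agent.Lib.MI

/-- The second Cauchy inequality with colours; the weights ω are supported on gcd(n1, n2) ≤ t0, and the pair bound may contain
gcd(q, q'), q = r/ρ r. -/
def SecHStmt : Prop := ∃ C : ℝ, 0 < C ∧ ∃ A : ℕ, ∀ (X T D : ℝ) (a : ℕ → ℕ → ℤ) (b : ℕ → ℕ → ℕ → ℤ) (ρ : ℕ → ℕ)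
    (v col : ℕ → ℕ → ℕ) (K g R S N H R0 V t0 : ℕ) (Hs : Finset ℤ) (γ : ℤ → ℕ → ℕ → ℕ → ℂ) (ω : ℕ → ℕ → ℂ), Tau X T →
  0 ≤ D → 1 ≤ K → 1 ≤ g → 1 ≤ R → 1 ≤ S → 1 ≤ N → 1 ≤ H → 1 ≤ R0 → 1 ≤ V → R ≤ N →
  100 * (R : ℝ) ^ 2 * (S : ℝ) ^ 4 * (N : ℝ) ^ 2 * (H : ℝ) ^ 2 ≤ X →
  (∀ h ∈ Hs, h ≠ 0 ∧ |h| ≤ (H : ℤ)) → (∀ h r s1 s2, ‖γ h r s1 s2‖ ≤ 1) → (∀ n1 n2, ‖ω n1 n2‖ ≤ 1) →
  (∀ n1 n2, ω n1 n2 ≠ 0 → Nat.gcd n1 n2 ≤ t0) →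
  (∀ h r s1 s2, h ∈ Hs → r ∈ Ioc R (2 * R) → s1 ∈ Ioc S (2 * S) → s2 ∈ Ioc S (2 * S) → γ h r s1 s2 ≠ 0 →
    SL.SuK a b ρ v col K g R0 V R S N r s1 s2) →
  (∀ h h' r s1 s2 r' s1' s2', h ∈ Hs → h' ∈ Hs → γ h r s1 s2 ≠ 0 → γ h' r' s1' s2' ≠ 0 →
    Nat.gcd s1 s2 = g → Nat.gcd s1' s2' = g → SL.SuK a b ρ v col K g R0 V R S N r s1 s2 →
    SL.SuK a b ρ v col K g R0 V R S N r' s1' s2' →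
    SL.KyK ρ v col r s1 s2 = SL.KyK ρ v col r' s1' s2' → SL.Th ρ v h h' r s1 s2 r' s1' s2' ≠ 0 →
    ‖∑ n1 ∈ Ioc N (2 * N), ∑ n2 ∈ Ioc N (2 * N), (if Nat.gcd n1 n2 ≤ t0 then
      SL.Fp a g h r s1 s2 n1 n2 * (starRingEnd ℂ) (SL.Fp a g h' r' s1' s2' n1 n2) else 0)‖ ≤
      D * (Int.gcd (SL.Th ρ v h h' r s1 s2 r' s1' s2') (ρ r) : ℝ) * (Nat.gcd (r / ρ r) (r' / ρ r') : ℝ)) →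
  ‖∑ h ∈ Hs, SL.TG a g h R S N (γ h) ω‖ ^ 2 ≤ C * T ^ A * (K : ℝ) ^ 2 * ((S : ℝ) ^ 2 * (N : ℝ) ^ 2) ^ 2 *
    ((H : ℝ) / ((V : ℝ) ^ 2 * (g : ℝ) ^ 3) + (H : ℝ) ^ 2 / (g : ℝ) ^ 4 * ((R : ℝ) ^ 2 * D / ((R0 : ℝ) * (N : ℝ) ^ 2)))

/-- The phase identity of a pair with the same key: as SL.PhStmt, and B = Go Y, where no prime of Go divides c1 and Y divides
gcd(Theta, ρ) g gcd(q, q') v1 v2 v1' v2' |h| |h'|. -/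
def PhHStmt : Prop := ∀ (a b1 b2 : ℕ → ℕ → ℤ) (ρ : ℕ → ℕ) (v : ℕ → ℕ → ℕ) (g R0 V R S N : ℕ) (h h' : ℤ)
    (r s1 s2 r' s1' s2' : ℕ), 1 ≤ g → 1 ≤ R0 → 1 ≤ V →
  SL.Su a b1 b2 ρ v g R0 V R S N r s1 s2 → SL.Su a b1 b2 ρ v g R0 V R S N r' s1' s2' →
  SL.Ky ρ v r s1 s2 = SL.Ky ρ v r' s1' s2' →
  (∀ n1 n2 : ℕ, SL.Fp a g h r s1 s2 n1 n2 * (starRingEnd ℂ) (SL.Fp a g h' r' s1' s2' n1 n2) = 0) ∨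
  ∃ (B w1 w2 Go Y : ℕ) (l c1 c2 : ℤ), B = ρ r * (g * Nat.lcm (r / ρ r) (r' / ρ r')) ∧
    B * w1 = Nat.lcm (r * s1) (r' * s1') ∧ B * w2 = Nat.lcm (r * s2) (r' * s2') ∧ Squarefree (B * w1) ∧
    Squarefree (B * w2) ∧ Int.gcd l B = 1 ∧ 1 ≤ w1 ∧ 1 ≤ w2 ∧ g * w1 ≤ 4 * S * V ∧ g * w2 ≤ 4 * S * V ∧
    R * g < B ∧ B * R0 ≤ 4 * R ^ 2 * g ∧
    (B = Go * Y ∧ (∀ p : ℕ, p.Prime → p ∣ Go → ¬ (p : ℤ) ∣ c1) ∧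
      Y ∣ Int.gcd (SL.Th ρ v h h' r s1 s2 r' s1' s2') (ρ r) * (g * Nat.gcd (r / ρ r) (r' / ρ r')) *
        (v r s1 * v r s2 * (v r' s1' * v r' s2')) * (h.natAbs * h'.natAbs)) ∧
    ∀ n1 n2 : ℕ, 1 ≤ n1 → 1 ≤ n2 → SL.Fp a g h r s1 s2 n1 n2 * (starRingEnd ℂ) (SL.Fp a g h' r' s1' s2' n1 n2) =
      if (B : ℤ) ∣ (n1 : ℤ) - l * n2 then t1g c1 (B * w1) n1 * t1g c2 w2 n2 else 0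

/-- LATTICE CHAPTER (helper28), final statement 1: the sum over the points of the lattice B ∣ n1 - l n2 in the box with
gcd(n1, n2) ≤ t0. Go = good part of B (no prime divides c1, all primes > 2^k), Y = B/Go; all primes of B w1 w2 are ≤ y.
W is (up to a constant) a lower bound for the length of the lines, Z the saving of the one dimensional theorem (SLG.GliStmt),
Δ^(2^(k+1)) ≥ 1/Z. -/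
def LatStmt : Prop := ∀ k : ℕ, ∃ C : ℝ, 1 ≤ C ∧ ∃ A : ℕ, ∀ (X T W Z y Δ : ℝ) (N B w1 w2 Go Y t0 : ℕ) (l c1 c2 : ℤ),
  Tau X T → 1 ≤ Z → 1 ≤ y → 0 < Δ → 1 ≤ Z * Δ ^ (2 ^ (k + 1)) → 1 ≤ N → 1 ≤ t0 → Squarefree (B * w1) →
  Squarefree (B * w2) → Int.gcd l B = 1 → (N : ℝ) ≤ X → (B : ℝ) * w1 * w2 ≤ X →
  (∀ p : ℕ, p.Prime → p ∣ B * w1 * w2 → (p : ℝ) ≤ y) → B = Go * Y →
  (∀ p : ℕ, p.Prime → p ∣ Go → 2 ^ k < p ∧ ¬ (p : ℤ) ∣ c1) →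
  Z ^ 2 ≤ Go → W ^ 2 * B ≤ (N : ℝ) ^ 2 → C * (Z * y) * (W * Y) ≤ N → C * (Z * y) ^ 2 ≤ W →
  (B : ℝ) * w1 * w2 ≤ (W / (C * (Z * y))) ^ k →
  ‖∑ n1 ∈ Ioc N (2 * N), ∑ n2 ∈ Ioc N (2 * N),
    (if Nat.gcd n1 n2 ≤ t0 ∧ (B : ℤ) ∣ (n1 : ℤ) - l * n2 then t1g c1 (B * w1) n1 * t1g c2 w2 n2 else 0)‖ ≤
    C * T ^ A * ((N : ℝ) ^ 2 / B * (Δ + 1 / t0 + 1 / W) + t0)

/-- LATTICE CHAPTER (helper28), final statement 2: the number of points with gcd(n1, n2) ≤ t0 and n1 coprime to B. -/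
def LatTStmt : Prop := ∃ C : ℝ, 1 ≤ C ∧ ∀ (N B t0 : ℕ) (l : ℤ), 1 ≤ N → 1 ≤ t0 → 1 ≤ B → Int.gcd l B = 1 → B ≤ N ^ 2 →
  ((((Ioc N (2 * N)) ×ˢ (Ioc N (2 * N))).filter (fun n => Nat.gcd n.1 n.2 ≤ t0 ∧ n.1.Coprime B ∧
    (B : ℤ) ∣ (n.1 : ℤ) - l * n.2)).card : ℝ) ≤ C * ((N : ℝ) ^ 2 / B + t0)

/-- CHAPTER T', both cases (case I: ρ r = c; case II: ρ r = r, R0 = R). All primes of r s1 s2 are ≤ y. From SecHStmt, PhHStmt,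
LatStmt, LatTStmt. -/
def THStmt : Prop := ∀ k : ℕ, ∃ C : ℝ, 1 ≤ C ∧ ∃ A : ℕ, ∀ (X T W Z y Δ : ℝ) (a : ℕ → ℕ → ℤ) (b : ℕ → ℕ → ℕ → ℤ)
    (ρ : ℕ → ℕ) (v col : ℕ → ℕ → ℕ) (K g R S N H R0 V t0 : ℕ) (Hs : Finset ℤ) (γ : ℤ → ℕ → ℕ → ℕ → ℂ)
    (ω : ℕ → ℕ → ℂ), 1 ≤ K → SLB.Tz X T a g R S N H R0 V Hs γ ω → SLB.LtK a b ρ v col K R0 V γ →
  (∀ n1 n2, ω n1 n2 ≠ 0 → Nat.gcd n1 n2 ≤ t0) → 1 ≤ t0 → 1 ≤ Z → 1 ≤ y → 0 < Δ → 1 ≤ Z * Δ ^ (2 ^ (k + 1)) →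
  (∀ h r s1 s2, γ h r s1 s2 ≠ 0 → ∀ p : ℕ, p.Prime → p ∣ r * s1 * s2 → (p : ℝ) ≤ y) →
  4 * W ^ 2 * (R : ℝ) ^ 2 * g ≤ R0 * (N : ℝ) ^ 2 →
  C * (Z * y) ^ 2 * (W ^ 2 * (g * (V : ℝ) ^ 4 * (H : ℝ) ^ 2)) ≤ R0 → C * (Z * y) ^ 2 ≤ W →
  64 * ((R : ℝ) * S * V) ^ 2 ≤ (R0 : ℝ) * (W / (C * (Z * y))) ^ k →
  ‖∑ h ∈ Hs, SL.TG a g h R S N (γ h) ω‖ ^ 2 ≤ C * T ^ A * (K : ℝ) ^ 2 * ((S : ℝ) ^ 2 * (N : ℝ) ^ 2) ^ 2 *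
    ((H : ℝ) / ((V : ℝ) ^ 2 * (g : ℝ) ^ 3) + ((H : ℝ) / g) ^ 2 *
      (Δ + 1 / t0 + 1 / W + t0 * (R : ℝ) ^ 2 / (R0 * (N : ℝ) ^ 2)))

end Pool.Agent.Lib.SLH
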