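import Pool.Agent.Lib.SLH.SpecC
import Pool.Agent.Lib.MI.T1Gsa

set_option autoImplicit false

/-! MP_00e23e_nt, Lib/SLH, module Hgq: the sum of the gcds. -/

namespace Pool.Agent.Lib.SL

open Finset Pool.Agent.Lib.EH3 Pool.Agent.Lib.TB Pool.Agent.Results.MP_00e23e_nt Pool.Agent.Lib.MI

private theorem Hgq_one (X T : ℝ) (Q q : ℕ) (hT : Tau X T) (hX : (Q : ℝ) ≤ X) (h1 : 1 ≤ q)
    (h2 : q ≤ Q) : ∑ q' ∈ Icc 1 Q, (Nat.gcd q q' : ℝ) ≤ Q * T := by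
  obtain ⟨-, -, hT3⟩ := hT
  have h4 := (tT1Gsa ((q : ℕ) : ℤ) (by exact_mod_cast (by omega : q ≠ 0))).2 Q
  simp only [Int.natAbs_natCast, Int.gcd_natCast_natCast] at h4
  refine h4.trans ?_
  refine mul_le_mul_of_nonneg_left ?_ (Nat.cast_nonneg _)
  refine hT3 q h1 (le_trans ?_ hX)
  exact_mod_cast h2

theorem tHgq : HgqStmt := by
  intro X T Q hT hX
  have h1 : ∀ q ∈ Icc 1 Q, ∑ q' ∈ Icc 1 Q, (Nat.gcd q q' : ℝ) ≤ Q * T := by
    intro q hq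
    rw [Finset.mem_Icc] at hq
    exact Hgq_one X T Q q hT hX hq.1 hq.2
  refine (Finset.sum_le_sum h1).trans ?_
  rw [Finset.sum_const, Nat.card_Icc, Nat.add_sub_cancel, nsmul_eq_mul]
  exact le_of_eq (by ring)

end Pool.Agent.Lib.SL
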