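import Pool.Agent.Lib.SLH.SpecC

/-!
MP_00e23e_nt, project SL P2, module Hgv: the average of gcd(Theta, ϱ) gcd(q, q').
-/

set_option autoImplicit false

namespace Pool.Agent.Lib.SL

open Finset Pool.Agent.Lib.EH3 Pool.Agent.Lib.TB Pool.Agent.Results.MP_00e23e_nt Pool.Agent.Lib.MI

private lemma Hgv_mul (V m : ℕ) :
    (((Ioc V (2 * V)).filter (fun v => m ∣ v)).card : ℝ) ≤ 2 * (V : ℝ) / m := by
  have h1 : ((Ioc V (2 * V)).filter (fun v => m ∣ v)).card ≤ 2 * V / m := by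
    rw [← Nat.Ioc_filter_dvd_card_eq_div]
    refine card_le_card (filter_subset_filter _ ?_)
    exact Ioc_subset_Ioc_left (Nat.zero_le _)
  calc (((Ioc V (2 * V)).filter (fun v => m ∣ v)).card : ℝ) ≤ ((2 * V / m : ℕ) : ℝ) := by
        exact_mod_cast h1
    _ ≤ ((2 * V : ℕ) : ℝ) / m := Nat.cast_div_le
    _ = 2 * (V : ℝ) / m := by push_cast; ring

private lemma Hgv_hs (H : ℕ) (Hs : Finset ℤ) (h : ∀ h ∈ Hs, h ≠ 0 ∧ |h| ≤ (H : ℤ)) :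
    (Hs.card : ℝ) ≤ 2 * (H : ℝ) := by
  have h1 : Hs ⊆ (Icc (-(H : ℤ)) H).erase 0 := by
    intro x hx
    rw [mem_erase, mem_Icc]
    exact ⟨(h x hx).1, abs_le.1 (h x hx).2⟩
  have h2 := card_le_card h1
  rw [card_erase_of_mem (by rw [mem_Icc]; omega), Int.card_Icc] at h2
  have h3 : Hs.card ≤ 2 * H := by omega
  exact_mod_cast h3

private lemma Hgv_card (V H m1 m2 : ℕ) (Hs : Finset ℤ)
    (h : ∀ h ∈ Hs, h ≠ 0 ∧ |h| ≤ (H : ℤ)) :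
    ((((Ioc V (2 * V)).filter (fun v => m1 ∣ v) ×ˢ
      ((Ioc V (2 * V)).filter (fun v => m2 ∣ v) ×ˢ Hs)).card : ℕ) : ℝ) ≤
      2 * (V : ℝ) / m1 * (2 * (V : ℝ) / m2 * (2 * (H : ℝ))) := by
  rw [card_product, card_product]
  push_cast
  have h2 := Hgv_mul V m1
  have h3 := Hgv_mul V m2
  have h4 := Hgv_hs H Hs h
  gcongr

private lemma Hgv_prod (A : Finset ℕ) (Y : Finset (ℕ × ℕ × ℤ)) :
    ∑ x ∈ A ×ˢ Y, ∑ x' ∈ A ×ˢ Y, (Nat.gcd x.1 x'.1 : ℝ) =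
      (Y.card : ℝ) ^ 2 * ∑ q ∈ A, ∑ q' ∈ A, (Nat.gcd q q' : ℝ) := by
  have h0 : ∀ q : ℕ, ∑ x' ∈ A ×ˢ Y, (Nat.gcd q x'.1 : ℝ) =
      (Y.card : ℝ) * ∑ q' ∈ A, (Nat.gcd q q' : ℝ) := by
    intro q
    rw [sum_product, mul_sum]
    refine sum_congr rfl fun q' _ => ?_
    change ∑ _y' ∈ Y, (Nat.gcd q q' : ℝ) = _
    rw [sum_const, nsmul_eq_mul]
  rw [sum_product, mul_sum]
  refine sum_congr rfl fun q _ => ?_
  change ∑ _y ∈ Y, ∑ x' ∈ A ×ˢ Y, (Nat.gcd q x'.1 : ℝ) = _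
  rw [sum_const, nsmul_eq_mul, h0]
  ring

private lemma Hgv_size (R R0 V H m1 m2 : ℕ) (Hs : Finset ℤ)
    (hHs : ∀ h ∈ Hs, h ≠ 0 ∧ |h| ≤ (H : ℤ)) (x x' : ℕ × ℕ × ℕ × ℤ)
    (hx : x ∈ QQ R R0 V Hs m1 m2) (hx' : x' ∈ QQ R R0 V Hs m1 m2) :
    (Tx x x').natAbs ≤ 16 * (H * R * V ^ 2) := by
  have key : ∀ y ∈ QQ R R0 V Hs m1 m2,
      y.1 * y.2.1 * y.2.2.1 ≤ 8 * (R * V ^ 2) ∧ |y.2.2.2| ≤ (H : ℤ) := by
    intro y hy
    simp only [QQ, mem_product, mem_Icc, mem_filter, mem_Ioc] at hy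
    obtain ⟨⟨_, h1⟩, ⟨⟨_, h2⟩, _⟩, ⟨⟨_, h3⟩, _⟩, h4⟩ := hy
    refine ⟨?_, (hHs _ h4).2⟩
    have h5 : y.1 ≤ 2 * R := h1.trans (Nat.div_le_self _ _)
    calc y.1 * y.2.1 * y.2.2.1 ≤ (2 * R) * (2 * V) * (2 * V) := by gcongr
      _ = 8 * (R * V ^ 2) := by ring
  obtain ⟨a1, a2⟩ := key x hx
  obtain ⟨b1, b2⟩ := key x' hx'
  have hm : ∀ (u : ℤ) (A : ℕ), |u| ≤ (H : ℤ) → A ≤ 8 * (R * V ^ 2) →
      |u * (A : ℤ)| ≤ (H : ℤ) * ((8 * (R * V ^ 2) : ℕ) : ℤ) := by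
    intro u A hu hA
    rw [abs_mul, Nat.abs_cast]
    exact mul_le_mul hu (by exact_mod_cast hA) (by positivity) (by positivity)
  have h : |Tx x x'| ≤ ((16 * (H * R * V ^ 2) : ℕ) : ℤ) := by
    rw [Tx]
    refine (abs_sub _ _).trans ?_
    refine (add_le_add (hm _ _ a2 b1) (hm _ _ b2 a1)).trans_eq ?_
    push_cast
    ring
  rw [Int.abs_eq_natAbs] at h
  exact_mod_cast h

open Classical in
theorem tHgv (h1 : T1GsaStmt) (h2 : HgqStmt) : HgvStmt := by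
  intro X T R R0 V H m1 m2 Hs hT hR0 hV hH hm1 hm2 hHs hX
  have hT0 : 0 ≤ T := zero_le_one.trans hT.1
  have hR0' : (0 : ℝ) < R0 := by exact_mod_cast hR0
  have hV' : (1 : ℝ) ≤ V := by exact_mod_cast hV
  have hH' : (1 : ℝ) ≤ H := by exact_mod_cast hH
  have hm1' : (0 : ℝ) < m1 := by exact_mod_cast hm1
  have hm2' : (0 : ℝ) < m2 := by exact_mod_cast hm2
  have hin : ∀ x ∈ QQ R R0 V Hs m1 m2, ∀ x' ∈ QQ R R0 V Hs m1 m2,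
      ∑ ϱ ∈ Ioc R0 (2 * R0), (if Tx x x' ≠ 0 then
        (Int.gcd (Tx x x') ϱ : ℝ) * (Nat.gcd x.1 x'.1 : ℝ) else 0) ≤
        2 * (R0 : ℝ) * T * (Nat.gcd x.1 x'.1 : ℝ) := by
    intro x hx x' hx'
    by_cases h0 : Tx x x' = 0
    · simp only [h0, ne_eq, not_true_eq_false, if_false, sum_const_zero]
      positivity
    · simp only [ne_eq, h0, not_false_eq_true, if_true]
      rw [← sum_mul]
      refine mul_le_mul_of_nonneg_right ?_ (by positivity)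
      refine ((h1 _ h0).1 R0).trans ?_
      refine mul_le_mul_of_nonneg_left ?_ (by positivity)
      refine hT.2.2 _ (Int.natAbs_pos.2 h0) ?_
      refine le_trans ?_ hX
      have h3 := Hgv_size R R0 V H m1 m2 Hs hHs x x' hx hx'
      exact_mod_cast h3
  have hQ : ((2 * R / R0 : ℕ) : ℝ) ≤ 2 * (R : ℝ) / R0 := by
    calc ((2 * R / R0 : ℕ) : ℝ) ≤ ((2 * R : ℕ) : ℝ) / R0 := Nat.cast_div_le
      _ = 2 * (R : ℝ) / R0 := by push_cast; ring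
  have hQX : ((2 * R / R0 : ℕ) : ℝ) ≤ X := by
    have h3 : ((2 * R / R0 : ℕ) : ℝ) ≤ ((2 * R : ℕ) : ℝ) := by
      exact_mod_cast Nat.div_le_self _ _
    refine h3.trans (le_trans ?_ hX)
    push_cast
    have h4 : (1 : ℝ) ≤ (H : ℝ) * (V : ℝ) ^ 2 := by
      have h5 : (1 : ℝ) ≤ (V : ℝ) ^ 2 := one_le_pow₀ hV'
      nlinarith
    have h6 : (0 : ℝ) ≤ R := Nat.cast_nonneg _
    nlinarith [mul_le_mul_of_nonneg_left h4 h6]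
  have hg := h2 X T (2 * R / R0) hT hQX
  have hg' : ∑ q ∈ Icc 1 (2 * R / R0), ∑ q' ∈ Icc 1 (2 * R / R0), (Nat.gcd q q' : ℝ) ≤
      T * (2 * (R : ℝ) / R0) ^ 2 := by
    refine hg.trans (mul_le_mul_of_nonneg_left ?_ hT0)
    exact pow_le_pow_left₀ (Nat.cast_nonneg _) hQ 2
  calc ∑ ϱ ∈ Ioc R0 (2 * R0), ∑ x ∈ QQ R R0 V Hs m1 m2, ∑ x' ∈ QQ R R0 V Hs m1 m2,
        (if Tx x x' ≠ 0 then (Int.gcd (Tx x x') ϱ : ℝ) * (Nat.gcd x.1 x'.1 : ℝ) else 0)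
      = ∑ x ∈ QQ R R0 V Hs m1 m2, ∑ x' ∈ QQ R R0 V Hs m1 m2, ∑ ϱ ∈ Ioc R0 (2 * R0),
        (if Tx x x' ≠ 0 then (Int.gcd (Tx x x') ϱ : ℝ) * (Nat.gcd x.1 x'.1 : ℝ) else 0) := by
        rw [sum_comm]
        refine sum_congr rfl fun x _ => ?_
        rw [sum_comm]
    _ ≤ ∑ x ∈ QQ R R0 V Hs m1 m2, ∑ x' ∈ QQ R R0 V Hs m1 m2,
          2 * (R0 : ℝ) * T * (Nat.gcd x.1 x'.1 : ℝ) :=
        sum_le_sum fun x hx => sum_le_sum fun x' hx' => hin x hx x' hx'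
    _ = 2 * (R0 : ℝ) * T * ∑ x ∈ QQ R R0 V Hs m1 m2, ∑ x' ∈ QQ R R0 V Hs m1 m2,
          (Nat.gcd x.1 x'.1 : ℝ) := by
        rw [mul_sum]
        refine sum_congr rfl fun x _ => ?_
        rw [mul_sum]
    _ ≤ 2 * (R0 : ℝ) * T * ((2 * (V : ℝ) / m1 * (2 * (V : ℝ) / m2 * (2 * (H : ℝ)))) ^ 2 *
          (T * (2 * (R : ℝ) / R0) ^ 2)) := by
        refine mul_le_mul_of_nonneg_left ?_ (by positivity)
        rw [QQ, Hgv_prod]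
        refine mul_le_mul ?_ hg' ?_ (by positivity)
        · exact pow_le_pow_left₀ (by positivity) (Hgv_card V H m1 m2 Hs hHs) 2
        · exact sum_nonneg fun _ _ => sum_nonneg fun _ _ => Nat.cast_nonneg _
    _ = 512 * T ^ 2 * (((R : ℝ) * H * (V : ℝ) ^ 2 / (m1 * m2)) ^ 2 / R0) := by
        field_simp
        ring

end Pool.Agent.Lib.SL
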