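import Pool.Agent.Lib.SLH.SpecC

/-!
MP_00e23e_nt, project SL, P2, chapter C', module Hnu (helper61; after Lib/SL/Cnu.lean): the number of (n1, n2) for one index.
-/

set_option autoImplicit false

namespace Pool.Agent.Lib.SL

open Finset Pool.Agent.Lib.EH3 Pool.Agent.Lib.TB Pool.Agent.Results.MP_00e23e_nt Pool.Agent.Lib.MI

private theorem Hnu_fg (a : ℕ → ℕ → ℤ) (h : ℤ) (g r s1 s2 n1 n2 : ℕ) : ‖fg a h g r s1 s2 n1 n2‖ ≤ 1 := by
  unfold fg
  rw [norm_mul, norm_en, norm_en, mul_one]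

private theorem Hnu_Fp (a : ℕ → ℕ → ℤ) (g : ℕ) (h : ℤ) (r s1 s2 n1 n2 : ℕ) : ‖Fp a g h r s1 s2 n1 n2‖ ≤ 1 := by
  unfold Fp
  split_ifs
  · exact Hnu_fg a h g r s1 s2 n1 n2
  · rw [norm_zero]
    exact zero_le_one

private theorem Hnu_Fr (a : ℕ → ℕ → ℤ) (t0 g : ℕ) (h : ℤ) (r s1 s2 n1 n2 : ℕ) :
    ‖Fr a t0 g h r s1 s2 n1 n2‖ ≤ 1 := by
  unfold Fr
  split_ifs
  · exact Hnu_Fp a g h r s1 s2 n1 n2
  · rw [norm_zero]
    exact zero_le_one

open Classical in
private theorem Hnu_term (a : ℕ → ℕ → ℤ) (t0 g : ℕ) (h h' : ℤ) (r s1 s2 r' s1' s2' n1 n2 : ℕ) :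
    ‖Fr a t0 g h r s1 s2 n1 n2 * (starRingEnd ℂ) (Fr a t0 g h' r' s1' s2' n1 n2)‖ ≤
      if Gg a g r s1 s2 n1 n2 then (1 : ℝ) else 0 := by
  rw [norm_mul, RCLike.norm_conj]
  split_ifs with hG
  · exact mul_le_one₀ (Hnu_Fr a t0 g h r s1 s2 n1 n2) (norm_nonneg _)
      (Hnu_Fr a t0 g h' r' s1' s2' n1 n2)
  · have h0 : Fr a t0 g h r s1 s2 n1 n2 = 0 := by
      unfold Fr Fp
      rw [if_neg hG, ite_self]
    rw [h0, norm_zero, zero_mul]

/-- one class modulo r in (N, 2N] -/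
private theorem Hnu_class (N r : ℕ) (B : Finset ℕ) (hB : B ⊆ Ioc N (2 * N))
    (h : ∀ n ∈ B, ∀ n' ∈ B, (r : ℤ) ∣ (n : ℤ) - n') : B.card ≤ N / r + 1 := by
  rw [← Finset.card_range (N / r + 1)]
  refine Finset.card_le_card_of_injOn (fun n => (n - N - 1) / r) ?_ ?_
  · intro n hn
    have h1 := Finset.mem_Ioc.1 (hB (Finset.mem_coe.1 hn))
    rw [Finset.mem_coe, Finset.mem_range]
    have h2 : (n - N - 1) / r ≤ N / r := Nat.div_le_div_right (by omega)
    exact Nat.lt_succ_of_le h2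
  · intro n hn n' hn' he
    have h1 := Finset.mem_Ioc.1 (hB (Finset.mem_coe.1 hn))
    have h2 := Finset.mem_Ioc.1 (hB (Finset.mem_coe.1 hn'))
    have h3 := h n (Finset.mem_coe.1 hn) n' (Finset.mem_coe.1 hn')
    have he' : (n - N - 1) / r = (n' - N - 1) / r := he
    have h4 : ((n - N - 1 : ℕ) : ℤ) ≡ ((n' - N - 1 : ℕ) : ℤ) [ZMOD r] := by
      apply Int.ModEq.symm
      rw [Int.modEq_iff_dvd]
      have h5 : ((n - N - 1 : ℕ) : ℤ) - ((n' - N - 1 : ℕ) : ℤ) = (n : ℤ) - n' := by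
        omega
      rw [h5]
      exact h3
    have h6 : (n - N - 1) % r = (n' - N - 1) % r := by
      have := (Int.natCast_modEq_iff).1 h4
      exact this
    have h7 := Nat.div_add_mod (n - N - 1) r
    have h8 := Nat.div_add_mod (n' - N - 1) r
    rw [he', h6] at h7
    omega

theorem tHnu : HnuStmt := by
  classical
  intro a b1 b2 ρ v t0 g R0 V R S N h h' r s1 s2 r' s1' s2' hg hR hRN hSu
  obtain ⟨⟨hRr, _⟩, _, _, _, _, _, _, _, hND⟩ := hSu
  have hR0 : (0 : ℝ) < R := by exact_mod_cast hR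
  have hg0 : (0 : ℝ) < g := by exact_mod_cast hg
  have hle : ‖∑ n1 ∈ Ioc N (2 * N), ∑ n2 ∈ Ioc N (2 * N),
      Fr a t0 g h r s1 s2 n1 n2 * (starRingEnd ℂ) (Fr a t0 g h' r' s1' s2' n1 n2)‖ ≤
      ∑ n1 ∈ Ioc N (2 * N), ∑ n2 ∈ Ioc N (2 * N), (if Gg a g r s1 s2 n1 n2 then (1 : ℝ) else 0) := by
    refine (norm_sum_le _ _).trans (Finset.sum_le_sum fun n1 _ => ?_)
    exact (norm_sum_le _ _).trans (Finset.sum_le_sum fun n2 _ => Hnu_term a t0 g h h' r s1 s2 r' s1' s2' n1 n2)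
  refine hle.trans ?_
  by_cases hg2 : 2 ≤ g
  · have h1 : ∑ n1 ∈ Ioc N (2 * N), ∑ n2 ∈ Ioc N (2 * N), (if Gg a g r s1 s2 n1 n2 then (1 : ℝ) else 0) ≤
        ((La (a r s1) (a r s2) (r * g) N).card : ℝ) := by
      rw [← Finset.sum_product', Finset.card_eq_sum_ones, Nat.cast_sum]
      unfold La
      rw [Finset.sum_filter]
      refine Finset.sum_le_sum fun n _ => ?_
      by_cases hG : Gg a g r s1 s2 n.1 n.2
      · rw [if_pos hG, if_pos hG.2.2.2.2.2.2.2]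
        simp
      · rw [if_neg hG]
        split_ifs <;> simp
    refine h1.trans ?_
    have h2 := hND hg2
    unfold ND at h2
    have h3 : (r : ℝ) * g * ((La (a r s1) (a r s2) (r * g) N).card : ℝ) ≤ 36 * (N : ℝ) ^ 2 := by
      exact_mod_cast h2
    rw [le_div_iff₀ (by positivity)]
    have h4 : (R : ℝ) ≤ r := by exact_mod_cast hRr.le
    have h5 : (0 : ℝ) ≤ ((La (a r s1) (a r s2) (r * g) N).card : ℝ) := Nat.cast_nonneg _
    calc ((La (a r s1) (a r s2) (r * g) N).card : ℝ) * ((R : ℝ) * g)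
        ≤ ((La (a r s1) (a r s2) (r * g) N).card : ℝ) * ((r : ℝ) * g) :=
          mul_le_mul_of_nonneg_left (mul_le_mul_of_nonneg_right h4 hg0.le) h5
      _ = (r : ℝ) * g * ((La (a r s1) (a r s2) (r * g) N).card : ℝ) := by ring
      _ ≤ 36 * (N : ℝ) ^ 2 := h3
  · have hg1 : g = 1 := by omega
    subst hg1
    have h1 : ∀ n1 ∈ Ioc N (2 * N), ∑ n2 ∈ Ioc N (2 * N), (if Gg a 1 r s1 s2 n1 n2 then (1 : ℝ) else 0) ≤
        2 * ((N : ℝ) / R) := by
      intro n1 _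
      have h2 : ∑ n2 ∈ Ioc N (2 * N), (if Gg a 1 r s1 s2 n1 n2 then (1 : ℝ) else 0) =
          (((Ioc N (2 * N)).filter (fun n2 => Gg a 1 r s1 s2 n1 n2)).card : ℝ) := by
        rw [Finset.card_filter, Nat.cast_sum]
        refine Finset.sum_congr rfl fun n _ => ?_
        split_ifs <;> simp
      rw [h2]
      have h3 := Hnu_class N r ((Ioc N (2 * N)).filter (fun n2 => Gg a 1 r s1 s2 n1 n2))
        (Finset.filter_subset _ _) (by
          intro n hn n' hn'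
          obtain ⟨_, _, _, _, _, k1, _, k2⟩ := (Finset.mem_filter.1 hn).2
          obtain ⟨_, _, _, _, _, _, _, k3⟩ := (Finset.mem_filter.1 hn').2
          rw [Nat.mul_one] at k2 k3
          have k4 : (r : ℤ) ∣ ((n : ℤ) - n') * a r s1 := by
            have := dvd_sub k3 k2
            have e : (n1 : ℤ) * a r s2 - (n' : ℤ) * a r s1 - ((n1 : ℤ) * a r s2 - (n : ℤ) * a r s1) =
                ((n : ℤ) - n') * a r s1 := by ring
            rwa [e] at this
          have k5 : IsCoprime (r : ℤ) (a r s1) := by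
            have k6 : IsCoprime (a r s1) ((r * s1 : ℕ) : ℤ) := Int.isCoprime_iff_gcd_eq_one.2 k1
            rw [Nat.cast_mul] at k6
            exact (IsCoprime.of_mul_right_left k6).symm
          exact k5.dvd_of_dvd_mul_right k4)
      have h4 : (((Ioc N (2 * N)).filter (fun n2 => Gg a 1 r s1 s2 n1 n2)).card : ℝ) ≤ ((N / r + 1 : ℕ) : ℝ) := by
        exact_mod_cast h3
      refine h4.trans ?_
      push_cast
      have h5 : ((N / r : ℕ) : ℝ) ≤ (N : ℝ) / r := Nat.cast_div_le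
      have h6 : (N : ℝ) / r ≤ (N : ℝ) / R :=
        div_le_div_of_nonneg_left (Nat.cast_nonneg _) hR0 (by exact_mod_cast hRr.le)
      have h7 : (1 : ℝ) ≤ (N : ℝ) / R := by
        rw [le_div_iff₀ hR0, one_mul]
        exact_mod_cast hRN
      linarith
    refine (Finset.sum_le_sum h1).trans ?_
    rw [Finset.sum_const, Nat.card_Ioc, nsmul_eq_mul]
    have h8 : ((2 * N - N : ℕ) : ℝ) = N := by
      have : 2 * N - N = N := by omega
      rw [this]
    rw [h8, Nat.cast_one, mul_one, le_div_iff₀ hR0]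
    have h9 : (N : ℝ) * (2 * ((N : ℝ) / R)) * R = 2 * (N : ℝ) ^ 2 := by
      field_simp
    rw [h9]
    have h10 : (0 : ℝ) ≤ (N : ℝ) ^ 2 := by positivity
    linarith

end Pool.Agent.Lib.SL
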