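import Pool.Agent.Lib.SLH.SpecC

set_option autoImplicit false

/-!
MP_00e23e_nt, project SL, P2, chapter C-prime, module Hp1: the pairs with the same key and Theta ≠ 0, with gcd(q, q) in the bound.
-/

namespace Pool.Agent.Lib.SL

open Finset Pool.Agent.Lib.EH3 Pool.Agent.Lib.TB Pool.Agent.Results.MP_00e23e_nt Pool.Agent.Lib.MI

private theorem Hp1_arith (S V g1 g2 g D T R H R0 m1 m2 Y : ℝ) (hV : 0 < V) (hg1 : 0 < g1)
    (hg2 : 0 < g2) (hg : 0 < g) (hR0 : 0 < R0) (hm1 : m1 = g / g1) (hm2 : m2 = g / g2)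
    (hD : 0 ≤ D) (h : Y ≤ 512 * T ^ 2 * ((R * H * V ^ 2 / (m1 * m2)) ^ 2 / R0)) :
    (2 * S / (V * g1)) * (2 * S / (V * g2)) * (D * Y) ≤
      2048 * T ^ 2 * (D * (S ^ 2 * R ^ 2 * H ^ 2 * V ^ 2 * g1 * g2 / (R0 * g ^ 4))) := by
  have h1 : (2 * S / (V * g1)) * (2 * S / (V * g2)) = 4 * S ^ 2 / (V ^ 2 * g1 * g2) := by
    field_simp
    ring
  have h2 : 0 ≤ (2 * S / (V * g1)) * (2 * S / (V * g2)) := by
    rw [h1]
    positivity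
  refine (mul_le_mul_of_nonneg_left (mul_le_mul_of_nonneg_left h hD) h2).trans (le_of_eq ?_)
  rw [hm1, hm2]
  field_simp
  ring

open Classical in
theorem tHp1 (h1 : CprStmt) (h2 : HgvStmt) : Hp1Stmt := by
  intro X T D a b ρ v col K g R0 V R S N H g1 g2 Hs I hTau hD hg hR hS hN hH hR0 hV hX hHs hI
  rcases I.eq_empty_or_nonempty with rfl | ⟨p, hp⟩
  · rw [Finset.sum_empty]
    have hT := hTau.1
    positivity
  obtain ⟨-, -, hSu, hg1, hg2⟩ := hI p hp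
  obtain ⟨-, ⟨hs1, hs2⟩, -, -, ⟨hv1, hv2, -⟩, -⟩ := hSu
  have hg1d : g1 ∣ g := hg1 ▸ Nat.gcd_dvd_left _ _
  have hg2d : g2 ∣ g := hg2 ▸ Nat.gcd_dvd_left _ _
  have hg1p : 0 < g1 := Nat.pos_of_dvd_of_pos hg1d hg
  have hg2p : 0 < g2 := Nat.pos_of_dvd_of_pos hg2d hg
  have hm1 : 1 ≤ g / g1 := Nat.div_pos (Nat.le_of_dvd hg hg1d) hg1p
  have hm2 : 1 ≤ g / g2 := Nat.div_pos (Nat.le_of_dvd hg hg2d) hg2p
  have hVS : V ≤ 2 * S := by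
    have := Nat.le_of_dvd (by omega) hv1
    omega
  have hVSr : (V : ℝ) ≤ 2 * S := by exact_mod_cast hVS
  have hX2 : 16 * ((H : ℝ) * R * (V : ℝ) ^ 2) ≤ X := by
    refine le_trans ?_ hX
    have h3 : (V : ℝ) ^ 2 ≤ (2 * S) ^ 2 := pow_le_pow_left₀ (Nat.cast_nonneg _) hVSr 2
    have h4 : (0 : ℝ) ≤ (H : ℝ) * R := by positivity
    nlinarith [mul_le_mul_of_nonneg_left h3 h4]
  have h3 := h1 (fun _ _ => 0) (fun _ _ => 0) (fun _ _ => 0) ρ v g R0 V R S 0 g1 g2 Hs I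
    (fun ϱ x x' => if Tx x x' ≠ 0 then D * (Int.gcd (Tx x x') ϱ : ℝ) * (Nat.gcd x.1 x'.1 : ℝ) else 0) hg hR0 hV
    (fun ϱ x x' => by
      split_ifs
      · exact mul_nonneg (mul_nonneg hD (Nat.cast_nonneg _)) (Nat.cast_nonneg _)
      · exact le_rfl) (IgK_Ig hI)
  have h4 := h2 X T R R0 V H (g / g1) (g / g2) Hs hTau hR0 hV hH hm1 hm2 hHs hX2
  have h5 : ∑ p ∈ I, ∑ p' ∈ I, (if KpK ρ v col K p = KpK ρ v col K p' ∧ Tx (Ix ρ v p) (Ix ρ v p') ≠ 0 then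
      D * (Int.gcd (Tx (Ix ρ v p) (Ix ρ v p')) (ρ p.2.1) : ℝ) *
        (Nat.gcd (p.2.1 / ρ p.2.1) (p'.2.1 / ρ p'.2.1) : ℝ) else 0) ≤
      ∑ p ∈ I, ∑ p' ∈ I, (if Kp ρ v p = Kp ρ v p' then
        (if Tx (Ix ρ v p) (Ix ρ v p') ≠ 0 then
          D * (Int.gcd (Tx (Ix ρ v p) (Ix ρ v p')) (ρ p.2.1) : ℝ) *
        (Nat.gcd (p.2.1 / ρ p.2.1) (p'.2.1 / ρ p'.2.1) : ℝ) else 0) else 0) := by
    refine Finset.sum_le_sum fun p hp => Finset.sum_le_sum fun p' hp' => ?_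
    by_cases h6 : KpK ρ v col K p = KpK ρ v col K p' ∧ Tx (Ix ρ v p) (Ix ρ v p') ≠ 0
    · rw [if_pos h6, if_pos (KpK_Kp hI hp hp' h6.1).1, if_pos h6.2]
    · rw [if_neg h6]
      split_ifs
      · positivity
      · exact le_rfl
      · exact le_rfl
  have h6 : ∑ ϱ ∈ Ioc R0 (2 * R0), ∑ x ∈ QQ R R0 V Hs (g / g1) (g / g2),
      ∑ x' ∈ QQ R R0 V Hs (g / g1) (g / g2),
        (if Tx x x' ≠ 0 then D * (Int.gcd (Tx x x') ϱ : ℝ) * (Nat.gcd x.1 x'.1 : ℝ) else 0) =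
      D * ∑ ϱ ∈ Ioc R0 (2 * R0), ∑ x ∈ QQ R R0 V Hs (g / g1) (g / g2),
        ∑ x' ∈ QQ R R0 V Hs (g / g1) (g / g2),
          (if Tx x x' ≠ 0 then (Int.gcd (Tx x x') ϱ : ℝ) * (Nat.gcd x.1 x'.1 : ℝ) else 0) := by
    rw [Finset.mul_sum]
    refine Finset.sum_congr rfl fun ϱ _ => ?_
    rw [Finset.mul_sum]
    refine Finset.sum_congr rfl fun x _ => ?_
    rw [Finset.mul_sum]
    refine Finset.sum_congr rfl fun x' _ => ?_
    split_ifs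
    · rw [mul_assoc]
    · rw [mul_zero]
  refine h5.trans (h3.trans ?_)
  rw [h6]
  refine Hp1_arith S V g1 g2 g D T R H R0 _ _ _ (by exact_mod_cast hV) (by exact_mod_cast hg1p)
    (by exact_mod_cast hg2p) (by exact_mod_cast hg) (by exact_mod_cast hR0) ?_ ?_ hD h4
  · exact Nat.cast_div hg1d (by exact_mod_cast hg1p.ne')
  · exact Nat.cast_div hg2d (by exact_mod_cast hg2p.ne')

end Pool.Agent.Lib.SL
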