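import Pool.Agent.Lib.SL.AllK
import Pool.Agent.Lib.SLH.Hgq
import Pool.Agent.Lib.SLH.Hgv
import Pool.Agent.Lib.SLH.Hnu
import Pool.Agent.Lib.SLH.Hp0
import Pool.Agent.Lib.SLH.Hp1
import Pool.Agent.Lib.SLH.Hse

/-!
MP_00e23e_nt, project SL, P2 (helper3): SecHStmt without hypotheses.
-/

namespace Pool.Agent.Lib.SLH

/-- the second Cauchy inequality of P2, with all its modules -/
theorem tSecH : SecHStmt :=
  SL.tHse SL.tCcs (SL.tCouK SL.tCou) (SL.tHp0 SL.tHnu SL.tCpr SL.tCdc) (SL.tHp1 SL.tCpr (SL.tHgv MI.tT1Gsa SL.tHgq))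

end Pool.Agent.Lib.SLH
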