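import Pool.Agent.Lib.SLH.DefH
import Pool.Agent.Lib.SLG.SpecL

/-!
MP_00e23e_nt, project SL, P2 (helper28): the bound of a pair, i.e. the hypothesis of SLH.SecHStmt.
-/

namespace Pool.Agent.Lib.SLH

open Finset Pool.Agent.Lib.EH3 Pool.Agent.Lib.TB Pool.Agent.Results.MP_00e23e_nt Pool.Agent.Lib.MI

/-- Module Pair (theorem tPair : SLG.LfiStmt → SLG.LtrStmt → PhHStmt → PairStmt; the bound of a pair).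
Proof. C1, A1 from LfiStmt k; Wk = (2^k)^(2^k), C = 64 (C1 + 1) (Wk + 1), A = A1. Su for both from SuK_Su, SuK_Su'. PhHStmt: if Fp conj Fp' = 0 everywhere the sum is 0. Otherwise B = ρ g [q, q'], with the bounds there. Let cq = gcd(q, q'), Q = q = r/ρ, q' = r'/ρ (ρ r = ρ r' by KyK), u = gcd(Θ, ρ) ≥ 1, cq ≥ 1.
Numbers: (n1) N^2/B ≤ 2 N^2 R0 cq/(g R^2): B cq = ρ g q q' = r g q' and q' R0 2 ≥ ρ r'/ρ r.. = r' > R (ρ ≤ 2 R0), r > R: B cq 2 R0 ≥ g R^2. (n2) B ≤ 4 R^2 g/R0, so W^2 B ≤ N^2 and 2 B ≤ N^2 (W ≥ C ≥ 2). (n3) 8 N B ≤ 64 R^2 S N ≤ (2 R S^2 N H)^12 ≤ X (g ≤ 2 S since g ∣ s1).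
Case u > W: Ltr (‖t1g t1g‖ ≤ 1) 16 N^2/B + t0 ≤ 32 (N^2 R0 cq/(g R^2)) (u/W) + t0. Case u ≤ W: Gs = product of the primes ≤ 2^k of Go (≤ Wk), Go = Go1 Gs, Y1 = Y Gs: LfiStmt with Go1, Y1. Y ≤ u g cq 16 V^4 H^2 (Y divides it, it is not 0). Z^2 ≤ Go1: Go1 Y1 = B ≥ ρ g cq ([q,q'] ≥ cq), so Go1 ≥ ρ g cq/(Wk W g cq 16 V^4 H^2) ≥ R0/(16 Wk W V^4 H^2)
≥ C (Zy)^2 W^2 g V^4 H^2/(16 Wk W V^4 H^2) ≥ Z^2. C1 (Z y) (W Y1) ≤ C1 Z y W Wk W g cq 16 V^4 H^2 ≤ N, since cq ≤ q ≤ 2R/R0, R ≤ N and 32 C1 Wk (Z y)^2 W^2 g V^4 H^2 ≤ R0. C1 (Z y)^2 ≤ W. B w1 w2 = B (g w1) (g w2)/g^2 ≤ (4 R^2 g/R0) (4 S V)^2/g^2 ≤ 64 (R S V)^2/R0 ≤ (W/(C Z y))^k ≤ (W/(C1 Z y))^k.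
The primes of B w1 w2 divide r s1 r' s1' r s2 r' s2', so they are ≤ y. -/
def PairStmt : Prop := ∀ k : ℕ, ∃ C : ℝ, 1 ≤ C ∧ ∃ A : ℕ, ∀ (X T W Z y Δ : ℝ) (a : ℕ → ℕ → ℤ) (b : ℕ → ℕ → ℕ → ℤ)
    (ρ : ℕ → ℕ) (v col : ℕ → ℕ → ℕ) (K g R S N H R0 V t0 : ℕ) (h h' : ℤ) (r s1 s2 r' s1' s2' : ℕ), Tau X T →
  (2 * (R : ℝ) * (S : ℝ) ^ 2 * N * H) ^ 12 ≤ X → 1 ≤ g → 1 ≤ R → 1 ≤ S → 1 ≤ N → 1 ≤ H → 1 ≤ R0 → 1 ≤ V → R0 ≤ R →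
  V ≤ S → R ≤ N → 1 ≤ t0 → 1 ≤ Z → 1 ≤ y → 0 < Δ → 1 ≤ Z * Δ ^ (2 ^ (k + 1)) → h ≠ 0 → h' ≠ 0 → |h| ≤ (H : ℤ) →
  |h'| ≤ (H : ℤ) → SL.SuK a b ρ v col K g R0 V R S N r s1 s2 → SL.SuK a b ρ v col K g R0 V R S N r' s1' s2' →
  SL.KyK ρ v col r s1 s2 = SL.KyK ρ v col r' s1' s2' → SL.Th ρ v h h' r s1 s2 r' s1' s2' ≠ 0 →
  Nat.gcd s1 s2 = g → Nat.gcd s1' s2' = g → (∀ p : ℕ, p.Prime → p ∣ r * s1 * s2 → (p : ℝ) ≤ y) →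
  (∀ p : ℕ, p.Prime → p ∣ r' * s1' * s2' → (p : ℝ) ≤ y) →
  4 * W ^ 2 * (R : ℝ) ^ 2 * g ≤ R0 * (N : ℝ) ^ 2 →
  C * (Z * y) ^ 2 * (W ^ 2 * (g * (V : ℝ) ^ 4 * (H : ℝ) ^ 2)) ≤ R0 → C * (Z * y) ^ 2 ≤ W →
  64 * ((R : ℝ) * S * V) ^ 2 ≤ (R0 : ℝ) * (W / (C * (Z * y))) ^ k →
  ‖∑ n1 ∈ Ioc N (2 * N), ∑ n2 ∈ Ioc N (2 * N), (if Nat.gcd n1 n2 ≤ t0 then
    SL.Fp a g h r s1 s2 n1 n2 * (starRingEnd ℂ) (SL.Fp a g h' r' s1' s2' n1 n2) else 0)‖ ≤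
    C * T ^ A * ((N : ℝ) ^ 2 * R0 / (g * (R : ℝ) ^ 2) * (Δ + 1 / t0 + 1 / W) + t0) *
      (Int.gcd (SL.Th ρ v h h' r s1 s2 r' s1' s2') (ρ r) : ℝ) * (Nat.gcd (r / ρ r) (r' / ρ r') : ℝ)

end Pool.Agent.Lib.SLH
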