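import Pool.Agent.Lib.SLH.DefP

set_option autoImplicit false

namespace Pool.Agent.Lib.SLH

open Finset Pool.Agent.Lib.EH3 Pool.Agent.Lib.TB Pool.Agent.Results.MP_00e23e_nt Pool.Agent.Lib.MI

private lemma Pair_split (k Go : ℕ) (hsq : Squarefree Go) : ∃ Gs Go1 : ℕ, Go = Go1 * Gs ∧ 1 ≤ Gs ∧
    Gs ≤ (2 ^ k) ^ (2 ^ k) ∧ ∀ p : ℕ, p.Prime → p ∣ Go1 → 2 ^ k < p ∧ p ∣ Go := by
  classical
  refine ⟨∏ p ∈ Go.primeFactors.filter (fun p => p ≤ 2 ^ k), p,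
    ∏ p ∈ Go.primeFactors.filter (fun p => ¬ p ≤ 2 ^ k), p, ?_, ?_, ?_, ?_⟩
  · rw [mul_comm, Finset.prod_filter_mul_prod_filter_not, Nat.prod_primeFactors_of_squarefree hsq]
  · apply Nat.one_le_iff_ne_zero.2
    apply Finset.prod_ne_zero_iff.2
    intro p hp
    exact (Nat.prime_of_mem_primeFactors (Finset.mem_filter.1 hp).1).ne_zero
  · have h1 : ∏ p ∈ Go.primeFactors.filter (fun p => p ≤ 2 ^ k), p ≤
        (2 ^ k) ^ (Go.primeFactors.filter (fun p => p ≤ 2 ^ k)).card := by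
      apply Finset.prod_le_pow_card
      intro p hp
      exact (Finset.mem_filter.1 hp).2
    have h2 : (Go.primeFactors.filter (fun p => p ≤ 2 ^ k)).card ≤ 2 ^ k := by
      have h3 : Go.primeFactors.filter (fun p => p ≤ 2 ^ k) ⊆ Finset.Icc 1 (2 ^ k) := by
        intro p hp
        rw [Finset.mem_filter] at hp
        rw [Finset.mem_Icc]
        exact ⟨(Nat.prime_of_mem_primeFactors hp.1).one_le, hp.2⟩
      calc _ ≤ (Finset.Icc 1 (2 ^ k)).card := Finset.card_le_card h3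
        _ = 2 ^ k := by simp
    exact h1.trans (Nat.pow_le_pow_right Nat.one_le_two_pow h2)
  · intro p hp hd
    rw [Prime.dvd_finsetProd_iff hp.prime] at hd
    obtain ⟨q, hq, hpq⟩ := hd
    rw [Finset.mem_filter] at hq
    have hqp := Nat.prime_of_mem_primeFactors hq.1
    have hpe : p = q := (Nat.prime_dvd_prime_iff_eq hp hqp).1 hpq
    subst hpe
    exact ⟨not_le.1 hq.2, Nat.dvd_of_mem_primeFactors hq.1⟩

/-- the size of B from below -/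
private lemma Pair_n1 (R g R0 q q' ρ B : ℕ) (hB : B = ρ * (g * Nat.lcm q q')) (h1 : R < ρ * q)
    (h2 : R < ρ * q') (h3 : ρ ≤ 2 * R0) : g * R ^ 2 ≤ 2 * R0 * Nat.gcd q q' * B := by
  have e1 : Nat.gcd q q' * Nat.lcm q q' = q * q' := Nat.gcd_mul_lcm q q'
  calc g * R ^ 2 = g * (R * R) := by ring
    _ ≤ g * ((ρ * q) * (ρ * q')) := Nat.mul_le_mul_left _ (Nat.mul_le_mul h1.le h2.le)
    _ = ρ * (ρ * g * (q * q')) := by ring
    _ ≤ 2 * R0 * (ρ * g * (q * q')) := Nat.mul_le_mul_right _ h3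
    _ = 2 * R0 * Nat.gcd q q' * B := by
      rw [hB, ← e1]
      ring

private lemma Pair_n1r (N R g R0 cq B : ℝ) (hR : 0 < R) (hg : 0 < g) (hB : 0 < B)
    (h : g * R ^ 2 ≤ 2 * R0 * cq * B) : N ^ 2 / B ≤ 2 * (N ^ 2 * R0 / (g * R ^ 2)) * cq := by
  have hgR : 0 < g * R ^ 2 := by positivity
  rw [div_le_iff₀ hB]
  have e : 2 * (N ^ 2 * R0 / (g * R ^ 2)) * cq * B = N ^ 2 * (2 * R0 * cq * B) / (g * R ^ 2) := by
    field_simp
  rw [e, le_div_iff₀ hgR]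
  exact mul_le_mul_of_nonneg_left h (by positivity)

private lemma Pair_fin1 (C TA P cq u W Δ t0 x E : ℝ) (hC : 32 ≤ C) (hTA : 1 ≤ TA) (hP : 0 ≤ P) (hcq : 1 ≤ cq)
    (hu : W < u) (hu1 : 1 ≤ u) (hW : 0 < W) (hΔ : 0 < Δ) (ht : 1 ≤ t0) (hE : E ≤ 2 * P * cq)
    (hx : x ≤ 16 * E + t0) : x ≤ C * TA * (P * (Δ + 1 / t0 + 1 / W) + t0) * u * cq := by
  have h1 : 1 ≤ u / W := by
    rw [le_div_iff₀ hW]
    linarith
  have h2 : P * (1 / W) ≤ P * (Δ + 1 / t0 + 1 / W) := by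
    apply mul_le_mul_of_nonneg_left _ hP
    have h3 : 0 ≤ 1 / t0 := by positivity
    linarith
  have h4 : (P * (1 / W) + t0) * u * cq ≤ (P * (Δ + 1 / t0 + 1 / W) + t0) * u * cq := by
    apply mul_le_mul_of_nonneg_right _ (by linarith)
    apply mul_le_mul_of_nonneg_right _ (by linarith)
    linarith
  have h5 : P * cq + t0 ≤ (P * (1 / W) + t0) * u * cq := by
    have e : (P * (1 / W) + t0) * u * cq = P * (u / W) * cq + t0 * (u * cq) := by ring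
    rw [e]
    have h6 : P * 1 ≤ P * (u / W) := mul_le_mul_of_nonneg_left h1 hP
    have h7 : P * cq ≤ P * (u / W) * cq := by
      apply mul_le_mul_of_nonneg_right _ (by linarith)
      linarith
    have h8 : 1 ≤ u * cq := by nlinarith
    have h9 : t0 * 1 ≤ t0 * (u * cq) := mul_le_mul_of_nonneg_left h8 (by linarith)
    linarith
  have h10 : 1 ≤ TA := hTA
  have h11 : 32 * 1 ≤ C * TA := mul_le_mul hC hTA (by norm_num) (by linarith)
  have h12 : 0 ≤ (P * (Δ + 1 / t0 + 1 / W) + t0) * u * cq := by positivity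
  have h13 : 0 ≤ P * cq := by positivity
  calc x ≤ 32 * (P * cq + t0) := by nlinarith
    _ ≤ 32 * ((P * (Δ + 1 / t0 + 1 / W) + t0) * u * cq) := by linarith
    _ ≤ (C * TA) * ((P * (Δ + 1 / t0 + 1 / W) + t0) * u * cq) := by
      apply mul_le_mul_of_nonneg_right _ h12
      linarith
    _ = _ := by ring

private lemma Pair_fin2 (C C1 TA P cq u W Δ t0 x E : ℝ) (hC1 : 1 ≤ C1) (hC : 2 * C1 ≤ C) (hTA : 1 ≤ TA) (hP : 0 ≤ P)
    (hcq : 1 ≤ cq) (hu1 : 1 ≤ u) (hW : 0 < W) (hΔ : 0 < Δ) (ht : 1 ≤ t0) (hE : E ≤ 2 * P * cq)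
    (hx : x ≤ C1 * TA * (E * (Δ + 1 / t0 + 1 / W) + t0)) :
    x ≤ C * TA * (P * (Δ + 1 / t0 + 1 / W) + t0) * u * cq := by
  have hs : 0 < Δ + 1 / t0 + 1 / W := by positivity
  set s := Δ + 1 / t0 + 1 / W with hsd
  have h1 : E * s ≤ 2 * P * cq * s := mul_le_mul_of_nonneg_right hE hs.le
  have h2 : E * s + t0 ≤ 2 * ((P * s + t0) * cq) := by nlinarith
  have h3 : 0 ≤ (P * s + t0) * cq := by positivity
  calc x ≤ C1 * TA * (E * s + t0) := hx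
    _ ≤ C1 * TA * (2 * ((P * s + t0) * cq)) := mul_le_mul_of_nonneg_left h2 (by positivity)
    _ = (2 * C1) * (TA * ((P * s + t0) * cq)) := by ring
    _ ≤ C * (TA * ((P * s + t0) * cq)) := mul_le_mul_of_nonneg_right hC (by positivity)
    _ = C * TA * (P * s + t0) * 1 * cq := by ring
    _ ≤ C * TA * (P * s + t0) * u * cq := by
      have hC0 : 0 < C := by linarith
      apply mul_le_mul_of_nonneg_right _ (by linarith)
      apply mul_le_mul_of_nonneg_left hu1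
      positivity

/-- Z^2 ≤ Go1 -/
private lemma Pair_zz (C Wk Z y W g V H R0 cq u Go1 Y1 B : ℝ) (hWk : 1 ≤ Wk) (hC : 16 * Wk ≤ C) (hZ : 1 ≤ Z)
    (hy : 1 ≤ y) (hW : 1 ≤ W) (hg : 1 ≤ g) (hV : 1 ≤ V) (hH : 1 ≤ H) (hcq : 1 ≤ cq) (hu : u ≤ W)
    (hY1 : 0 < Y1) (hB : B = Go1 * Y1) (hBl : R0 * (g * cq) ≤ B)
    (hYb : Y1 ≤ Wk * (16 * (V ^ 4 * H ^ 2)) * (u * (g * cq)))
    (h2 : C * (Z * y) ^ 2 * (W ^ 2 * (g * V ^ 4 * H ^ 2)) ≤ R0) : Z ^ 2 ≤ Go1 := by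
  have hC0 : 0 < C := by linarith
  by_contra hlt
  push Not at hlt
  have hgc : 0 < g * cq := by positivity
  have hVH : 0 < V ^ 4 * H ^ 2 := by positivity
  have h3 : B < Z ^ 2 * Y1 := by
    rw [hB]
    exact mul_lt_mul_of_pos_right hlt hY1
  have h4 : Z ^ 2 * Y1 ≤ Z ^ 2 * (Wk * (16 * (V ^ 4 * H ^ 2)) * (W * (g * cq))) := by
    apply mul_le_mul_of_nonneg_left _ (by positivity)
    refine hYb.trans ?_
    apply mul_le_mul_of_nonneg_left _ (by positivity)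
    exact mul_le_mul_of_nonneg_right hu hgc.le
  have h5 : R0 * (g * cq) < (16 * Wk * Z ^ 2 * W * (V ^ 4 * H ^ 2)) * (g * cq) := by
    calc R0 * (g * cq) < Z ^ 2 * (Wk * (16 * (V ^ 4 * H ^ 2)) * (W * (g * cq))) := by linarith
      _ = _ := by ring
  have h6 : R0 < 16 * Wk * Z ^ 2 * W * (V ^ 4 * H ^ 2) := lt_of_mul_lt_mul_right h5 hgc.le
  have h7 : 16 * Wk * Z ^ 2 * W * (V ^ 4 * H ^ 2) ≤ C * (Z * y) ^ 2 * (W ^ 2 * (g * V ^ 4 * H ^ 2)) := by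
    have a1 : Z ^ 2 ≤ (Z * y) ^ 2 := by
      apply pow_le_pow_left₀ (by linarith)
      nlinarith
    have a2 : W * 1 ≤ W ^ 2 * g := by
      have : W ≤ W ^ 2 := by nlinarith
      exact mul_le_mul this hg (by norm_num) (by positivity)
    have a3 : 16 * Wk * Z ^ 2 ≤ C * (Z * y) ^ 2 := mul_le_mul hC a1 (by positivity) (by linarith)
    have a4 : 16 * Wk * Z ^ 2 * (W * 1) ≤ C * (Z * y) ^ 2 * (W ^ 2 * g) :=
      mul_le_mul a3 a2 (by positivity) (by positivity)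
    calc 16 * Wk * Z ^ 2 * W * (V ^ 4 * H ^ 2) = 16 * Wk * Z ^ 2 * (W * 1) * (V ^ 4 * H ^ 2) := by ring
      _ ≤ C * (Z * y) ^ 2 * (W ^ 2 * g) * (V ^ 4 * H ^ 2) := mul_le_mul_of_nonneg_right a4 hVH.le
      _ = _ := by ring
  linarith

/-- C1 (Z y) (W Y1) ≤ N -/
private lemma Pair_wy (C C1 Wk Z y W g V H R0 R N cq u Y1 : ℝ) (hWk : 1 ≤ Wk) (hC1 : 1 ≤ C1) (hC : 32 * C1 * Wk ≤ C)
    (hZ : 1 ≤ Z) (hy : 1 ≤ y) (hW : 1 ≤ W) (hg : 1 ≤ g) (hV : 1 ≤ V) (hH : 1 ≤ H) (hcq : 1 ≤ cq)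
    (hu : u ≤ W) (hYb : Y1 ≤ Wk * (16 * (V ^ 4 * H ^ 2)) * (u * (g * cq))) (hcR : cq * R0 ≤ 2 * R) (hRN : R ≤ N)
    (h2 : C * (Z * y) ^ 2 * (W ^ 2 * (g * V ^ 4 * H ^ 2)) ≤ R0) : C1 * (Z * y) * (W * Y1) ≤ N := by
  have hgc : 0 < g * cq := by positivity
  have hVH : 0 < V ^ 4 * H ^ 2 := by positivity
  have hZy : 1 ≤ Z * y := by nlinarith
  have h4 : Y1 ≤ Wk * (16 * (V ^ 4 * H ^ 2)) * (W * (g * cq)) := by
    refine hYb.trans ?_
    apply mul_le_mul_of_nonneg_left _ (by positivity)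
    exact mul_le_mul_of_nonneg_right hu hgc.le
  have h5 : C1 * (Z * y) * (W * Y1) ≤ C1 * (Z * y) * (W * (Wk * (16 * (V ^ 4 * H ^ 2)) * (W * (g * cq)))) := by
    apply mul_le_mul_of_nonneg_left _ (by positivity)
    exact mul_le_mul_of_nonneg_left h4 (by linarith)
  have h6 : 2 * (C1 * (Z * y) * (W * (Wk * (16 * (V ^ 4 * H ^ 2)) * (W * (g * cq))))) ≤ R0 * cq := by
    calc 2 * (C1 * (Z * y) * (W * (Wk * (16 * (V ^ 4 * H ^ 2)) * (W * (g * cq)))))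
        = (32 * C1 * Wk) * (Z * y) * (W ^ 2 * (g * V ^ 4 * H ^ 2)) * cq := by ring
      _ ≤ C * (Z * y) ^ 2 * (W ^ 2 * (g * V ^ 4 * H ^ 2)) * cq := by
        apply mul_le_mul_of_nonneg_right _ (by linarith)
        apply mul_le_mul_of_nonneg_right _ (by positivity)
        apply mul_le_mul hC _ (by positivity) (by nlinarith)
        nlinarith
      _ ≤ R0 * cq := mul_le_mul_of_nonneg_right h2 (by linarith)
  nlinarith

/-- B w1 w2 ≤ (W/(C1 Z y))^k -/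
private lemma Pair_bw (k : ℕ) (C C1 Z y W g V R0 R S B w1 w2 : ℝ) (hC1 : 1 ≤ C1) (hC : C1 ≤ C)
    (hZ : 1 ≤ Z) (hy : 1 ≤ y) (hW : 1 ≤ W) (hg : 1 ≤ g) (hR0 : 1 ≤ R0) (hB0 : 0 ≤ B) (hw1 : 0 ≤ w1)
    (hw2 : 0 ≤ w2) (hg1 : g * w1 ≤ 4 * S * V) (hg2 : g * w2 ≤ 4 * S * V) (hBR : B * R0 ≤ 4 * R ^ 2 * g)
    (h4 : 64 * (R * S * V) ^ 2 ≤ R0 * (W / (C * (Z * y))) ^ k) : B * w1 * w2 ≤ (W / (C1 * (Z * y))) ^ k := by
  have hZy : 1 ≤ Z * y := by nlinarith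
  have hC0 : 0 < C := by linarith
  have h1 : (g * w1) * (g * w2) ≤ (4 * S * V) * (4 * S * V) :=
    mul_le_mul hg1 hg2 (by positivity) (le_trans (by positivity) hg1)
  have h2 : (B * R0) * ((g * w1) * (g * w2)) ≤ (4 * R ^ 2 * g) * ((4 * S * V) * (4 * S * V)) :=
    mul_le_mul hBR h1 (by positivity) (le_trans (by positivity) hBR)
  have h3 : g * (R0 * (g * (B * w1 * w2))) ≤ g * (64 * (R * S * V) ^ 2) := by
    calc g * (R0 * (g * (B * w1 * w2))) = (B * R0) * ((g * w1) * (g * w2)) := by ring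
      _ ≤ _ := h2
      _ = _ := by ring
  have h5 : R0 * (g * (B * w1 * w2)) ≤ 64 * (R * S * V) ^ 2 := le_of_mul_le_mul_left h3 (by linarith)
  have h6 : g * (B * w1 * w2) ≤ (W / (C * (Z * y))) ^ k := le_of_mul_le_mul_left (h5.trans h4) (by linarith)
  have h7 : 0 ≤ B * w1 * w2 := by positivity
  have h8 : B * w1 * w2 ≤ g * (B * w1 * w2) := by nlinarith
  refine (h8.trans h6).trans ?_
  apply pow_le_pow_left₀ (by positivity)
  apply div_le_div_of_nonneg_left (by linarith) (by positivity)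
  exact mul_le_mul_of_nonneg_right hC (by linarith)

/-- 8 N B ≤ X -/
private lemma Pair_x (N R S H g R0 B X : ℝ) (hN : 1 ≤ N) (hR : 1 ≤ R) (hS : 1 ≤ S) (hH : 1 ≤ H) (hR0 : 1 ≤ R0)
    (hB : 0 ≤ B) (hgS : g ≤ 2 * S) (hBR : B * R0 ≤ 4 * R ^ 2 * g) (hX : (2 * R * S ^ 2 * N * H) ^ 12 ≤ X) :
    8 * N * B ≤ X := by
  have a1 : B ≤ 8 * R ^ 2 * S := by
    calc B = B * 1 := by ring
      _ ≤ B * R0 := mul_le_mul_of_nonneg_left hR0 hB
      _ ≤ 4 * R ^ 2 * g := hBR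
      _ ≤ 4 * R ^ 2 * (2 * S) := mul_le_mul_of_nonneg_left hgS (by positivity)
      _ = _ := by ring
  have hRSN : R * S * N * 2 ≤ 2 * R * S ^ 2 * N * H := by
    have b1 : S ≤ S ^ 2 := by nlinarith
    calc R * S * N * 2 = 2 * R * S * N * 1 := by ring
      _ ≤ 2 * R * S ^ 2 * N * H := by
        apply mul_le_mul _ hH (by norm_num) (by positivity)
        apply mul_le_mul_of_nonneg_right _ (by linarith)
        exact mul_le_mul_of_nonneg_left b1 (by positivity)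
  set Q : ℝ := 2 * R * S ^ 2 * N * H with hQd
  have hQ2 : 2 ≤ Q := by
    have b1 : (1 : ℝ) ≤ R * S * N := one_le_mul_of_one_le_of_one_le (one_le_mul_of_one_le_of_one_le hR hS) hN
    linarith
  have a2 : 8 * N * B ≤ 16 * Q ^ 2 := by
    have b1 : (R * S * N * 2) ^ 2 ≤ Q ^ 2 := pow_le_pow_left₀ (by positivity) hRSN 2
    have b2 : R ^ 2 * S * N ≤ (R * S * N) ^ 2 := by
      have b3 : S * N ≤ (S * N) ^ 2 := by
        have : (1 : ℝ) ≤ S * N := one_le_mul_of_one_le_of_one_le hS hN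
        nlinarith
      calc R ^ 2 * S * N = R ^ 2 * (S * N) := by ring
        _ ≤ R ^ 2 * (S * N) ^ 2 := mul_le_mul_of_nonneg_left b3 (by positivity)
        _ = _ := by ring
    calc 8 * N * B ≤ 8 * N * (8 * R ^ 2 * S) := mul_le_mul_of_nonneg_left a1 (by positivity)
      _ = 16 * (4 * (R ^ 2 * S * N)) := by ring
      _ ≤ 16 * (4 * (R * S * N) ^ 2) := by linarith
      _ = 16 * (R * S * N * 2) ^ 2 := by ring
      _ ≤ 16 * Q ^ 2 := by linarith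
  have a3 : 16 * Q ^ 2 ≤ Q ^ 12 := by
    have b1 : (2 : ℝ) ^ 4 ≤ Q ^ 10 := by
      calc (2 : ℝ) ^ 4 ≤ 2 ^ 10 := by norm_num
        _ ≤ Q ^ 10 := pow_le_pow_left₀ (by norm_num) hQ2 10
    calc 16 * Q ^ 2 = 2 ^ 4 * Q ^ 2 := by norm_num
      _ ≤ Q ^ 10 * Q ^ 2 := mul_le_mul_of_nonneg_right b1 (by positivity)
      _ = Q ^ 12 := by ring
  linarith

/-- the primes of B w1 w2 -/
private lemma Pair_pr (y : ℝ) (B w1 w2 r s1 s2 r' s1' s2' : ℕ) (hB1 : B * w1 = Nat.lcm (r * s1) (r' * s1'))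
    (hB2 : B * w2 = Nat.lcm (r * s2) (r' * s2')) (py : ∀ p : ℕ, p.Prime → p ∣ r * s1 * s2 → (p : ℝ) ≤ y)
    (py' : ∀ p : ℕ, p.Prime → p ∣ r' * s1' * s2' → (p : ℝ) ≤ y) :
    ∀ p : ℕ, p.Prime → p ∣ B * w1 * w2 → (p : ℝ) ≤ y := by
  intro p hp hd
  have a0 : p ∣ r * s1 * s2 ∨ p ∣ r' * s1' * s2' := by
    rcases (Nat.Prime.dvd_mul hp).1 hd with hd1 | hd1
    · rw [hB1] at hd1
      have a1 : p ∣ (r * s1) * (r' * s1') := hd1.trans (Nat.lcm_dvd_mul _ _)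
      rcases (Nat.Prime.dvd_mul hp).1 a1 with a2 | a2
      · exact Or.inl (Dvd.dvd.mul_right a2 _)
      · exact Or.inr (Dvd.dvd.mul_right a2 _)
    · have a1 : p ∣ (r * s2) * (r' * s2') := by
        have a3 : p ∣ B * w2 := Dvd.dvd.mul_left hd1 _
        rw [hB2] at a3
        exact a3.trans (Nat.lcm_dvd_mul _ _)
      rcases (Nat.Prime.dvd_mul hp).1 a1 with a2 | a2
      · left
        have e : r * s1 * s2 = r * s2 * s1 := by ring
        rw [e]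
        exact Dvd.dvd.mul_right a2 _
      · right
        have e : r' * s1' * s2' = r' * s2' * s1' := by ring
        rw [e]
        exact Dvd.dvd.mul_right a2 _
  rcases a0 with a0 | a0
  · exact py p hp a0
  · exact py' p hp a0

/-- the bound of Y -/
private lemma Pair_yb (V H u g cq Y a b c d : ℕ) (h h' : ℤ) (hu : 1 ≤ u) (hg : 1 ≤ g) (hcq : 1 ≤ cq)
    (hh : h ≠ 0) (hh' : h' ≠ 0) (hhH : |h| ≤ (H : ℤ)) (hhH' : |h'| ≤ (H : ℤ)) (ha : V < a ∧ a ≤ 2 * V)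
    (hb : V < b ∧ b ≤ 2 * V) (hc : V < c ∧ c ≤ 2 * V) (hd : V < d ∧ d ≤ 2 * V)
    (hY : Y ∣ u * (g * cq) * (a * b * (c * d)) * (h.natAbs * h'.natAbs)) :
    (Y : ℝ) ≤ (16 * ((V : ℝ) ^ 4 * (H : ℝ) ^ 2)) * (u * (g * cq)) := by
  have hYle : Y ≤ u * (g * cq) * ((2 * V) * (2 * V) * ((2 * V) * (2 * V))) * (H * H) := by
    have a1 : Y ≤ u * (g * cq) * (a * b * (c * d)) * (h.natAbs * h'.natAbs) := by
      apply Nat.le_of_dvd _ hY
      have b1 : 0 < h.natAbs := Int.natAbs_pos.2 hh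
      have b2 : 0 < h'.natAbs := Int.natAbs_pos.2 hh'
      have b3 : 0 < a := by omega
      have b4 : 0 < b := by omega
      have b5 : 0 < c := by omega
      have b6 : 0 < d := by omega
      positivity
    have a2 : h.natAbs ≤ H := by
      have a4 : (h.natAbs : ℤ) ≤ H := by
        rw [Int.natCast_natAbs]
        exact hhH
      exact_mod_cast a4
    have a3 : h'.natAbs ≤ H := by
      have a4 : (h'.natAbs : ℤ) ≤ H := by
        rw [Int.natCast_natAbs]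
        exact hhH'
      exact_mod_cast a4
    refine a1.trans ?_
    apply Nat.mul_le_mul _ (Nat.mul_le_mul a2 a3)
    apply Nat.mul_le_mul_left
    exact Nat.mul_le_mul (Nat.mul_le_mul ha.2 hb.2) (Nat.mul_le_mul hc.2 hd.2)
  have a1 : (Y : ℝ) ≤ ((u * (g * cq) * ((2 * V) * (2 * V) * ((2 * V) * (2 * V))) * (H * H) : ℕ) : ℝ) := by
    exact_mod_cast hYle
  refine a1.trans (le_of_eq ?_)
  push_cast
  ring

/-- Module Pair: the bound of a pair. -/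
theorem tPair (h1 : SLG.LfiStmt) (h2 : SLG.LtrStmt) (h3 : PhHStmt) : PairStmt := by
  intro k
  obtain ⟨C1, hC1, A1, hL⟩ := h1 k
  set Wk : ℝ := ((2 : ℝ) ^ k) ^ (2 ^ k) with hWkd
  have hWk : 1 ≤ Wk := by
    rw [hWkd]
    exact one_le_pow₀ (one_le_pow₀ (by norm_num))
  have hCa : 32 * C1 * Wk ≤ 64 * (C1 + 1) * (Wk + 1) := by nlinarith
  have hCb : 16 * Wk ≤ 64 * (C1 + 1) * (Wk + 1) := by nlinarith
  have hCc : 32 ≤ 64 * (C1 + 1) * (Wk + 1) := by nlinarith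
  have hCd : 2 * C1 ≤ 64 * (C1 + 1) * (Wk + 1) := by nlinarith
  generalize 64 * (C1 + 1) * (Wk + 1) = C at hCa hCb hCc hCd
  refine ⟨C, by linarith, A1, ?_⟩
  intro X T W Z y Δ a b ρ v col K g R S N H R0 V t0 h h' r s1 s2 r' s1' s2' hT hX hg hR hS hN hH hR0 hV hR0R
    hVS hRN ht0 hZ hy hΔ hZΔ hh hh' hhH hhH' su su' ky th gs gs' py py' e1 e2 e3 e4
  have hZy : 1 ≤ Z * y := by nlinarith
  have hW2 : 32 ≤ W := by
    have : 32 * 1 ≤ C * (Z * y) ^ 2 := mul_le_mul hCc (one_le_pow₀ hZy) (by norm_num) (by linarith)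
    linarith
  have hT1 : 1 ≤ T := hT.1
  have hTA : 1 ≤ T ^ A1 := one_le_pow₀ hT1
  have hgr : (1 : ℝ) ≤ g := by exact_mod_cast hg
  have hRr : (1 : ℝ) ≤ R := by exact_mod_cast hR
  have hSr : (1 : ℝ) ≤ S := by exact_mod_cast hS
  have hNr : (1 : ℝ) ≤ N := by exact_mod_cast hN
  have hHr : (1 : ℝ) ≤ H := by exact_mod_cast hH
  have hR0r : (1 : ℝ) ≤ R0 := by exact_mod_cast hR0
  have hVr : (1 : ℝ) ≤ V := by exact_mod_cast hV
  have ht0r : (1 : ℝ) ≤ t0 := by exact_mod_cast ht0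
  have hRNr : (R : ℝ) ≤ N := by exact_mod_cast hRN
  -- the sizes
  obtain ⟨⟨hr1, hr2⟩, ⟨hs1, hs1u⟩, hs2, ⟨hρd, hρ1, hρ2⟩, ⟨hv1d, hv1, hv1u⟩, ⟨hv2d, hv2, hv2u⟩, hc1, hc2, hnd⟩ := id su
  obtain ⟨⟨hr1', hr2'⟩, hs1', hs2', ⟨hρd', hρ1', hρ2'⟩, ⟨hv1d', hv1', hv1u'⟩, ⟨hv2d', hv2', hv2u'⟩, hc1', hc2', hnd'⟩ :=
    id su'
  have hρρ : ρ r = ρ r' := by
    simp only [SL.KyK, Prod.mk.injEq] at ky
    exact ky.1
  obtain ⟨q, hq⟩ := hρd
  obtain ⟨q', hq'⟩ := hρd'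
  have hρ0 : 0 < ρ r := by omega
  have hqd : r / ρ r = q := Nat.div_eq_of_eq_mul_right hρ0 hq
  have hqd' : r' / ρ r' = q' := Nat.div_eq_of_eq_mul_right (by omega) hq'
  have hq0 : 0 < q := by
    rcases Nat.eq_zero_or_pos q with h0 | h0
    · rw [h0] at hq
      omega
    · exact h0
  have hq0' : 0 < q' := by
    rcases Nat.eq_zero_or_pos q' with h0 | h0
    · rw [h0] at hq'
      omega
    · exact h0
  -- u and cq
  have hu1 : 1 ≤ Int.gcd (SL.Th ρ v h h' r s1 s2 r' s1' s2') (ρ r) :=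
    Nat.one_le_iff_ne_zero.2 (fun h0 => th (Int.gcd_eq_zero_iff.1 h0).1)
  have hcq1 : 1 ≤ Nat.gcd (r / ρ r) (r' / ρ r') := by
    rw [hqd, hqd']
    exact Nat.gcd_pos_of_pos_left _ hq0
  set u : ℕ := Int.gcd (SL.Th ρ v h h' r s1 s2 r' s1' s2') (ρ r) with hud
  set cq : ℕ := Nat.gcd (r / ρ r) (r' / ρ r') with hcqd
  have hur : (1 : ℝ) ≤ u := by exact_mod_cast hu1
  have hcqr : (1 : ℝ) ≤ cq := by exact_mod_cast hcq1
  have hP : 0 ≤ (N : ℝ) ^ 2 * R0 / (g * (R : ℝ) ^ 2) := by positivity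
  have hsu := SL.SuK_Su su
  obtain ⟨hsu', hky⟩ := SL.SuK_Su' su' ky
  rcases h3 a (fun m u => b m u (col r s1)) (fun m u => b m u (col r s2)) ρ v g R0 V R S N h h' r s1 s2 r' s1' s2'
    hg hR0 hV hsu hsu' hky with hz | hz
  · have e0 : ∑ n1 ∈ Ioc N (2 * N), ∑ n2 ∈ Ioc N (2 * N), (if Nat.gcd n1 n2 ≤ t0 then
        SL.Fp a g h r s1 s2 n1 n2 * (starRingEnd ℂ) (SL.Fp a g h' r' s1' s2' n1 n2) else 0) = 0 := by
      apply Finset.sum_eq_zero
      intro n1 _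
      apply Finset.sum_eq_zero
      intro n2 _
      rw [hz n1 n2, ite_self]
    rw [e0, norm_zero]
    have hC0 : 0 ≤ C := by linarith
    have hW0 : 0 < W := by linarith
    positivity
  · obtain ⟨B, w1, w2, Go, Y, l, c1, c2, hB, hBw1, hBw2, sq1, sq2, hl, hw1, hw2, hgw1, hgw2, hRB, hBR0,
      ⟨hBG, hGo, hY⟩, hF⟩ := hz
    rw [← hcqd] at hY
    have hB0 : 0 < B := by omega
    have hBr : (0 : ℝ) < B := by exact_mod_cast hB0
    have hBr1 : (1 : ℝ) ≤ B := by exact_mod_cast hB0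
    -- the sum
    have eS : ∑ n1 ∈ Ioc N (2 * N), ∑ n2 ∈ Ioc N (2 * N), (if Nat.gcd n1 n2 ≤ t0 then
        SL.Fp a g h r s1 s2 n1 n2 * (starRingEnd ℂ) (SL.Fp a g h' r' s1' s2' n1 n2) else 0) =
        ∑ n1 ∈ Ioc N (2 * N), ∑ n2 ∈ Ioc N (2 * N), (if (B : ℤ) ∣ (n1 : ℤ) - l * n2 ∧ Nat.gcd n1 n2 ≤ t0 then
          t1g c1 (B * w1) n1 * t1g c2 w2 n2 else 0) := by
      apply Finset.sum_congr rfl
      intro n1 hn1
      apply Finset.sum_congr rfl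
      intro n2 hn2
      rw [Finset.mem_Ioc] at hn1 hn2
      rw [hF n1 n2 (by omega) (by omega)]
      by_cases c1' : Nat.gcd n1 n2 ≤ t0
      · by_cases c2' : (B : ℤ) ∣ (n1 : ℤ) - l * n2
        · rw [if_pos c1', if_pos c2', if_pos ⟨c2', c1'⟩]
        · rw [if_pos c1', if_neg c2', if_neg (fun hc => c2' hc.1)]
      · rw [if_neg c1', if_neg (fun hc => c1' hc.2)]
    rw [eS]
    -- N^2/B
    have hn1 : g * R ^ 2 ≤ 2 * R0 * cq * B := by
      rw [hcqd]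
      apply Pair_n1 R g R0 (r / ρ r) (r' / ρ r') (ρ r) B hB
      · rw [hqd, ← hq]
        exact hr1
      · rw [hqd', hρρ, ← hq']
        exact hr1'
      · exact hρ2
    have hE : (N : ℝ) ^ 2 / B ≤ 2 * ((N : ℝ) ^ 2 * R0 / (g * (R : ℝ) ^ 2)) * cq := by
      apply Pair_n1r _ _ _ _ _ _ (by linarith) (by linarith) hBr
      exact_mod_cast hn1
    have hBR0r : (B : ℝ) * R0 ≤ 4 * (R : ℝ) ^ 2 * g := by exact_mod_cast hBR0
    have hWB : W ^ 2 * (B : ℝ) ≤ (N : ℝ) ^ 2 := by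
      have h5 : (R0 : ℝ) * (W ^ 2 * B) ≤ R0 * (N : ℝ) ^ 2 := by
        calc (R0 : ℝ) * (W ^ 2 * B) = W ^ 2 * (B * R0) := by ring
          _ ≤ W ^ 2 * (4 * (R : ℝ) ^ 2 * g) := mul_le_mul_of_nonneg_left hBR0r (by positivity)
          _ = 4 * W ^ 2 * (R : ℝ) ^ 2 * g := by ring
          _ ≤ _ := e1
      exact le_of_mul_le_mul_left h5 (by linarith)
    rcases lt_or_ge W (u : ℝ) with huW | huW
    · -- the trivial bound
      have h2B : 2 * B ≤ N ^ 2 := by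
        have h6 : 2 * (B : ℝ) ≤ (N : ℝ) ^ 2 := by
          refine le_trans ?_ hWB
          apply mul_le_mul_of_nonneg_right _ hBr.le
          nlinarith
        exact_mod_cast h6
      have h7 := h2 B N t0 l (fun n1 n2 => t1g c1 (B * w1) n1 * t1g c2 w2 n2) hB0 hN h2B (by
        intro n1 n2
        rw [norm_mul]
        exact mul_le_one₀ (t1_norm_g _ _ _) (norm_nonneg _) (t1_norm_g _ _ _))
      apply Pair_fin1 C (T ^ A1) _ (cq : ℝ) (u : ℝ) W Δ (t0 : ℝ) _ ((N : ℝ) ^ 2 / B) hCc hTA hP hcqr huW hur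
        (by linarith) hΔ ht0r hE
      have h8 : 16 * ((N : ℝ) ^ 2 / B) + t0 = 16 * (N : ℝ) ^ 2 / (B : ℝ) + t0 := by ring
      rw [h8]
      exact h7
    · -- the main case
      have hGosq : Squarefree Go := by
        apply Squarefree.squarefree_of_dvd _ sq1
        rw [hBG, mul_assoc]
        exact Dvd.intro _ rfl
      obtain ⟨Gs, Go1, hGG, hGs1, hGs2, hGp⟩ := Pair_split k Go hGosq
      have hGsr : (Gs : ℝ) ≤ Wk := by
        rw [hWkd]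
        exact_mod_cast hGs2
      have hGs0 : (1 : ℝ) ≤ Gs := by exact_mod_cast hGs1
      have hBG1 : B = Go1 * (Y * Gs) := by
        rw [hBG, hGG]
        ring
      have hY0 : 0 < Y := by
        rcases Nat.eq_zero_or_pos Y with h0 | h0
        · rw [hBG, h0] at hB0
          simp at hB0
        · exact h0
      have hY1 : (0 : ℝ) < ((Y * Gs : ℕ) : ℝ) := by
        have : 0 < Y * Gs := Nat.mul_pos hY0 hGs1
        exact_mod_cast this
      -- the bound of Y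
      have hYr : (Y : ℝ) ≤ (16 * ((V : ℝ) ^ 4 * (H : ℝ) ^ 2)) * (u * (g * cq)) :=
        Pair_yb V H u g cq Y _ _ _ _ h h' hu1 hg hcq1 hh hh' hhH hhH' ⟨hv1, hv1u⟩ ⟨hv2, hv2u⟩ ⟨hv1', hv1u'⟩
          ⟨hv2', hv2u'⟩ hY
      have hYb : ((Y * Gs : ℕ) : ℝ) ≤ Wk * (16 * ((V : ℝ) ^ 4 * (H : ℝ) ^ 2)) * (u * (g * cq)) := by
        push_cast
        calc (Y : ℝ) * Gs ≤ ((16 * ((V : ℝ) ^ 4 * (H : ℝ) ^ 2)) * (u * (g * cq))) * Wk :=
            mul_le_mul hYr hGsr (by linarith) (by positivity)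
          _ = _ := by ring
      -- B from below
      have hBl : (R0 : ℝ) * (g * cq) ≤ B := by
        have a1 : R0 * (g * cq) ≤ B := by
          rw [hB]
          apply Nat.mul_le_mul hρ1.le
          apply Nat.mul_le_mul_left
          rw [hcqd]
          apply Nat.le_of_dvd
          · rw [hqd, hqd']
            exact Nat.lcm_pos hq0 hq0'
          · exact (Nat.gcd_dvd_left _ _).trans (Nat.dvd_lcm_left _ _)
        exact_mod_cast a1
      have e2' : C * (Z * y) ^ 2 * (W ^ 2 * ((g : ℝ) * (V : ℝ) ^ 4 * (H : ℝ) ^ 2)) ≤ R0 := by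
        exact e2
      have hBr2 : (B : ℝ) = (Go1 : ℝ) * ((Y * Gs : ℕ) : ℝ) := by
        rw [hBG1]
        push_cast
        ring
      have f1 : Z ^ 2 ≤ (Go1 : ℝ) :=
        Pair_zz C Wk Z y W g V H R0 cq u Go1 ((Y * Gs : ℕ) : ℝ) B hWk hCb hZ hy (by linarith) hgr hVr hHr hcqr
          huW hY1 hBr2 hBl hYb e2'
      have hcR : (cq : ℝ) * R0 ≤ 2 * R := by
        have a1 : cq * R0 ≤ 2 * R := by
          have a2 : cq ≤ q := by
            rw [hcqd, hqd]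
            exact Nat.le_of_dvd hq0 (Nat.gcd_dvd_left _ _)
          calc cq * R0 ≤ q * ρ r := Nat.mul_le_mul a2 hρ1.le
            _ = r := by rw [mul_comm]; exact hq.symm
            _ ≤ 2 * R := hr2
        exact_mod_cast a1
      have f2 : C1 * (Z * y) * (W * ((Y * Gs : ℕ) : ℝ)) ≤ N :=
        Pair_wy C C1 Wk Z y W g V H R0 R N cq u ((Y * Gs : ℕ) : ℝ) hWk hC1 hCa hZ hy (by linarith) hgr hVr hHr hcqr
          huW hYb hcR hRNr e2'
      have hCC1 : C1 ≤ C := by linarith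
      have f3 : C1 * (Z * y) ^ 2 ≤ W :=
        le_trans (mul_le_mul_of_nonneg_right hCC1 (by positivity)) e3
      have f4 : (B : ℝ) * w1 * w2 ≤ (W / (C1 * (Z * y))) ^ k := by
        apply Pair_bw k C C1 Z y W g V R0 R S B w1 w2 hC1 hCC1 hZ hy (by linarith) hgr hR0r hBr.le
          (Nat.cast_nonneg _) (Nat.cast_nonneg _) _ _ hBR0r e4
        · exact_mod_cast hgw1
        · exact_mod_cast hgw2
      have hgS : g ≤ 2 * S := by
        rw [← gs]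
        exact (Nat.le_of_dvd (by omega) (Nat.gcd_dvd_left _ _)).trans hs1u
      have hgSr : (g : ℝ) ≤ 2 * S := by exact_mod_cast hgS
      have f5 : 8 * (N : ℝ) * B ≤ X := Pair_x N R S H g R0 B X hNr hRr hSr hHr hR0r hBr.le hgSr hBR0r hX
      have f6 : ∀ p : ℕ, p.Prime → p ∣ B * w1 * w2 → (p : ℝ) ≤ y :=
        Pair_pr y B w1 w2 r s1 s2 r' s1' s2' hBw1 hBw2 py py'
      have f7 : ∀ p : ℕ, p.Prime → p ∣ Go1 → 2 ^ k < p ∧ ¬ (p : ℤ) ∣ c1 := by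
        intro p hp hd
        obtain ⟨a1, a2⟩ := hGp p hp hd
        exact ⟨a1, hGo p hp a2⟩
      have h7 := hL X T W Z y Δ N B w1 w2 Go1 (Y * Gs) t0 l c1 c2 hT hZ hy hΔ hZΔ hN ht0 sq1 sq2 hl f5 f6 hBG1 f7
        f1 hWB f2 f3 f4
      exact Pair_fin2 C C1 (T ^ A1) _ (cq : ℝ) (u : ℝ) W Δ (t0 : ℝ) _ ((N : ℝ) ^ 2 / B) hC1 hCd hTA hP hcqr hur
        (by linarith) hΔ ht0r hE h7

end Pool.Agent.Lib.SLH
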