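import Pool.Agent.Lib.SL.Pha
import Pool.Agent.Lib.SL.DefK

/-!
MP_00e23e_nt, project SL, P2 (a lock of arbitrarily small size): the phase identity for a pair of tuples with the same key
(Pha.lean of helper12) with the gcd of the numerator c1 and the whole modulus B of the lattice. For a prime p ∣ q = r/ρ r which does
not divide q' v1' v2' h g the numerator -h a1 is not divisible by p; for the primes of ρ it is Theta.
-/

set_option autoImplicit false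

namespace Pool.Agent.Lib.SLH

open Finset Pool.Agent.Lib.EH3 Pool.Agent.Lib.TB Pool.Agent.Results.MP_00e23e_nt Pool.Agent.Lib.MI
open Pool.Agent.Lib.SL

/-- The phase identity of a pair with the same key, with the gcd of c1 and B. -/
def PhPStmt : Prop := ∀ (a b1 b2 : ℕ → ℕ → ℤ) (ρ : ℕ → ℕ) (v : ℕ → ℕ → ℕ) (g R0 V R S N : ℕ) (h h' : ℤ)
    (r s1 s2 r' s1' s2' : ℕ), 1 ≤ g → 1 ≤ R0 → 1 ≤ V →
  Su a b1 b2 ρ v g R0 V R S N r s1 s2 → Su a b1 b2 ρ v g R0 V R S N r' s1' s2' →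
  Ky ρ v r s1 s2 = Ky ρ v r' s1' s2' →
  (∀ n1 n2 : ℕ, Fp a g h r s1 s2 n1 n2 * (starRingEnd ℂ) (Fp a g h' r' s1' s2' n1 n2) = 0) ∨
  ∃ (B w1 w2 : ℕ) (l c1 c2 : ℤ), B = ρ r * (g * Nat.lcm (r / ρ r) (r' / ρ r')) ∧
    B * w1 = Nat.lcm (r * s1) (r' * s1') ∧ B * w2 = Nat.lcm (r * s2) (r' * s2') ∧ Squarefree (B * w1) ∧
    Squarefree (B * w2) ∧ Int.gcd l B = 1 ∧ 1 ≤ w1 ∧ 1 ≤ w2 ∧ g * w1 ≤ 4 * S * V ∧ g * w2 ≤ 4 * S * V ∧
    R * g < B ∧ B * R0 ≤ 4 * R ^ 2 * g ∧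
    (∀ F : ℕ, F ∣ ρ r → Int.gcd c1 F = Int.gcd (Th ρ v h h' r s1 s2 r' s1' s2') F) ∧
    (((Int.gcd c1 B : ℕ) : ℤ) ∣ ((g * Nat.gcd (r / ρ r) (r' / ρ r') *
      Int.gcd (Th ρ v h h' r s1 s2 r' s1' s2') (ρ r) * (v r s1 * v r s2 * v r' s1' * v r' s2') : ℕ) : ℤ) * h * h') ∧
    ∀ n1 n2 : ℕ, 1 ≤ n1 → 1 ≤ n2 → Fp a g h r s1 s2 n1 n2 * (starRingEnd ℂ) (Fp a g h' r' s1' s2' n1 n2) =
      if (B : ℤ) ∣ (n1 : ℤ) - l * n2 then t1g c1 (B * w1) n1 * t1g c2 w2 n2 else 0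

/-- a squarefree number divides n if all its primes do -/
private lemma php_sq {d : ℕ} {n : ℤ} (hd : Squarefree d) (h : ∀ p : ℕ, p.Prime → p ∣ d → (p : ℤ) ∣ n) :
    (d : ℤ) ∣ n := by
  rw [Int.natCast_dvd]
  rw [← Nat.prod_primeFactors_of_squarefree hd]
  refine Finset.prod_primes_dvd _ (fun p hp => (Nat.prime_of_mem_primeFactors hp).prime) (fun p hp => ?_)
  exact Int.natCast_dvd.1 (h p (Nat.prime_of_mem_primeFactors hp) (Nat.dvd_of_mem_primeFactors hp))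

/-- the coefficient modulo a prime p ∣ q -/
private lemma php_p {A1 A1' A2 A2' h h' l C1 C2 : ℤ} {g ρ q q' G1 G1' G2 G2' Q1 Q2 B w1 w2 p : ℕ} (hp : p.Prime)
    (sq1 : Squarefree (ρ * q * (g * G1))) (cc : G2.Coprime (ρ * q * (g * G1)))
    (d1 : ρ * q * (g * G1) ∣ Q1) (d1' : ρ * q' * (g * G1') ∣ Q1) (d2 : ρ * q * (g * G2) ∣ Q2)
    (d2' : ρ * q' * (g * G2') ∣ Q2)
    (s1q : Squarefree Q1) (hA1 : Int.gcd A1 ((ρ * q * (g * G1) : ℕ) : ℤ) = 1)
    (hC1 : C1 = phK1 A1 h (ρ * q * (g * G1)) G2 * ((Q1 / (ρ * q * (g * G1)) : ℕ) : ℤ) -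
      phK1 A1' h' (ρ * q' * (g * G1')) G2' * ((Q1 / (ρ * q' * (g * G1')) : ℕ) : ℤ))
    (hC2 : C2 = phK2 A2 h (ρ * q * (g * G1)) G2 * ((Q2 / G2 : ℕ) : ℤ) -
      phK2 A2' h' (ρ * q' * (g * G1')) G2' * ((Q2 / G2' : ℕ) : ℤ))
    (pq : p ∣ q) (pq' : ¬ p ∣ q') (pG1' : ¬ p ∣ G1') (pG2' : ¬ p ∣ G2')
    (pc : (p : ℤ) ∣ C1 + l * C2 * (iv w2 B : ℤ) * w1) : (p : ℤ) ∣ h := by
  have hpZ : Prime (p : ℤ) := Nat.prime_iff_prime_int.1 hp
  set m := ρ * q * (g * G1) with hm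
  set m' := ρ * q' * (g * G1') with hm'
  have hm1 : 1 ≤ m := Nat.pos_of_ne_zero sq1.ne_zero
  have pm : p ∣ m := (pq.trans (dvd_mul_left q ρ)).trans (dvd_mul_right _ _)
  -- p divides neither ρ nor g
  have s2 := Nat.squarefree_mul_iff.1 (hm ▸ sq1 : Squarefree (ρ * q * (g * G1)))
  have one : ∀ {x y : ℕ}, x.Coprime y → p ∣ x → ¬ p ∣ y := by
    intro x y hc hx hy
    have h5 := Nat.dvd_gcd hx hy
    rw [hc] at h5
    exact hp.one_lt.ne' (Nat.dvd_one.1 h5)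
  have pρ : ¬ p ∣ ρ := one (Nat.squarefree_mul_iff.1 s2.2.1).1.symm pq
  have pgG : ¬ p ∣ g * G1 := one s2.1 (pq.trans (dvd_mul_left q ρ))
  have pg : ¬ p ∣ g := fun hh => pgG (dvd_mul_of_dvd_left hh _)
  have pG2 : ¬ p ∣ G2 := one cc.symm pm
  have pm' : ¬ p ∣ m' := by
    intro hh
    rcases (Nat.Prime.dvd_mul hp).1 hh with h1 | h1
    · rcases (Nat.Prime.dvd_mul hp).1 h1 with h2 | h2
      · exact pρ h2
      · exact pq' h2
    · rcases (Nat.Prime.dvd_mul hp).1 h1 with h2 | h2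
      · exact pg h2
      · exact pG1' h2
  have pQ1 : p ∣ Q1 := pm.trans d1
  have pQ2 : p ∣ Q2 := ((pq.trans (dvd_mul_left q ρ)).trans (dvd_mul_right _ _)).trans d2
  have e1 : m * (Q1 / m) = Q1 := Nat.mul_div_cancel' d1
  have e1' : m' * (Q1 / m') = Q1 := Nat.mul_div_cancel' d1'
  -- the three terms divisible by p
  have t1 : (p : ℤ) ∣ ((Q1 / m' : ℕ) : ℤ) := by
    rw [← e1'] at pQ1
    exact Int.natCast_dvd_natCast.2 (((Nat.Prime.dvd_mul hp).1 pQ1).resolve_left pm')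
  have tG : ∀ {G : ℕ}, ¬ p ∣ G → G ∣ Q2 → (p : ℤ) ∣ ((Q2 / G : ℕ) : ℤ) := by
    intro G hG hGQ
    have e2 : G * (Q2 / G) = Q2 := Nat.mul_div_cancel' hGQ
    have h1 := pQ2
    rw [← e2] at h1
    exact Int.natCast_dvd_natCast.2 (((Nat.Prime.dvd_mul hp).1 h1).resolve_left hG)
  have t2 : (p : ℤ) ∣ ((Q2 / G2 : ℕ) : ℤ) := tG pG2 (Dvd.dvd.trans ⟨ρ * q * g, by ring⟩ d2)
  have u1 : ¬ (p : ℤ) ∣ ((Q1 / m : ℕ) : ℤ) := by
    intro hh
    have h1 := Int.natCast_dvd_natCast.1 hh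
    have h2 := (Nat.squarefree_mul_iff.1 (e1.symm ▸ s1q : Squarefree (m * (Q1 / m)))).1
    exact one h2 pm h1
  have u2 : ¬ (p : ℤ) ∣ A1 := by
    intro hh
    have h1 : (p : ℤ) ∣ ((Int.gcd A1 (m : ℤ) : ℕ) : ℤ) := Int.dvd_coe_gcd hh (Int.natCast_dvd_natCast.2 pm)
    rw [hA1] at h1
    exact hp.one_lt.ne' (Nat.dvd_one.1 (Int.natCast_dvd_natCast.1 h1))
  have u3 : ¬ (p : ℤ) ∣ (iv G2 m : ℤ) := by
    intro hh
    have h1 : (p : ℤ) ∣ (iv G2 m : ℤ) * G2 - 1 := (Int.natCast_dvd_natCast.2 pm).trans (iv_dvd cc hm1)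
    have h2 : (p : ℤ) ∣ 1 := by
      have h3 := dvd_sub (dvd_mul_of_dvd_left hh (G2 : ℤ)) h1
      rwa [sub_sub_cancel] at h3
    exact hpZ.not_isUnit (isUnit_of_dvd_one h2)
  have hd : G2' ∣ Q2 := Dvd.dvd.trans ⟨ρ * q' * g, by ring⟩ d2'
  · have t3 : (p : ℤ) ∣ ((Q2 / G2' : ℕ) : ℤ) := tG pG2' hd
    have c2 : (p : ℤ) ∣ C2 := by
      rw [hC2]
      exact dvd_sub (dvd_mul_of_dvd_right t2 _) (dvd_mul_of_dvd_right t3 _)
    have c1 : (p : ℤ) ∣ C1 := by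
      have h1 : (p : ℤ) ∣ l * C2 * (iv w2 B : ℤ) * w1 :=
        dvd_mul_of_dvd_left (dvd_mul_of_dvd_left (dvd_mul_of_dvd_right c2 _) _) _
      have h2 := dvd_sub pc h1
      rwa [add_sub_cancel_right] at h2
    have c3 : (p : ℤ) ∣ phK1 A1 h m G2 * ((Q1 / m : ℕ) : ℤ) := by
      rw [hC1] at c1
      have h2 := dvd_add c1 (dvd_mul_of_dvd_right t1 (phK1 A1' h' m' G2'))
      rwa [sub_add_cancel] at h2
    rcases hpZ.dvd_or_dvd c3 with h4 | h4
    · unfold phK1 at h4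
      rcases hpZ.dvd_or_dvd h4 with h5 | h5
      · rw [dvd_neg] at h5
        exact (hpZ.dvd_or_dvd h5).resolve_right u2
      · exact absurd h5 u3
    · exact absurd h4 u1

private lemma php_core {a : ℕ → ℕ → ℤ} {h h' : ℤ} {g ρ q q' G1 G1' G2 G2' r s1 s2 r' s1' s2' m1 m2 : ℕ}
    (er : r = ρ * q) (er' : r' = ρ * q') (es1 : s1 = g * G1) (es1' : s1' = g * G1')
    (es2 : s2 = g * G2) (es2' : s2' = g * G2') (hG : Gg a g r s1 s2 m1 m2)
    (hG' : Gg a g r' s1' s2' m1 m2) (hk1 : (ρ : ℤ) ∣ a r s1 - a r' s1') :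
    ∃ (B w1 w2 : ℕ) (l c1 c2 : ℤ), B = ρ * (g * Nat.lcm q q') ∧
      B * w1 = Nat.lcm (r * s1) (r' * s1') ∧ B * w2 = Nat.lcm (r * s2) (r' * s2') ∧ Squarefree (B * w1) ∧
      Squarefree (B * w2) ∧ Int.gcd l B = 1 ∧ 1 ≤ w1 ∧ 1 ≤ w2 ∧ w1 ∣ Nat.lcm G1 G1' ∧ w2 ∣ Nat.lcm G2 G2' ∧
      (∀ F : ℕ, F ∣ ρ → Int.gcd c1 F =
        Int.gcd (h * ((q' * G1' * G2' : ℕ) : ℤ) - h' * ((q * G1 * G2 : ℕ) : ℤ)) F) ∧
      (∀ p : ℕ, p.Prime → (p : ℤ) ∣ c1 → p ∣ q → ¬ p ∣ q' → ¬ p ∣ G1' → ¬ p ∣ G2' → (p : ℤ) ∣ h) ∧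
      (∀ p : ℕ, p.Prime → (p : ℤ) ∣ c1 → p ∣ q' → ¬ p ∣ q → ¬ p ∣ G1 → ¬ p ∣ G2 → (p : ℤ) ∣ h') ∧
      ∀ n1 n2 : ℕ, Fp a g h r s1 s2 n1 n2 * (starRingEnd ℂ) (Fp a g h' r' s1' s2' n1 n2) =
        if (B : ℤ) ∣ (n1 : ℤ) - l * n2 then t1g c1 (B * w1) n1 * t1g c2 w2 n2 else 0 := by
  subst er er' es1 es1' es2 es2'
  have x := pha_cop2 hG
  have x' := pha_cop2 hG'
  have hg0 : 0 < g := x.2.2.2.1
  have eG : g * G2 / g = G2 := Nat.mul_div_cancel_left _ hg0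
  have eG' : g * G2' / g = G2' := Nat.mul_div_cancel_left _ hg0
  set Q1 := Nat.lcm (ρ * q * (g * G1)) (ρ * q' * (g * G1')) with hQ1
  set Q2 := Nat.lcm (ρ * q * (g * G2)) (ρ * q' * (g * G2')) with hQ2
  have s1q : Squarefree Q1 := pha_sq hG.1 hG'.1
  have s2q : Squarefree Q2 := pha_sq hG.2.1 hG'.2.1
  have d1 : ρ * q * (g * G1) ∣ Q1 := Nat.dvd_lcm_left _ _
  have d1' : ρ * q' * (g * G1') ∣ Q1 := Nat.dvd_lcm_right _ _
  have d2 : ρ * q * (g * G2) ∣ Q2 := Nat.dvd_lcm_left _ _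
  have d2' : ρ * q' * (g * G2') ∣ Q2 := Nat.dvd_lcm_right _ _
  set B := ρ * (g * Nat.lcm q q') with hBd
  have hBl : B = Nat.lcm (ρ * q * g) (ρ * q' * g) := by
    have e1 : ρ * q * g = ρ * g * q := by ring
    have e2 : ρ * q' * g = ρ * g * q' := by ring
    rw [e1, e2, Nat.lcm_mul_left, hBd]
    ring
  have hB1 : B ∣ Q1 := by
    rw [hBl]
    exact Nat.lcm_dvd (Dvd.dvd.trans ⟨G1, by ring⟩ d1) (Dvd.dvd.trans ⟨G1', by ring⟩ d1')
  have hB2 : B ∣ Q2 := by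
    rw [hBl]
    exact Nat.lcm_dvd (Dvd.dvd.trans ⟨G2, by ring⟩ d2) (Dvd.dvd.trans ⟨G2', by ring⟩ d2')
  obtain ⟨w1, hw1⟩ := hB1
  obtain ⟨w2, hw2⟩ := hB2
  have sB1 : Squarefree (B * w1) := hw1 ▸ s1q
  have sB2 : Squarefree (B * w2) := hw2 ▸ s2q
  have pB : 0 < B := Nat.pos_of_ne_zero (Nat.squarefree_mul_iff.1 sB1).2.1.ne_zero
  have pw1 : 1 ≤ w1 := Nat.pos_of_ne_zero (Nat.squarefree_mul_iff.1 sB1).2.2.ne_zero
  have pw2 : 1 ≤ w2 := Nat.pos_of_ne_zero (Nat.squarefree_mul_iff.1 sB2).2.2.ne_zero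
  -- coprimality of m1, m2
  have m1B : m1.Coprime B := by
    have h1 : m1.Coprime Q1 := pha_cop hG.2.2.2.1 hG'.2.2.2.1 (pha_lcm_mul _ _)
    exact Nat.Coprime.coprime_dvd_right ⟨w1, hw1⟩ h1
  have m2B : m2.Coprime B := by
    have h1 : m2.Coprime Q2 := pha_cop hG.2.2.2.2.1 hG'.2.2.2.2.1 (pha_lcm_mul _ _)
    exact Nat.Coprime.coprime_dvd_right ⟨w2, hw2⟩ h1
  set l : ℤ := (m1 : ℤ) * (iv m2 B : ℤ) with hld
  have hl : (B : ℤ) ∣ l * m2 - m1 := by
    obtain ⟨t, ht⟩ := iv_dvd m2B pB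
    refine ⟨m1 * t, ?_⟩
    rw [hld]
    linear_combination (m1 : ℤ) * ht
  have hlg : Int.gcd l B = 1 := by
    have h1 : Int.gcd (m1 : ℤ) (B : ℤ) = 1 := by
      rw [Int.gcd_natCast_natCast]
      exact m1B
    have h2 : Int.gcd (m2 : ℤ) (B : ℤ) = 1 := by
      rw [Int.gcd_natCast_natCast]
      exact m2B
    rw [pha_gcd (y := (m1 : ℤ)) (u := (m2 : ℤ)) (w := 1) h2 (by simp) (by simpa using hl)]
    exact h1
  set C1 : ℤ := phK1 (a (ρ * q) (g * G1)) h (ρ * q * (g * G1)) G2 * ((Q1 / (ρ * q * (g * G1)) : ℕ) : ℤ) -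
      phK1 (a (ρ * q') (g * G1')) h' (ρ * q' * (g * G1')) G2' * ((Q1 / (ρ * q' * (g * G1')) : ℕ) : ℤ) with hC1
  set C2 : ℤ := phK2 (a (ρ * q) (g * G2)) h (ρ * q * (g * G1)) G2 * ((Q2 / G2 : ℕ) : ℤ) -
      phK2 (a (ρ * q') (g * G2')) h' (ρ * q' * (g * G1')) G2' * ((Q2 / G2' : ℕ) : ℤ) with hC2
  refine ⟨B, w1, w2, l, C1 + l * C2 * (iv w2 B : ℤ) * w1, C2 * (iv B w2 : ℤ), rfl,
    hw1.symm, hw2.symm, sB1, sB2, hlg, pw1, pw2, pha_w hw1.symm pB, pha_w hw2.symm pB, ?_, ?_, ?_, ?_⟩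
  · intro F hF
    refine pha_th hG.1 hG'.1 ?_ ?_ d1 d1' d2 d2' s1q hG.2.2.2.2.2.1 hk1 hC1 hC2 hF
    · have := x.1
      rwa [eG] at this
    · have := x'.1
      rwa [eG'] at this
  · intro p hp hpc pq pq' pG1' pG2'
    refine php_p hp hG.1 ?_ d1 d1' d2 d2' s1q hG.2.2.2.2.2.1 hC1 hC2 pq pq' pG1' pG2' hpc
    have := x.1
    rwa [eG] at this
  · intro p hp hpc pq' pq pG1 pG2
    have hC1n : -C1 = phK1 (a (ρ * q') (g * G1')) h' (ρ * q' * (g * G1')) G2' *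
        ((Q1 / (ρ * q' * (g * G1')) : ℕ) : ℤ) -
        phK1 (a (ρ * q) (g * G1)) h (ρ * q * (g * G1)) G2 * ((Q1 / (ρ * q * (g * G1)) : ℕ) : ℤ) := by
      rw [hC1]
      ring
    have hC2n : -C2 = phK2 (a (ρ * q') (g * G2')) h' (ρ * q' * (g * G1')) G2' * ((Q2 / G2' : ℕ) : ℤ) -
        phK2 (a (ρ * q) (g * G2)) h (ρ * q * (g * G1)) G2 * ((Q2 / G2 : ℕ) : ℤ) := by
      rw [hC2]
      ring
    refine php_p (l := l) (w2 := w2) (B := B) (w1 := w1) hp hG'.1 ?_ d1' d1 d2' d2 s1q hG'.2.2.2.2.2.1 hC1n hC2n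
      pq' pq pG1 pG2 ?_
    · have := x'.1
      rwa [eG'] at this
    · have e : -C1 + l * -C2 * (iv w2 B : ℤ) * w1 = -(C1 + l * C2 * (iv w2 B : ℤ) * w1) := by ring
      rw [e]
      exact dvd_neg.2 hpc
  · intro n1 n2
    have hiff := pha_lat hG hG' hBl hl n1 n2
    rw [← hQ1, ← hQ2, hw1, hw2] at hiff
    by_cases hc : n1.Coprime (B * w1) ∧ n2.Coprime (B * w2) ∧ (B : ℤ) ∣ (n1 : ℤ) - l * n2
    · rw [if_pos hc.2.2]
      obtain ⟨gg, gg'⟩ := hiff.2 hc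
      unfold Fp t1g
      rw [if_pos gg, if_pos gg', if_pos hc.1,
        if_pos (Nat.Coprime.coprime_dvd_right (dvd_mul_left _ _) hc.2.1)]
      refine pha_two gg gg' d1 d1' d2 d2' hw1 hw2 s1q s2q ?_ ?_ hc.2.2 C1 C2 ?_ ?_
      · rw [hw1]
        exact hc.1
      · rw [hw2]
        exact hc.2.1
      · rw [eG, eG']
      · rw [eG, eG']
    · have h0 : Fp a g h (ρ * q) (g * G1) (g * G2) n1 n2 *
          (starRingEnd ℂ) (Fp a g h' (ρ * q') (g * G1') (g * G2') n1 n2) = 0 := by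
        unfold Fp
        by_cases gg : Gg a g (ρ * q) (g * G1) (g * G2) n1 n2
        · by_cases gg' : Gg a g (ρ * q') (g * G1') (g * G2') n1 n2
          · exact absurd (hiff.1 ⟨gg, gg'⟩) hc
          · rw [if_neg gg', map_zero, mul_zero]
        · rw [if_neg gg, zero_mul]
      rw [h0]
      by_cases h1 : (B : ℤ) ∣ (n1 : ℤ) - l * n2
      · rw [if_pos h1]
        unfold t1g
        by_cases h2 : n1.Coprime (B * w1)
        · by_cases h3 : n2.Coprime w2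
          · exfalso
            apply hc
            refine ⟨h2, ?_, h1⟩
            refine Nat.Coprime.mul_right ?_ h3
            have h4 : IsCoprime (n1 : ℤ) (B : ℤ) :=
              Nat.isCoprime_iff_coprime.2 (Nat.Coprime.coprime_dvd_right (dvd_mul_right _ _) h2)
            obtain ⟨t, ht⟩ := h1
            have h5 : IsCoprime (l * (n2 : ℤ)) (B : ℤ) := by
              have e : l * (n2 : ℤ) = (n1 : ℤ) + (B : ℤ) * (-t) := by linarith
              rw [e]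
              exact h4.add_mul_left_left (-t)
            exact Nat.isCoprime_iff_coprime.1 (IsCoprime.of_mul_left_right h5)
          · rw [if_neg h3, mul_zero]
        · rw [if_neg h2, zero_mul]
      · rw [if_neg h1]


theorem tPhP : PhPStmt := by
  intro a b1 b2 rho v g R0 V R S N h h' r s1 s2 r' s1' s2' hg hR0 hV hS hS' hK
  by_cases H : ∀ n1 n2 : ℕ, Fp a g h r s1 s2 n1 n2 * (starRingEnd ℂ) (Fp a g h' r' s1' s2' n1 n2) = 0
  · exact Or.inl H
  · right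
    simp only [not_forall] at H
    obtain ⟨m1, m2, hne⟩ := H
    have hG : Gg a g r s1 s2 m1 m2 := by
      by_contra hc
      exact hne (by unfold Fp; rw [if_neg hc, zero_mul])
    have hG' : Gg a g r' s1' s2' m1 m2 := by
      by_contra hc
      exact hne (by unfold Fp; rw [if_neg hc, map_zero, mul_zero])
    obtain ⟨⟨r1, r2⟩, ⟨s11, s12⟩, ⟨s21, s22⟩, ⟨ρ1, ρ2, ρ3⟩, ⟨u1, u2, u3⟩, ⟨z1, z2, z3⟩, y1, y2, -⟩ := hS
    obtain ⟨⟨r1', r2'⟩, ⟨s11', s12'⟩, ⟨s21', s22'⟩, ⟨ρ1', ρ2', ρ3'⟩, ⟨u1', u2', u3'⟩, ⟨z1', z2', z3'⟩, y1', y2',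
      -⟩ := hS'
    simp only [Ky, Prod.mk.injEq] at hK
    obtain ⟨k1, k2, k3⟩ := hK
    have x := pha_cop2 hG
    have x' := pha_cop2 hG'
    have er : r = rho r * (r / rho r) := (Nat.mul_div_cancel' ρ1).symm
    have er' : r' = rho r * (r' / rho r') := by
      rw [k1]
      exact (Nat.mul_div_cancel' ρ1').symm
    have es1 : s1 = g * (s1 / g) := (Nat.mul_div_cancel' x.2.2.2.2.1).symm
    have es2 : s2 = g * (s2 / g) := (Nat.mul_div_cancel' x.2.2.2.2.2).symm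
    have es1' : s1' = g * (s1' / g) := (Nat.mul_div_cancel' x'.2.2.2.2.1).symm
    have es2' : s2' = g * (s2' / g) := (Nat.mul_div_cancel' x'.2.2.2.2.2).symm
    have hk1 : (rho r : ℤ) ∣ a r s1 - a r' s1' := by
      have e1 : (rho r : ℤ) ∣ a r' s1' - b1 (rho r) (s1 / v r s1) := by
        rw [k1, k2]
        exact y1'
      have e2 := dvd_sub y1 e1
      have e3 : a r s1 - b1 (rho r) (s1 / v r s1) - (a r' s1' - b1 (rho r) (s1 / v r s1)) = a r s1 - a r' s1' := by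
        ring
      rwa [e3] at e2
    obtain ⟨B, w1, w2, l, c1, c2, f1, f2, f3, f4, f5, f6, f7, f8, f9, f10, f11, fa, fb, f12⟩ :=
      php_core (h := h) (h' := h') er er' es1 es1' es2 es2' hG hG' hk1
    have q0 : 0 < r / rho r := by
      rcases Nat.eq_zero_or_pos (r / rho r) with h0 | h0
      · rw [h0, mul_zero] at er
        omega
      · exact h0
    have q0' : 0 < r' / rho r' := by
      rcases Nat.eq_zero_or_pos (r' / rho r') with h0 | h0
      · rw [h0, mul_zero] at er'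
        omega
      · exact h0
    have key : ∀ F : ℕ, F ∣ rho r → Int.gcd c1 F = Int.gcd (Th rho v h h' r s1 s2 r' s1' s2') F := by
      intro F hF
      rw [f11 F hF]
      have c1 : s1.Coprime r := (Nat.squarefree_mul_iff.1 hG.1).1.symm
      have c2 : s2.Coprime r := (Nat.squarefree_mul_iff.1 hG.2.1).1.symm
      have hFr : F ∣ r := hF.trans ρ1
      have toF : ∀ {x s : ℕ}, x ∣ s → s.Coprime r → IsCoprime (x : ℤ) (F : ℤ) := fun hx hs =>
        Nat.isCoprime_iff_coprime.2 (Nat.Coprime.coprime_dvd_left hx (Nat.Coprime.coprime_dvd_right hFr hs))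
      have cg := toF x.2.2.2.2.1 c1
      have cu1 := toF (Nat.div_dvd_of_dvd u1) c1
      have cu2 := toF (Nat.div_dvd_of_dvd z1) c2
      refine pha_gcd (u := (g : ℤ) * g) (w := ((s1 / v r s1 : ℕ) : ℤ) * ((s2 / v r s2 : ℕ) : ℤ))
        (Int.isCoprime_iff_gcd_eq_one.1 (cg.mul_left cg)) (Int.isCoprime_iff_gcd_eq_one.1 (cu1.mul_left cu2)) ?_
      have a1 : (g : ℤ) * ((s1 / g : ℕ) : ℤ) = ((s1 / v r s1 : ℕ) : ℤ) * (v r s1 : ℤ) := by
        rw [← Nat.cast_mul, ← Nat.cast_mul, Nat.mul_div_cancel' x.2.2.2.2.1, Nat.div_mul_cancel u1]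
      have a2 : (g : ℤ) * ((s2 / g : ℕ) : ℤ) = ((s2 / v r s2 : ℕ) : ℤ) * (v r s2 : ℤ) := by
        rw [← Nat.cast_mul, ← Nat.cast_mul, Nat.mul_div_cancel' x.2.2.2.2.2, Nat.div_mul_cancel z1]
      have a1' : (g : ℤ) * ((s1' / g : ℕ) : ℤ) = ((s1 / v r s1 : ℕ) : ℤ) * (v r' s1' : ℤ) := by
        rw [k2, ← Nat.cast_mul, ← Nat.cast_mul, Nat.mul_div_cancel' x'.2.2.2.2.1, Nat.div_mul_cancel u1']
      have a2' : (g : ℤ) * ((s2' / g : ℕ) : ℤ) = ((s2 / v r s2 : ℕ) : ℤ) * (v r' s2' : ℤ) := by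
        rw [k3, ← Nat.cast_mul, ← Nat.cast_mul, Nat.mul_div_cancel' x'.2.2.2.2.2, Nat.div_mul_cancel z1']
      refine ⟨0, ?_⟩
      unfold Th
      rw [Nat.cast_mul, Nat.cast_mul, Nat.cast_mul, Nat.cast_mul, Nat.cast_mul, Nat.cast_mul, Nat.cast_mul, Nat.cast_mul]
      generalize ((s1 / g : ℕ) : ℤ) = G1 at *
      generalize ((s2 / g : ℕ) : ℤ) = G2 at *
      generalize ((s1' / g : ℕ) : ℤ) = G1' at *
      generalize ((s2' / g : ℕ) : ℤ) = G2' at *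
      generalize ((s1 / v r s1 : ℕ) : ℤ) = U1 at *
      generalize ((s2 / v r s2 : ℕ) : ℤ) = U2 at *
      generalize ((r / rho r : ℕ) : ℤ) = q at *
      generalize ((r' / rho r' : ℕ) : ℤ) = q' at *
      linear_combination (h * q' * g * G2') * a1' + (h * q' * U1 * (v r' s1' : ℤ)) * a2' -
        (h' * q * g * G2) * a1 - (h' * q * U1 * (v r s1 : ℤ)) * a2
    refine ⟨B, w1, w2, l, c1, c2, f1, f2, f3, f4, f5, f6, f7, f8, ?_, ?_, ?_, ?_, key, ?_,
      fun n1 n2 _ _ => f12 n1 n2⟩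
    · exact pha_sz f9 es1 es1' u1 u1' k2 s12 u3' (by omega) (by omega)
    · exact pha_sz f10 es2 es2' z1 z1' k3 s22 z3' (by omega) (by omega)
    · -- R g < B
      have h1 : r / rho r ≤ Nat.lcm (r / rho r) (r' / rho r') :=
        Nat.le_of_dvd (Nat.lcm_pos q0 q0') (Nat.dvd_lcm_left _ _)
      calc R * g < r * g := Nat.mul_lt_mul_of_pos_right r1 hg
        _ = rho r * (g * (r / rho r)) := by
          conv_lhs => rw [er]
          ring
        _ ≤ rho r * (g * Nat.lcm (r / rho r) (r' / rho r')) :=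
          Nat.mul_le_mul_left _ (Nat.mul_le_mul_left _ h1)
        _ = B := f1.symm
    · have h1 : Nat.lcm (r / rho r) (r' / rho r') ≤ (r / rho r) * (r' / rho r') :=
        Nat.le_of_dvd (Nat.mul_pos q0 q0') (pha_lcm_mul _ _)
      calc B * R0 ≤ B * rho r := Nat.mul_le_mul_left _ ρ2.le
        _ = rho r * (g * Nat.lcm (r / rho r) (r' / rho r')) * rho r := by rw [f1]
        _ ≤ rho r * (g * ((r / rho r) * (r' / rho r'))) * rho r :=
          Nat.mul_le_mul_right _ (Nat.mul_le_mul_left _ (Nat.mul_le_mul_left _ h1))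
        _ = (rho r * (r / rho r)) * (rho r * (r' / rho r')) * g := by ring
        _ = r * r' * g := by rw [← er, ← er']
        _ ≤ (2 * R) * (2 * R) * g := Nat.mul_le_mul_right _ (Nat.mul_le_mul r2 r2')
        _ = 4 * R ^ 2 * g := by ring
    · -- the gcd with B
      have sB : Squarefree B := (Nat.squarefree_mul_iff.1 f4).2.1
      have sG : Squarefree (Int.gcd c1 B) :=
        sB.squarefree_of_dvd (Int.natCast_dvd_natCast.1 (Int.gcd_dvd_right _ _))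
      refine php_sq sG ?_
      intro p hp hpd
      have pc : (p : ℤ) ∣ c1 := (Int.natCast_dvd_natCast.2 hpd).trans (Int.gcd_dvd_left _ _)
      have pB : p ∣ B := hpd.trans (Int.natCast_dvd_natCast.1 (Int.gcd_dvd_right _ _))
      have cr1 : s1.Coprime r := (Nat.squarefree_mul_iff.1 hG.1).1.symm
      have cr2 : s2.Coprime r := (Nat.squarefree_mul_iff.1 hG.2.1).1.symm
      have cr1' : s1'.Coprime r' := (Nat.squarefree_mul_iff.1 hG'.1).1.symm
      have cr2' : s2'.Coprime r' := (Nat.squarefree_mul_iff.1 hG'.2.1).1.symm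
      have qr : r / rho r ∣ r := Nat.div_dvd_of_dvd ρ1
      have qr' : r' / rho r' ∣ r' := Nat.div_dvd_of_dvd ρ1'
      -- a prime of q does not divide the common part u of s and s'
      have hv : ∀ {R' s s' v' w' : ℕ}, s.Coprime R' → p ∣ R' → v' ∣ s' → w' ∣ s → s / w' = s' / v' →
          p ∣ s' / g → g ∣ s' → p ∣ v' := by
        intro R' s s' v' w' hc hpR hv' hw' he hps hgs
        have h1 : p ∣ s' := hps.trans (Nat.div_dvd_of_dvd hgs)
        have h2 : s' / v' * v' = s' := Nat.div_mul_cancel hv'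
        rw [← h2] at h1
        rcases (Nat.Prime.dvd_mul hp).1 h1 with h3 | h3
        · exfalso
          rw [← he] at h3
          have h4 : p ∣ s := h3.trans (Nat.div_dvd_of_dvd hw')
          have h5 := Nat.dvd_gcd h4 hpR
          rw [hc] at h5
          exact hp.one_lt.ne' (Nat.dvd_one.1 h5)
        · exact h3
      rw [f1] at pB
      rcases (Nat.Prime.dvd_mul hp).1 pB with hb | hb
      · -- p ∣ ρ
        have h1 : (p : ℕ) ∣ Int.gcd (Th rho v h h' r s1 s2 r' s1' s2') (rho r) := by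
          have h2 := key p hb
          have h3 : Int.gcd c1 (p : ℤ) = p := by
            apply Nat.dvd_antisymm
            · exact Int.natCast_dvd_natCast.1 (Int.gcd_dvd_right _ _)
            · exact Int.natCast_dvd_natCast.1 (Int.dvd_coe_gcd pc dvd_rfl)
          rw [h3] at h2
          have h4 : (p : ℤ) ∣ Th rho v h h' r s1 s2 r' s1' s2' := by
            have h5 : ((Int.gcd (Th rho v h h' r s1 s2 r' s1' s2') (p : ℤ) : ℕ) : ℤ) ∣
                Th rho v h h' r s1 s2 r' s1' s2' := Int.gcd_dvd_left _ _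
            rwa [← h2] at h5
          exact Int.natCast_dvd_natCast.1 (Int.dvd_coe_gcd h4 (Int.natCast_dvd_natCast.2 hb))
        refine dvd_mul_of_dvd_left (dvd_mul_of_dvd_left (Int.natCast_dvd_natCast.2 ?_) _) _
        exact dvd_mul_of_dvd_left (dvd_mul_of_dvd_right h1 _) _
      · rcases (Nat.Prime.dvd_mul hp).1 hb with hb | hb
        · -- p ∣ g
          refine dvd_mul_of_dvd_left (dvd_mul_of_dvd_left (Int.natCast_dvd_natCast.2 ?_) _) _
          exact dvd_mul_of_dvd_left (dvd_mul_of_dvd_left (dvd_mul_of_dvd_left hb _) _) _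
        · have hb' : p ∣ r / rho r ∨ p ∣ r' / rho r' := by
            have h1 := hb.trans (pha_lcm_mul _ _)
            exact (Nat.Prime.dvd_mul hp).1 h1
          by_cases hq : p ∣ r / rho r
          · by_cases hq' : p ∣ r' / rho r'
            · refine dvd_mul_of_dvd_left (dvd_mul_of_dvd_left (Int.natCast_dvd_natCast.2 ?_) _) _
              exact dvd_mul_of_dvd_left (dvd_mul_of_dvd_left (dvd_mul_of_dvd_right (Nat.dvd_gcd hq hq') _) _) _
            · by_cases g1 : p ∣ s1' / g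
              · have h1 := hv cr1 (hq.trans qr) u1' u1 k2 g1 x'.2.2.2.2.1
                refine dvd_mul_of_dvd_left (dvd_mul_of_dvd_left (Int.natCast_dvd_natCast.2 ?_) _) _
                exact dvd_mul_of_dvd_right (dvd_mul_of_dvd_left (dvd_mul_of_dvd_right h1 _) _) _
              · by_cases g2 : p ∣ s2' / g
                · have h1 := hv cr2 (hq.trans qr) z1' z1 k3 g2 x'.2.2.2.2.2
                  refine dvd_mul_of_dvd_left (dvd_mul_of_dvd_left (Int.natCast_dvd_natCast.2 ?_) _) _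
                  exact dvd_mul_of_dvd_right (dvd_mul_of_dvd_right h1 _) _
                · have h1 := fa p hp pc hq hq' g1 g2
                  exact dvd_mul_of_dvd_left (dvd_mul_of_dvd_right h1 _) _
          · have hq' : p ∣ r' / rho r' := hb'.resolve_left hq
            by_cases g1 : p ∣ s1 / g
            · have h1 := hv cr1' (hq'.trans qr') u1 u1' k2.symm g1 x.2.2.2.2.1
              refine dvd_mul_of_dvd_left (dvd_mul_of_dvd_left (Int.natCast_dvd_natCast.2 ?_) _) _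
              exact dvd_mul_of_dvd_right
                (dvd_mul_of_dvd_left (dvd_mul_of_dvd_left (dvd_mul_of_dvd_left h1 _) _) _) _
            · by_cases g2 : p ∣ s2 / g
              · have h1 := hv cr2' (hq'.trans qr') z1 z1' k3.symm g2 x.2.2.2.2.2
                refine dvd_mul_of_dvd_left (dvd_mul_of_dvd_left (Int.natCast_dvd_natCast.2 ?_) _) _
                exact dvd_mul_of_dvd_right
                  (dvd_mul_of_dvd_left (dvd_mul_of_dvd_left (dvd_mul_of_dvd_right h1 _) _) _) _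
              · have h1 := fb p hp pc hq' hq g1 g2
                exact dvd_mul_of_dvd_right h1 _

end Pool.Agent.Lib.SLH
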