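import Pool.Agent.Lib.SLH.PhP
import Pool.Agent.Lib.SLH.DefH

/-!
MP_00e23e_nt, project SL, P2: the phase identity of a pair with the same key, with the good part of the modulus.
-/

set_option autoImplicit false

namespace Pool.Agent.Lib.SLH

open Finset Pool.Agent.Lib.EH3 Pool.Agent.Lib.TB Pool.Agent.Results.MP_00e23e_nt Pool.Agent.Lib.MI

theorem tPhH : PhHStmt := by
  intro a b1 b2 ρ v g R0 V R S N h h' r s1 s2 r' s1' s2' hg hR0 hV hS hS' hK
  rcases tPhP a b1 b2 ρ v g R0 V R S N h h' r s1 s2 r' s1' s2' hg hR0 hV hS hS' hK with h0 | h0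
  · exact Or.inl h0
  · right
    obtain ⟨B, w1, w2, l, c1, c2, f1, f2, f3, f4, f5, f6, f7, f8, f9, f10, f11, f12, -, f13, f14⟩ := h0
    have sB : Squarefree B := (Nat.squarefree_mul_iff.1 f4).2.1
    have hY : Int.gcd c1 B ∣ B := Int.natCast_dvd_natCast.1 (Int.gcd_dvd_right _ _)
    have e : B = B / Int.gcd c1 B * Int.gcd c1 B := (Nat.div_mul_cancel hY).symm
    refine ⟨B, w1, w2, B / Int.gcd c1 B, Int.gcd c1 B, l, c1, c2, f1, f2, f3, f4, f5, f6, f7, f8, f9, f10, f11,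
      f12, ⟨e, ?_, ?_⟩, f14⟩
    · intro p hp hpd hpc
      have h1 : p ∣ Int.gcd c1 B := Int.natCast_dvd_natCast.1 (Int.dvd_coe_gcd hpc
        (Int.natCast_dvd_natCast.2 (hpd.trans (Nat.div_dvd_of_dvd hY))))
      have h2 : (B / Int.gcd c1 B).Coprime (Int.gcd c1 B) := (Nat.squarefree_mul_iff.1 (e ▸ sB)).1
      have h3 := Nat.dvd_gcd hpd h1
      rw [h2] at h3
      exact hp.one_lt.ne' (Nat.dvd_one.1 h3)
    · have h1 := Int.natAbs_dvd_natAbs.2 f13
      rw [Int.natAbs_natCast, Int.natAbs_mul, Int.natAbs_mul, Int.natAbs_natCast] at h1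
      refine h1.trans (dvd_of_eq ?_)
      ring

end Pool.Agent.Lib.SLH
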