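import Pool.Agent.Lib.SLH.SpecD

/-!
MP_00e23e_nt, project SL, P2, chapter D', module Qfi: the final statement SLH.DspGStmt.
-/

set_option autoImplicit false

namespace Pool.Agent.Lib.SL

open Finset Pool.Agent.Lib.EH3 Pool.Agent.Lib.TB Pool.Agent.Results.MP_00e23e_nt Pool.Agent.Lib.MI

private lemma Qfi_num (R M N S H G T z B1 BB : ℝ) (hR : 0 < R) (hM : 0 < M) (hN : 0 < N)
    (hS : 0 < S) (hG : 0 < G) (hGH : G ≤ H) (hT : 1 ≤ T) (hz : 1 ≤ z) (hB : 0 ≤ B1) (hBB : 0 ≤ BB) :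
    R * M * ((B1 + 32 * (R * S ^ 4 * N ^ 2) / (M * H)) +
      (BB + 2304 * (R * S ^ 4 * N ^ 2 / (M * H)) + 1152 * (M * N ^ 2 / (R * z)) +
        1728 * (M * N ^ 2 / (R * G)) + 576 * (S ^ 2 * N ^ 2 / G ^ 2) + 100 * T ^ 2 * (M * N)) +
      280 * T ^ 2 * (M * N * (1 + N / (R * z))) + 84 * T ^ 2 * (M * N * (1 + N / (R * H))) +
      100000 * T ^ 3 * (M * N ^ 2 / (R * H) + S ^ 2 * N ^ 2 / H ^ 2 + M * N)) ≤
    200000 * T ^ 3 * (R * M ^ 2 * N + M ^ 2 * N ^ 2 / z + M ^ 2 * N ^ 2 / G +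
      R * M * N ^ 2 * S ^ 2 / G ^ 2 + R ^ 2 * S ^ 4 * N ^ 2 / H + R * M * (B1 + BB)) := by
  have hz0 : 0 < z := by linarith
  have hH : 0 < H := lt_of_lt_of_le hG hGH
  have hT0 : 0 < T := by linarith
  have hT3 : (1 : ℝ) ≤ T ^ 3 := one_le_pow₀ hT
  have hT23 : T ^ 2 ≤ T ^ 3 := pow_le_pow_right₀ hT (by norm_num)
  have e : R * M * ((B1 + 32 * (R * S ^ 4 * N ^ 2) / (M * H)) +
      (BB + 2304 * (R * S ^ 4 * N ^ 2 / (M * H)) + 1152 * (M * N ^ 2 / (R * z)) +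
        1728 * (M * N ^ 2 / (R * G)) + 576 * (S ^ 2 * N ^ 2 / G ^ 2) + 100 * T ^ 2 * (M * N)) +
      280 * T ^ 2 * (M * N * (1 + N / (R * z))) + 84 * T ^ 2 * (M * N * (1 + N / (R * H))) +
      100000 * T ^ 3 * (M * N ^ 2 / (R * H) + S ^ 2 * N ^ 2 / H ^ 2 + M * N)) =
      R * M * (B1 + BB) + 2336 * (R ^ 2 * S ^ 4 * N ^ 2 / H) + 1152 * (M ^ 2 * N ^ 2 / z) +
        1728 * (M ^ 2 * N ^ 2 / G) + 576 * (R * M * N ^ 2 * S ^ 2 / G ^ 2) +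
        T ^ 2 * (464 * (R * M ^ 2 * N) + 280 * (M ^ 2 * N ^ 2 / z) + 84 * (M ^ 2 * N ^ 2 / H)) +
        100000 * T ^ 3 * (M ^ 2 * N ^ 2 / H + R * M * N ^ 2 * S ^ 2 / H ^ 2 + R * M ^ 2 * N) := by
    field_simp
    ring
  rw [e]
  have h1 : 0 ≤ R * M * (B1 + BB) := by positivity
  have h2 : 0 ≤ R ^ 2 * S ^ 4 * N ^ 2 / H := by positivity
  have h3 : 0 ≤ M ^ 2 * N ^ 2 / z := by positivity
  have h4 : 0 ≤ M ^ 2 * N ^ 2 / G := by positivity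
  have h5 : 0 ≤ R * M * N ^ 2 * S ^ 2 / G ^ 2 := by positivity
  have h6 : 0 ≤ R * M ^ 2 * N := by positivity
  have g4 : M ^ 2 * N ^ 2 / H ≤ M ^ 2 * N ^ 2 / G :=
    div_le_div_of_nonneg_left (by positivity) hG hGH
  have g5 : R * M * N ^ 2 * S ^ 2 / H ^ 2 ≤ R * M * N ^ 2 * S ^ 2 / G ^ 2 :=
    div_le_div_of_nonneg_left (by positivity) (by positivity) (pow_le_pow_left₀ hG.le hGH 2)
  have h7 : 0 ≤ M ^ 2 * N ^ 2 / H := by positivity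
  generalize R * M * (B1 + BB) = x1 at *
  generalize R ^ 2 * S ^ 4 * N ^ 2 / H = x2 at *
  generalize M ^ 2 * N ^ 2 / z = x3 at *
  generalize M ^ 2 * N ^ 2 / G = x4 at *
  generalize R * M * N ^ 2 * S ^ 2 / G ^ 2 = x5 at *
  generalize R * M ^ 2 * N = x6 at *
  generalize M ^ 2 * N ^ 2 / H = x7 at *
  generalize R * M * N ^ 2 * S ^ 2 / H ^ 2 = x8 at *
  have k0 : T ^ 2 * (464 * x6 + 280 * x3 + 84 * x7) ≤ T ^ 3 * (464 * x6 + 280 * x3 + 84 * x4) := by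
    have l1 : T ^ 2 * (464 * x6 + 280 * x3 + 84 * x7) ≤ T ^ 3 * (464 * x6 + 280 * x3 + 84 * x7) :=
      mul_le_mul_of_nonneg_right hT23 (by linarith)
    have l2 : T ^ 3 * (464 * x6 + 280 * x3 + 84 * x7) ≤ T ^ 3 * (464 * x6 + 280 * x3 + 84 * x4) :=
      mul_le_mul_of_nonneg_left (by linarith) (by positivity)
    exact l1.trans l2
  have k8 : 100000 * T ^ 3 * (x7 + x8 + x6) ≤ 100000 * T ^ 3 * (x4 + x5 + x6) :=
    mul_le_mul_of_nonneg_left (by linarith) (by positivity)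
  have k1 := mul_le_mul_of_nonneg_right hT3 h1
  have k2 := mul_le_mul_of_nonneg_right hT3 h2
  have k3 := mul_le_mul_of_nonneg_right hT3 h3
  have k4 := mul_le_mul_of_nonneg_right hT3 h4
  have k5 := mul_le_mul_of_nonneg_right hT3 h5
  have m6 : 0 ≤ T ^ 3 * x6 := by positivity
  have m1 : 0 ≤ T ^ 3 * x1 := by positivity
  have m2 : 0 ≤ T ^ 3 * x2 := by positivity
  have m3 : 0 ≤ T ^ 3 * x3 := by positivity
  have m4 : 0 ≤ T ^ 3 * x4 := by positivity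
  have m5 : 0 ≤ T ^ 3 * x5 := by positivity
  have f : 200000 * T ^ 3 * (x6 + x3 + x4 + x5 + x2 + x1) =
      200000 * (T ^ 3 * x6) + 200000 * (T ^ 3 * x3) + 200000 * (T ^ 3 * x4) +
      200000 * (T ^ 3 * x5) + 200000 * (T ^ 3 * x2) + 200000 * (T ^ 3 * x1) := by ring
  have g : T ^ 3 * (464 * x6 + 280 * x3 + 84 * x4) =
      464 * (T ^ 3 * x6) + 280 * (T ^ 3 * x3) + 84 * (T ^ 3 * x4) := by ring
  have g' : 100000 * T ^ 3 * (x4 + x5 + x6) =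
      100000 * (T ^ 3 * x4) + 100000 * (T ^ 3 * x5) + 100000 * (T ^ 3 * x6) := by ring
  rw [g] at k0
  rw [g'] at k8
  rw [f]
  linarith

theorem tQfi (h1 : LcaStmt) (h2 : QexStmt) (h3 : LcrStmt) (h4 : QcgStmt) (h5 : QgtStmt)
    (h6 : QfuStmt) (h7 : QgoStmt) : QfiStmt := by
  refine ⟨200000, by norm_num, 3, ?_⟩
  intro X T z a R S M N H G P α β B hTau hz hB hS hN hM hG hGH hRN hHR hX hRS hP hα hβ hTT
  have hR : 1 ≤ R := by omega
  have hH : 1 ≤ H := hG.trans hGH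
  have hSz : Sz X T z R S M N := ⟨hTau, hz, hR, hS, hN, hM, hRN, hX, hRS⟩
  have hPr : ∀ w ∈ P, R < w.1 ∧ w.1 ≤ 2 * R ∧ S < w.2 ∧ w.2 ≤ 2 * S := fun w hw =>
    ⟨(hP w hw).1, (hP w hw).2.1, (hP w hw).2.2.1, (hP w hw).2.2.2.1⟩
  have hω : ∀ n1 n2, ‖om β H n1 n2‖ ≤ 1 := by
    intro n1 n2
    unfold om
    split_ifs
    · rw [norm_mul, RCLike.norm_conj]
      exact mul_le_one₀ (hβ _) (norm_nonneg _) (hβ _)
    · simp
  have hωs : ∀ n1 n2, om β H n1 n2 ≠ 0 → Nat.gcd n1 n2 ≤ H := by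
    intro n1 n2 h
    by_contra hc
    exact h (if_neg hc)
  obtain ⟨c, hc1, hc0, hca⟩ := h1 a R S M N P α β hM hPr hα
  have hex := h2 z a R S M N H P β c hM hP hβ hc1 hc0
  have hcr := h3 X T z a R S M N P hSz hP
  have hcg := h4 X T z a R S M N H P hSz hP hH
  have hgt := h5 X T z a R S M N H P hSz hP hH
  have hfu := h6 X T z a R S M N H G P c (om β H) B hSz hH hG hHR hP hω hc1 hc0
    (fun g hg1 hg2 γ hγ => hTT g (by omega) hg2 γ (om β H) hγ hω hωs)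
  have hgo := h7 (B 1) z a R S M N H P c (om β H) (hB 1) hR hS hN hM hH hRN hHR hP hω hc1 hc0
    (fun γ hγ => hTT 1 le_rfl hG γ (om β H) hγ hω hωs)
  have hRM : (0 : ℝ) ≤ (R : ℝ) * M := by positivity
  have hsum : ∑ g ∈ Icc 1 G, B g = B 1 + ∑ g ∈ Icc 2 G, B g := by
    have h6 : Icc 1 G = insert 1 (Icc 2 G) := by
      ext x
      rw [mem_insert, mem_Icc, mem_Icc]
      omega
    rw [h6, Finset.sum_insert]
    rw [mem_Icc]
    omega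
  have hnum := Qfi_num (R : ℝ) M N S H G T z (B 1) (∑ g ∈ Icc 2 G, B g) (by exact_mod_cast hR)
    (by exact_mod_cast (by omega : 0 < M)) (by exact_mod_cast hN) (by exact_mod_cast hS)
    (by exact_mod_cast hG) (by exact_mod_cast hGH) hTau.1 hz (hB 1)
    (Finset.sum_nonneg fun g _ => hB g)
  rw [hsum]
  exact le_trans hca (le_trans (mul_le_mul_of_nonneg_left
    (le_trans hex (add_le_add (add_le_add (add_le_add (add_le_add hgo hfu) hcr) hcg) hgt)) hRM) hnum)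

end Pool.Agent.Lib.SL
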