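import Pool.Agent.Lib.SLH.DefH
import Pool.Agent.Lib.SL.SpecCK

/-!
MP_00e23e_nt, project SL, P2 (a lock of arbitrarily small size; architect helper3), chapter C': the second Cauchy inequality with
colours, weights supported on gcd(n1, n2) ≤ t0, pair bound with gcd(q, q'). Final statement SLH.SecHStmt (SLH/DefH.lean). The models
are the files of chapter C with colours (Lib/SL/Cp0K.lean, Cp1K.lean, CseK.lean); everything is in the namespace SL.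

RULES. Module X: file Pool/Agent/Lib/SLH/X.lean, first line `import Pool.Agent.Lib.SLH.SpecC`, then
`namespace Pool.Agent.Lib.SL` and `open Finset Pool.Agent.Lib.EH3 Pool.Agent.Lib.TB Pool.Agent.Results.MP_00e23e_nt Pool.Agent.Lib.MI`
(the names of SL win over those of MI), private lemmas with names starting with X_ (they must be private), final theorem
`theorem tX (h1 : AStmt) ... : XStmt`; the statements listed under Uses are hypotheses of your theorem, in this order. The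
docstring contains a complete proof; MODEL = copy this file and change it. Never use congr!. Every module below 60 s.
-/

namespace Pool.Agent.Lib.SL

open Finset Pool.Agent.Lib.EH3 Pool.Agent.Lib.TB Pool.Agent.Results.MP_00e23e_nt Pool.Agent.Lib.MI

open Classical in
/-- the term of the index p at (n1, n2), restricted to gcd(n1, n2) ≤ t0 -/
noncomputable def Fr (a : ℕ → ℕ → ℤ) (t0 g : ℕ) (h : ℤ) (r s1 s2 n1 n2 : ℕ) : ℂ :=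
  if Nat.gcd n1 n2 ≤ t0 then Fp a g h r s1 s2 n1 n2 else 0

/-- Module Hgq (theorem tHgq; the sum of the gcds). Uses: nothing. MODEL: Lib/MJ/Egc.lean.
Proof. gcd(q,q') ≤ ∑_{d ∣ q, d ∣ q'} d, and for d ∈ Icc 1 Q the number of (q,q') with d ∣ q, d ∣ q' is ≤ (Q/d)^2: the sum is ≤ ∑_{d ∈ Icc 1 Q} d (Q/d)^2 = Q^2 ∑_{d ≤ Q} 1/d ≤ Q^2 (1 + log Q) ≤ T Q^2 (Q = 0: both sides 0; log Q ≤ log X). -/
def HgqStmt : Prop := ∀ (X T : ℝ) (Q : ℕ), Tau X T → (Q : ℝ) ≤ X →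
  ∑ q ∈ Icc 1 Q, ∑ q' ∈ Icc 1 Q, (Nat.gcd q q' : ℝ) ≤ T * (Q : ℝ) ^ 2

/-- Module Hgv (theorem tHgv; the average of gcd(Theta, ϱ) gcd(q, q')). Uses: MI.T1GsaStmt, HgqStmt. MODEL: Lib/SL/Cgv.lean.
Proof. For fixed x, x' ∈ QQ with Θ = Tx x x' ≠ 0: |Θ| ≤ 2 H 8 R V^2/R0 ≤ X, so ∑_{ϱ ∈ Ioc R0 2R0} gcd(Θ, ϱ) ≤ 2 R0 T (T1Gsa, first part, R := R0). Then the sum over x, x' of gcd(x.1, x'.1) is (∑_{q,q' ∈ Icc 1 Q} gcd(q,q')) times (number of the (v1, v2, h))^2, Q = 2R/R0 (natural division, Q ≤ 2R ≤ X) ≤ T (2R/R0)^2 ((2V/m1) (2V/m2) (2H))^2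
(multiples of m in Ioc V 2V: at most 2V/m; Hs ⊆ [-H, H] without 0). Total ≤ 2 R0 T T (16 R H V^2/(R0 m1 m2))^2. -/
def HgvStmt : Prop := ∀ (X T : ℝ) (R R0 V H m1 m2 : ℕ) (Hs : Finset ℤ), Tau X T → 1 ≤ R0 → 1 ≤ V → 1 ≤ H → 1 ≤ m1 → 1 ≤ m2 →
  (∀ h ∈ Hs, h ≠ 0 ∧ |h| ≤ (H : ℤ)) → 16 * ((H : ℝ) * R * (V : ℝ) ^ 2) ≤ X →
  ∑ ϱ ∈ Ioc R0 (2 * R0), ∑ x ∈ QQ R R0 V Hs m1 m2, ∑ x' ∈ QQ R R0 V Hs m1 m2,
    (if Tx x x' ≠ 0 then (Int.gcd (Tx x x') ϱ : ℝ) * (Nat.gcd x.1 x'.1 : ℝ) else 0) ≤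
    512 * T ^ 2 * (((R : ℝ) * H * (V : ℝ) ^ 2 / (m1 * m2)) ^ 2 / R0)

open Classical in
/-- Module Hnu (theorem tHnu; the number of (n1, n2) for one index). Uses: nothing. MODEL: Lib/SL/Cnu.lean (‖Fr‖ ≤ ‖Fp‖). -/
def HnuStmt : Prop := ∀ (a b1 b2 : ℕ → ℕ → ℤ) (ρ : ℕ → ℕ) (v : ℕ → ℕ → ℕ) (t0 g R0 V R S N : ℕ) (h h' : ℤ)
    (r s1 s2 r' s1' s2' : ℕ), 1 ≤ g → 1 ≤ R → R ≤ N → Su a b1 b2 ρ v g R0 V R S N r s1 s2 →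
  ‖∑ n1 ∈ Ioc N (2 * N), ∑ n2 ∈ Ioc N (2 * N),
      Fr a t0 g h r s1 s2 n1 n2 * (starRingEnd ℂ) (Fr a t0 g h' r' s1' s2' n1 n2)‖ ≤
    36 * (N : ℝ) ^ 2 / ((R : ℝ) * g)

open Classical in
/-- Module Hp0 (theorem tHp0; the diagonal with the same key). Uses: HnuStmt, CprStmt, CdcStmt. MODEL: Lib/SL/Cp0K.lean (Fr instead of Fp). -/
def Hp0Stmt : Prop := ∀ (X T : ℝ) (a : ℕ → ℕ → ℤ) (b : ℕ → ℕ → ℕ → ℤ) (ρ : ℕ → ℕ) (v col : ℕ → ℕ → ℕ)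
    (K t0 g R0 V R S N H g1 g2 : ℕ)
    (Hs : Finset ℤ) (I : Finset (ℤ × ℕ × ℕ × ℕ)), Tau X T → 1 ≤ g → 1 ≤ R → 1 ≤ S → 1 ≤ N → 1 ≤ H → 1 ≤ R0 → 1 ≤ V →
  R ≤ N → 64 * ((H : ℝ) * R * (S : ℝ) ^ 2) ≤ X → (∀ h ∈ Hs, h ≠ 0 ∧ |h| ≤ (H : ℤ)) →
  IgK a b ρ v col K g R0 V R S N g1 g2 Hs I →
  ∑ p ∈ I, ∑ p' ∈ I, (if KpK ρ v col K p = KpK ρ v col K p' ∧ Tx (Ix ρ v p) (Ix ρ v p') = 0 then
    ‖∑ n ∈ (Ioc N (2 * N)) ×ˢ (Ioc N (2 * N)), Fr a t0 g p.1 p.2.1 p.2.2.1 p.2.2.2 n.1 n.2 *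
      (starRingEnd ℂ) (Fr a t0 g p'.1 p'.2.1 p'.2.2.1 p'.2.2.2 n.1 n.2)‖ else 0) ≤
    2304 * T ^ 6 * ((S : ℝ) ^ 2 * (N : ℝ) ^ 2 * H / (g : ℝ) ^ 3)

open Classical in
/-- Module Hp1 (theorem tHp1; the pairs with the same key and Theta ≠ 0). Uses: CprStmt, HgvStmt. MODEL: Lib/SL/Cp1K.lean.
Proof. As the MODEL: Cpr with G ϱ x x' = D gcd(Tx x x', ϱ) gcd(x.1, x'.1) [Tx x x' ≠ 0] (x.1 = r/ρ r for x = Ix ρ v p) and Hgv with m_i = g/g_i (H ≥ 1). -/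
def Hp1Stmt : Prop := ∀ (X T D : ℝ) (a : ℕ → ℕ → ℤ) (b : ℕ → ℕ → ℕ → ℤ) (ρ : ℕ → ℕ) (v col : ℕ → ℕ → ℕ)
    (K g R0 V R S N H g1 g2 : ℕ)
    (Hs : Finset ℤ) (I : Finset (ℤ × ℕ × ℕ × ℕ)), Tau X T → 0 ≤ D → 1 ≤ g → 1 ≤ R → 1 ≤ S → 1 ≤ N → 1 ≤ H → 1 ≤ R0 →
  1 ≤ V → 64 * ((H : ℝ) * R * (S : ℝ) ^ 2) ≤ X → (∀ h ∈ Hs, h ≠ 0 ∧ |h| ≤ (H : ℤ)) →
  IgK a b ρ v col K g R0 V R S N g1 g2 Hs I →
  ∑ p ∈ I, ∑ p' ∈ I, (if KpK ρ v col K p = KpK ρ v col K p' ∧ Tx (Ix ρ v p) (Ix ρ v p') ≠ 0 then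
    D * (Int.gcd (Tx (Ix ρ v p) (Ix ρ v p')) (ρ p.2.1) : ℝ) *
      (Nat.gcd (p.2.1 / ρ p.2.1) (p'.2.1 / ρ p'.2.1) : ℝ) else 0) ≤
    2048 * T ^ 2 * (D * ((S : ℝ) ^ 2 * (R : ℝ) ^ 2 * (H : ℝ) ^ 2 * (V : ℝ) ^ 2 * g1 * g2 / (R0 * (g : ℝ) ^ 4)))

/-- Module Hse (theorem tHse). FINAL STATEMENT SLH.SecHStmt. Uses: CcsStmt, CouKStmt, Hp0Stmt, Hp1Stmt. MODEL: Lib/SL/CseK.lean.
Proof. As the MODEL, with ω n Fp = ω n Fr (ω n = 0 if gcd n1 n2 > t0), Ccs with F = Fr; ∑_n Fr conj Fr' = ∑_n (if gcd n1 n2 ≤ t0 then Fp conj Fp' else 0) (by cases), so the hypothesis bounds the pairs with Theta ≠ 0 by D gcd(Theta, ρ r) gcd(q, q'). C = 27648, A = 10 (T^2 ≤ T^6). -/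
def HseStmt : Prop := SLH.SecHStmt

end Pool.Agent.Lib.SL
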