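import Pool.Agent.Lib.SLH.DefD
import Pool.Agent.Lib.SL.AllD

/-!
MP_00e23e_nt, project SL, P2 (a lock of arbitrarily small size; architect helper3), chapter D': the dispersion method where the
tuples with gcd(n1, n2) > t0 are removed BEFORE Poisson summation. Final statement SLH.DspGStmt (SLH/DefD.lean, t0 = H).
Chapter D (Lib/SL/SpecD.lean) is the model; everything is in the namespace SL, so the old files can be copied.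

RULES. Module X: file Pool/Agent/Lib/SLH/X.lean, first line `import Pool.Agent.Lib.SLH.SpecD`, then
`namespace Pool.Agent.Lib.SL` and `open Finset Pool.Agent.Lib.EH3 Pool.Agent.Lib.TB Pool.Agent.Results.MP_00e23e_nt Pool.Agent.Lib.MI`
(the names of SL win over those of MI), private lemmas with names starting with X_ (they must be private), final theorem
`theorem tX (h1 : AStmt) ... : XStmt`; the statements listed under Uses are hypotheses of your theorem, in this order. The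
docstring contains a complete proof; MODEL = copy this file and change it. Never use congr!. Every module below 60 s.
The constants are generous.
-/

namespace Pool.Agent.Lib.SL

open Finset Pool.Agent.Lib.EH3 Pool.Agent.Lib.TB Pool.Agent.Results.MP_00e23e_nt Pool.Agent.Lib.MI

/-- the weight of the main terms -/
noncomputable def om (β : ℕ → ℂ) (t0 n1 n2 : ℕ) : ℂ :=
  if Nat.gcd n1 n2 ≤ t0 then β n1 * (starRingEnd ℂ) (β n2) else 0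

open Classical in
/-- Module Qex (theorem tQex; opening the square). Uses: nothing. MODEL: Lib/SL/Lex.lean.
Proof. As in the MODEL; a tuple with nonzero coefficient has (r,s1), (r,s2) ∈ P. If gcd(n1,n2) ≤ t0 then om β t0 n1 n2 = β n1 conj (β n2) and the tuple is treated as in the MODEL (first, second and third sum). If t0 < gcd(n1,n2) then om = 0, the terms of the first two sums are 0, and the norm of the term is ≤ ‖Ph‖ ≤ ‖Ps‖ + Cr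
(as in the MODEL); Cr is in the fourth sum, and if Ps ≠ 0 then Gg a (gcd s1 s2) holds (as in the MODEL): the fifth sum. -/
def QexStmt : Prop := ∀ (z : ℝ) (a : ℕ → ℕ → ℤ) (R S M N t0 : ℕ) (P : Finset (ℕ × ℕ)) (β : ℕ → ℂ) (c : ℕ × ℕ → ℂ), 8 ≤ M →
  Pr a R S z P → (∀ n, ‖β n‖ ≤ 1) → (∀ w, ‖c w‖ ≤ 1) → (∀ w, w ∉ P → c w = 0) →
  ∑ r ∈ Ioc R (2 * R), TR M (fun m =>
      ‖∑ s ∈ Ioc S (2 * S), c (r, s) * ∑ n ∈ Ioc N (2 * N), β n * Dl (a r s) r s (m * n)‖ ^ 2) ≤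
    ‖∑ r ∈ Ioc R (2 * R), ∑ s1 ∈ Ioc S (2 * S), ∑ s2 ∈ Ioc S (2 * S), ∑ n1 ∈ Ioc N (2 * N), ∑ n2 ∈ Ioc N (2 * N),
      (if Gg a 1 r s1 s2 n1 n2 then
        c (r, s1) * (starRingEnd ℂ) (c (r, s2)) * om β t0 n1 n2 * Ph a M r s1 s2 n1 n2 else 0)‖ +
    ‖∑ r ∈ Ioc R (2 * R), ∑ s1 ∈ Ioc S (2 * S), ∑ s2 ∈ Ioc S (2 * S), ∑ n1 ∈ Ioc N (2 * N), ∑ n2 ∈ Ioc N (2 * N),
      (if 2 ≤ Nat.gcd s1 s2 ∧ Gg a (Nat.gcd s1 s2) r s1 s2 n1 n2 then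
        c (r, s1) * (starRingEnd ℂ) (c (r, s2)) * om β t0 n1 n2 * Ps a M r s1 s2 n1 n2 else 0)‖ +
    ∑ r ∈ Ioc R (2 * R), ∑ s1 ∈ Ioc S (2 * S), ∑ s2 ∈ Ioc S (2 * S), ∑ n1 ∈ Ioc N (2 * N), ∑ n2 ∈ Ioc N (2 * N),
      (if Bd a P r s1 s2 n1 n2 then Cr a M r s1 s2 n1 n2 else 0) +
    ∑ r ∈ Ioc R (2 * R), ∑ s1 ∈ Ioc S (2 * S), ∑ s2 ∈ Ioc S (2 * S), ∑ n1 ∈ Ioc N (2 * N), ∑ n2 ∈ Ioc N (2 * N),
      (if (r, s1) ∈ P ∧ (r, s2) ∈ P ∧ t0 < Nat.gcd n1 n2 then Cr a M r s1 s2 n1 n2 else 0) +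
    ∑ r ∈ Ioc R (2 * R), ∑ s1 ∈ Ioc S (2 * S), ∑ s2 ∈ Ioc S (2 * S), ∑ n1 ∈ Ioc N (2 * N), ∑ n2 ∈ Ioc N (2 * N),
      (if (r, s1) ∈ P ∧ (r, s2) ∈ P ∧ Gg a (Nat.gcd s1 s2) r s1 s2 n1 n2 ∧ t0 < Nat.gcd n1 n2 then
        ‖Ps a M r s1 s2 n1 n2‖ else 0)

/-! ### The averaged terms with gcd(n1, n2) > t0 -/

open Classical in
/-- Module Qcn (theorem tQcn; n in a class with a large common factor with n1). Uses: nothing. MODEL: Lib/SL/Lcn.lean.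
Proof. If there is an n with r ∣ m n - b then m is coprime to r (b is), so the n with r ∣ m n - b form (at most) one class modulo r. For a divisor d of n1 with d > t0 the n with gcd(n1, n) = d are multiples of d in this class, d is coprime to r (n1 is): one class modulo r d, at most N/(r d) + 1 ≤ N/(R t0) + 1 of them in
Ioc N 2N. The number of the divisors d of n1 is ≤ T. -/
def QcnStmt : Prop := ∀ (X T : ℝ) (R N m n1 r t0 : ℕ) (b : ℤ), Tau X T → 1 ≤ R → R < r → 1 ≤ t0 → 1 ≤ n1 → (n1 : ℝ) ≤ X →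
  n1.Coprime r → Int.gcd b r = 1 →
  (((Ioc N (2 * N)).filter (fun n : ℕ => (r : ℤ) ∣ ((m * n : ℕ) : ℤ) - b ∧ t0 < Nat.gcd n1 n)).card : ℝ) ≤
    T * ((N : ℝ) / (R * t0) + 1)

open Classical in
/-- Module Qcb (theorem tQcb; first full, second averaged). Uses: LnaStmt, QcnStmt. MODEL: Lib/SL/Lcb.lean.
Proof. A nonzero term has (r,s1), (r,s2) ∈ P, r s1 ∣ m n1 - a1, r ∣ m n2 - a2, t0 < gcd(n1,n2); n1 is coprime to r (a1 is). For fixed m, n1, (r,s1) (at most 7 T M N triples in total by Lna, first part) the sum over s2 and the n2 of Qcn (m, n1, r, b = a2) of 1/s2 is ≤ T (N/(R t0) + 1) (∑_{s2 ∈ Ioc S 2S} 1/s2 ≤ 1). -/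
def QcbStmt : Prop := ∀ (X T z : ℝ) (a : ℕ → ℕ → ℤ) (R S M N t0 : ℕ) (P : Finset (ℕ × ℕ)), Sz X T z R S M N →
  Pr a R S z P → 1 ≤ t0 →
  ∑ m ∈ Icc (M / 2) (3 * M), ∑ r ∈ Ioc R (2 * R), ∑ s1 ∈ Ioc S (2 * S), ∑ s2 ∈ Ioc S (2 * S),
    ∑ n1 ∈ Ioc N (2 * N), ∑ n2 ∈ Ioc N (2 * N),
      (if (r, s1) ∈ P ∧ (r, s2) ∈ P ∧ t0 < Nat.gcd n1 n2 then
        D1 (a r s1) r s1 (m * n1) * D2 (a r s2) r s2 (m * n2) else 0) ≤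
    7 * T ^ 2 * ((M : ℝ) * N * (1 + N / ((R : ℝ) * t0)))

open Classical in
/-- Module Qcc (theorem tQcc; both averaged). Uses: LnaStmt, QcnStmt. MODEL: Lib/SL/Lcc.lean.
Proof. A nonzero term has (r,s1), (r,s2) ∈ P, r ∣ m n1 - a1, r ∣ m n2 - a2, t0 < gcd(n1,n2); n1 is coprime to r. For fixed s1 the number of (m, n1, r) with r ∣ m n1 - a r s1, (r,s1) ∈ P is ≤ 7 T M N (Lna, second part); for each of them the sum over s2 and the n2 of Qcn of 1/s2 is ≤ T (N/(R t0) + 1); ∑ 1/s1 ≤ 1. -/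
def QccStmt : Prop := ∀ (X T z : ℝ) (a : ℕ → ℕ → ℤ) (R S M N t0 : ℕ) (P : Finset (ℕ × ℕ)), Sz X T z R S M N →
  Pr a R S z P → 1 ≤ t0 →
  ∑ m ∈ Icc (M / 2) (3 * M), ∑ r ∈ Ioc R (2 * R), ∑ s1 ∈ Ioc S (2 * S), ∑ s2 ∈ Ioc S (2 * S),
    ∑ n1 ∈ Ioc N (2 * N), ∑ n2 ∈ Ioc N (2 * N),
      (if (r, s1) ∈ P ∧ (r, s2) ∈ P ∧ t0 < Nat.gcd n1 n2 then
        D2 (a r s1) r s1 (m * n1) * D2 (a r s2) r s2 (m * n2) else 0) ≤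
    7 * T ^ 2 * ((M : ℝ) * N * (1 + N / ((R : ℝ) * t0)))

open Classical in
/-- Module Qcg (theorem tQcg; the averaged terms with a large gcd). Uses: MI.DtrStmt, QcbStmt, QccStmt. MODEL: Lib/SL/Lcr.lean.
Proof. Cr ≤ 4 ∑_{m ∈ Icc (M/2) 3M} (three terms) (Dtr); exchange the sums; D2 D1 from Qcb by exchanging (s1, n1) and (s2, n2) (gcd is symmetric). 4 (7 + 7 + 7) = 84. -/
def QcgStmt : Prop := ∀ (X T z : ℝ) (a : ℕ → ℕ → ℤ) (R S M N t0 : ℕ) (P : Finset (ℕ × ℕ)), Sz X T z R S M N →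
  Pr a R S z P → 1 ≤ t0 →
  ∑ r ∈ Ioc R (2 * R), ∑ s1 ∈ Ioc S (2 * S), ∑ s2 ∈ Ioc S (2 * S), ∑ n1 ∈ Ioc N (2 * N), ∑ n2 ∈ Ioc N (2 * N),
      (if (r, s1) ∈ P ∧ (r, s2) ∈ P ∧ t0 < Nat.gcd n1 n2 then Cr a M r s1 s2 n1 n2 else 0) ≤
    84 * T ^ 2 * ((M : ℝ) * N * (1 + N / ((R : ℝ) * t0)))

/-! ### Two full congruences, gcd(n1, n2) > t0 -/

open Classical in
/-- Module Qpr (theorem tQpr; primitive lattice points). Uses: LmvStmt. MODEL: Lib/SL/Lnd.lean.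
Proof. L = the set in question, q, a1, a2 as there. (1) If u.1 v.2 = u.2 v.1 for all u, v ∈ L then L has at most one element: u.1 v.2 = u.2 v.1 with gcd(u.1,u.2) = gcd(v.1,v.2) = 1 and positive coordinates gives u = v. (2) Otherwise take u, v ∈ L with u.1 v.2 ≠ u.2 v.1 and e from Lmv with w0 = u, B = ν, m = max |e.1| |e.2| ≤ ν.
As in the MODEL: D(w) = e.1 w.2 - e.2 w.1 is a multiple of q, |D(w)| ≤ 2 m ν, at most 4 m ν/q + 1 values; D(u), D(v) are not both 0, so 2 m ν ≥ q and the number of values is ≤ 6 m ν/q. A fibre of D: w - w' = t e, |t| m < ν: at most ν/m + 1 ≤ 2ν/m points (w ↦ the coordinate w.i with |e.i| = m is injective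
on the fibre, with values in Icc 1 ν congruent modulo m). Total ≤ 12 ν^2/q. -/
def QprStmt : Prop := ∀ (q ν : ℕ) (a1 a2 : ℤ), 1 ≤ q → 1 ≤ ν → Int.gcd a1 q = 1 → Int.gcd a2 q = 1 →
  ((((Icc 1 ν) ×ˢ (Icc 1 ν)).filter (fun w : ℕ × ℕ => Nat.Coprime w.1 w.2 ∧
    (q : ℤ) ∣ (w.1 : ℤ) * a2 - (w.2 : ℤ) * a1)).card : ℝ) ≤ 12 * (ν : ℝ) ^ 2 / q + 1

open Classical in
/-- Module Qgy (theorem tQgy; the number of solutions with a large gcd). Uses: QprStmt. MODEL (for the count of the y): Lib/SL/Ldc.lean.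
Proof. K = lcm(q1,q2). For a solution (m, n1, n2) put d = gcd(n1,n2) > t0, p = (n1/d, n2/d) coprime, y = m d. (m, n1, n2) is determined by p, y and the divisor m of y (y ≤ 6 M N ≤ X: at most T divisors). Properties of p: 1 ≤ p.1, p.2, p.1 ≤ 2N/t0, p.2 < 2 p.1 (n2 ≤ 2N < 2 n1), and q0 ∣ p.1 a2 - p.2 a1: q0 ∣ m n1 - a1,
m n2 - a2, so n1, m are coprime to q0 and q0 ∣ n1 a2 - n2 a1 = d (p.1 a2 - p.2 a1), d coprime to q0. Properties of y: y p.1 = m n1 ≤ 6 M N, q1 ∣ y p.1 - a1, q2 ∣ y p.2 - a2; for fixed p these y are congruent modulo K (p.1 is coprime to q1, p.2 to q2): at most 6 M N/(p.1 K) + 1 of them. Let i = Nat.log 2 p.1, so 2^i ≤ p.1 < 2^(i+1),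
2^i ≤ 2N/t0; p ∈ (Icc 1 2^(i+2))^2: at most 192 4^i/q0 + 1 values of p for given i (Qpr with ν = 2^(i+2), q = q0). So the number is ≤ T ∑_i (192 4^i/q0 + 1) (6 M N/(2^i K) + 1) over the i with 2^i ≤ 2N/t0 =: P0 (real). ∑ 2^i ≤ 2 P0, ∑ 4^i ≤ 4 P0^2/3 ≤ 2 P0^2, ∑ 2^(-i) ≤ 2, number of the i ≤ Nat.log 2 (2N) + 1 ≤ 2T
(log (2N) ≤ log X ≤ T - 1, 1/log 2 < 2; 2N ≤ 6 M N ≤ X). Total ≤ T (2304 M N P0/(q0 K) + 12 M N/K + 384 P0^2/q0 + 2T) ≤ 5000 T^2 (..). -/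
def QgyStmt : Prop := ∀ (X T : ℝ) (M N q1 q2 q0 t0 : ℕ) (a1 a2 : ℤ), Tau X T → 8 ≤ M → 1 ≤ N → 1 ≤ t0 → 1 ≤ q0 →
  1 ≤ q1 → 1 ≤ q2 → q0 ∣ q1 → q0 ∣ q2 → 6 * (M : ℝ) * N ≤ X → Int.gcd a1 q1 = 1 → Int.gcd a2 q2 = 1 →
  (((Icc (M / 2) (3 * M) ×ˢ ((Ioc N (2 * N)) ×ˢ (Ioc N (2 * N)))).filter (fun w => (q1 : ℤ) ∣ ((w.1 * w.2.1 : ℕ) : ℤ) - a1 ∧
    (q2 : ℤ) ∣ ((w.1 * w.2.2 : ℕ) : ℤ) - a2 ∧ t0 < Nat.gcd w.2.1 w.2.2)).card : ℝ) ≤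
    5000 * T ^ 2 * ((M : ℝ) * (N : ℝ) ^ 2 / (t0 * q0 * (Nat.lcm q1 q2 : ℕ)) + (M : ℝ) * N / (Nat.lcm q1 q2 : ℕ) +
      (N : ℝ) ^ 2 / ((t0 : ℝ) ^ 2 * q0) + 1)

open Classical in
/-- Module Qgt (theorem tQgt; all terms with two full congruences and a large gcd). Uses: MI.DtrStmt, QgyStmt, MJ.EgcStmt. MODEL: Lib/SL/Ldd.lean.
Proof. ‖Ps‖ ≤ 4 ∑_{m ∈ Icc (M/2) (3M)} (both congruences) (Dtr for the real function). For fixed (r,s1), (r,s2) ∈ P, g = gcd s1 s2: Qgy with q1 = r s1, q2 = r s2, q0 = r g (6 M N ≤ X by Sz), lcm = r lcm(s1,s2), g lcm(s1,s2) = s1 s2: 4 times the bound. Sum over r > R (R values), s1, s2 > S: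
M N^2/(t0 r g r lcm) ≤ M N^2/(t0 R^2 s1 s2) → M N^2/(R t0) (∑ 1/s ≤ 1); M N/(r lcm) → M N 4T (Egc with p = 1, as in the MODEL); N^2/(t0^2 r g) ≤ N^2/(t0^2 R) → S^2 N^2/t0^2; 1 → R S^2 ≤ M N. Total ≤ 20000 T^2 (M N^2/(R t0) + S^2 N^2/t0^2 + 5T M N). -/
def QgtStmt : Prop := ∀ (X T z : ℝ) (a : ℕ → ℕ → ℤ) (R S M N t0 : ℕ) (P : Finset (ℕ × ℕ)), Sz X T z R S M N →
  Pr a R S z P → 1 ≤ t0 →
  ∑ r ∈ Ioc R (2 * R), ∑ s1 ∈ Ioc S (2 * S), ∑ s2 ∈ Ioc S (2 * S), ∑ n1 ∈ Ioc N (2 * N), ∑ n2 ∈ Ioc N (2 * N),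
      (if (r, s1) ∈ P ∧ (r, s2) ∈ P ∧ Gg a (Nat.gcd s1 s2) r s1 s2 n1 n2 ∧ t0 < Nat.gcd n1 n2 then
        ‖Ps a M r s1 s2 n1 n2‖ else 0) ≤
    100000 * T ^ 3 * ((M : ℝ) * (N : ℝ) ^ 2 / ((R : ℝ) * t0) + (S : ℝ) ^ 2 * (N : ℝ) ^ 2 / (t0 : ℝ) ^ 2 + (M : ℝ) * N)

/-! ### The main terms with a general weight ω -/

open Classical in
/-- Module Qgo (theorem tQgo; the good terms, g = 1). Uses: LtaStmt, LcoStmt. MODEL: Lib/SL/Lgo.lean (ω n1 n2 instead of β n1 conj (β n2)). -/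
def QgoStmt : Prop := ∀ (B1 z : ℝ) (a : ℕ → ℕ → ℤ) (R S M N H : ℕ) (P : Finset (ℕ × ℕ)) (c : ℕ × ℕ → ℂ)
    (ω : ℕ → ℕ → ℂ), 0 ≤ B1 → 1 ≤ R → 1 ≤ S → 1 ≤ N → 8 ≤ M → 1 ≤ H → R ≤ N → 2 * H < R → Pr a R S z P →
  (∀ n1 n2, ‖ω n1 n2‖ ≤ 1) → (∀ w, ‖c w‖ ≤ 1) → (∀ w, w ∉ P → c w = 0) →
  (∀ (γ : ℤ → ℕ → ℕ → ℕ → ℂ), Cg a P 1 R S M N γ → ‖∑ h ∈ Icc (-(H : ℤ)) H, TG a 1 h R S N (γ h) ω‖ ≤ B1) →
  ‖∑ r ∈ Ioc R (2 * R), ∑ s1 ∈ Ioc S (2 * S), ∑ s2 ∈ Ioc S (2 * S), ∑ n1 ∈ Ioc N (2 * N), ∑ n2 ∈ Ioc N (2 * N),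
      (if Gg a 1 r s1 s2 n1 n2 then
        c (r, s1) * (starRingEnd ℂ) (c (r, s2)) * ω n1 n2 * Ph a M r s1 s2 n1 n2 else 0)‖ ≤
    B1 + 32 * ((R : ℝ) * (S : ℝ) ^ 4 * (N : ℝ) ^ 2) / ((M : ℝ) * H)

open Classical in
/-- Module Qgm (theorem tQgm; 2 ≤ g ≤ G). Uses: MI.DggStmt, LtbStmt, LgsStmt, LcoStmt. MODEL: Lib/SL/Lgm.lean (ω n1 n2 instead of β n1 conj (β n2)). -/
def QgmStmt : Prop := ∀ (X T z : ℝ) (a : ℕ → ℕ → ℤ) (R S M N H G : ℕ) (P : Finset (ℕ × ℕ)) (c : ℕ × ℕ → ℂ)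
    (ω : ℕ → ℕ → ℂ) (B : ℕ → ℝ), Sz X T z R S M N → 1 ≤ H → 2 * H < R → Pr a R S z P → (∀ n1 n2, ‖ω n1 n2‖ ≤ 1) →
  (∀ w, ‖c w‖ ≤ 1) → (∀ w, w ∉ P → c w = 0) →
  (∀ g : ℕ, 2 ≤ g → g ≤ G → ∀ (γ : ℤ → ℕ → ℕ → ℕ → ℂ), Cg a P g R S M N γ →
    ‖∑ h ∈ Icc (-(H : ℤ)) H, TG a g h R S N (γ h) ω‖ ≤ B g) →
  ‖∑ r ∈ Ioc R (2 * R), ∑ s1 ∈ Ioc S (2 * S), ∑ s2 ∈ Ioc S (2 * S), ∑ n1 ∈ Ioc N (2 * N), ∑ n2 ∈ Ioc N (2 * N),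
      (if 2 ≤ Nat.gcd s1 s2 ∧ Gg a (Nat.gcd s1 s2) r s1 s2 n1 n2 ∧
          ND (a r s1) (a r s2) (r * Nat.gcd s1 s2) N ∧ Nat.gcd s1 s2 ≤ G then
        c (r, s1) * (starRingEnd ℂ) (c (r, s2)) * ω n1 n2 * Ps a M r s1 s2 n1 n2 else 0)‖ ≤
    ∑ g ∈ Icc 2 G, B g + 2304 * ((R : ℝ) * (S : ℝ) ^ 4 * (N : ℝ) ^ 2 / ((M : ℝ) * H)) +
      1152 * ((M : ℝ) * (N : ℝ) ^ 2 / ((R : ℝ) * z))

open Classical in
/-- Module Qfu (theorem tQfu; all terms with two full congruences). Uses: LddStmt, LglStmt, QgmStmt. MODEL: Lib/SL/Lfu.lean (ω n1 n2 instead of β n1 conj (β n2)). -/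
def QfuStmt : Prop := ∀ (X T z : ℝ) (a : ℕ → ℕ → ℤ) (R S M N H G : ℕ) (P : Finset (ℕ × ℕ)) (c : ℕ × ℕ → ℂ)
    (ω : ℕ → ℕ → ℂ) (B : ℕ → ℝ), Sz X T z R S M N → 1 ≤ H → 1 ≤ G → 2 * H < R → Pr a R S z P →
  (∀ n1 n2, ‖ω n1 n2‖ ≤ 1) → (∀ w, ‖c w‖ ≤ 1) → (∀ w, w ∉ P → c w = 0) →
  (∀ g : ℕ, 2 ≤ g → g ≤ G → ∀ (γ : ℤ → ℕ → ℕ → ℕ → ℂ), Cg a P g R S M N γ →
    ‖∑ h ∈ Icc (-(H : ℤ)) H, TG a g h R S N (γ h) ω‖ ≤ B g) →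
  ‖∑ r ∈ Ioc R (2 * R), ∑ s1 ∈ Ioc S (2 * S), ∑ s2 ∈ Ioc S (2 * S), ∑ n1 ∈ Ioc N (2 * N), ∑ n2 ∈ Ioc N (2 * N),
      (if 2 ≤ Nat.gcd s1 s2 ∧ Gg a (Nat.gcd s1 s2) r s1 s2 n1 n2 then
        c (r, s1) * (starRingEnd ℂ) (c (r, s2)) * ω n1 n2 * Ps a M r s1 s2 n1 n2 else 0)‖ ≤
    ∑ g ∈ Icc 2 G, B g + 2304 * ((R : ℝ) * (S : ℝ) ^ 4 * (N : ℝ) ^ 2 / ((M : ℝ) * H)) +
      1152 * ((M : ℝ) * (N : ℝ) ^ 2 / ((R : ℝ) * z)) + 1728 * ((M : ℝ) * (N : ℝ) ^ 2 / ((R : ℝ) * G)) +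
      576 * ((S : ℝ) ^ 2 * (N : ℝ) ^ 2 / (G : ℝ) ^ 2) + 100 * T ^ 2 * ((M : ℝ) * N)

/-- Module Qfi (theorem tQfi). FINAL STATEMENT SLH.DspGStmt. Uses: LcaStmt, QexStmt, LcrStmt, QcgStmt, QgtStmt, QfuStmt, QgoStmt. MODEL: Lib/SL/Lfi.lean.
Proof. t0 = H, ω = om β H (norm ≤ 1, nonzero only if gcd ≤ H). 1 ≤ G ≤ H. 2H < R gives R ≥ 3; Sz holds. Lca, Qex, Qgo (B1 = B 1), Qfu, Lcr, Qcg, Qgt: the square is ≤ R M (∑_{1 ≤ g ≤ G} B g + 2336 R S^4 N^2/(M H) + 1152 M N^2/(R z) + 1728 M N^2/(R G) + 576 S^2 N^2/G^2 + 100 T^2 M N + 280 T^2 M N (1 + N/(R z)) +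
84 T^2 M N (1 + N/(R H)) + 100000 T^3 (M N^2/(R H) + S^2 N^2/H^2 + M N)); 1/H ≤ 1/G. C = 200000, A = 3, T ≥ 1. -/
def QfiStmt : Prop := SLH.DspGStmt

end Pool.Agent.Lib.SL
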